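import Mathlib

/-! Single-letter inequality, part 1: the case where `f` is close to a point mass at `0`. -/

set_option autoImplicit false

namespace Pool.Agent.W321.GB

open Finset

/-- the interval `[-B, B]` -/
noncomputable def I (B : ℕ) : Finset ℤ := Finset.Icc (-(B : ℤ)) B

theorem mem_I {B : ℕ} {x : ℤ} : x ∈ I B ↔ -(B : ℤ) ≤ x ∧ x ≤ B := by simp [I]

theorem zero_mem_I (B : ℕ) : (0 : ℤ) ∈ I B := by simp [I]

theorem neg_mem_I {B : ℕ} {x : ℤ} (h : x ∈ I B) : -x ∈ I B := by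
  rw [mem_I] at *
  omega

/-- the bilinear sum -/
noncomputable def S (B : ℕ) (f g h : ℤ → ℝ) : ℝ :=
  ∑ x ∈ I B, ∑ y ∈ I B, f x * f y * (g (x + y) * h (x - y))

/-- change of variables `(x, y) ↦ (x + y, x - y)` -/
theorem change (T : Finset (ℤ × ℤ)) (F : ℤ → ℤ → ℝ)
    (hF : ∀ P Q, 0 ≤ F P Q) (U : Finset (ℤ × ℤ))
    (hTU : ∀ q ∈ T, (q.1 + q.2, q.1 - q.2) ∈ U) :
    ∑ q ∈ T, F (q.1 + q.2) (q.1 - q.2) ≤ ∑ q ∈ U, F q.1 q.2 := by
  have h1 : ∑ q ∈ T, F (q.1 + q.2) (q.1 - q.2) =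
      ∑ q ∈ T.image (fun q : ℤ × ℤ => (q.1 + q.2, q.1 - q.2)), F q.1 q.2 := by
    rw [Finset.sum_image]
    rintro ⟨a, b⟩ - ⟨c, d⟩ - h
    simp only [Prod.mk.injEq] at h ⊢
    omega
  rw [h1]
  refine Finset.sum_le_sum_of_subset_of_nonneg ?_ (fun q _ _ => hF _ _)
  intro q hq
  rw [Finset.mem_image] at hq
  obtain ⟨r, hr, rfl⟩ := hq
  exact hTU r hr

theorem pm_mem {B : ℕ} {x y : ℤ} (hx : x ∈ I B) (hy : y ∈ I B) :
    x + y ∈ I (2 * B) ∧ x - y ∈ I (2 * B) := by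
  rw [mem_I] at *
  push_cast
  constructor
  · constructor <;> omega
  · rw [mem_I]
    push_cast
    constructor <;> omega

theorem sum_sq_nonneg' (s : Finset ℤ) (g : ℤ → ℝ) : 0 ≤ ∑ x ∈ s, g x ^ 2 :=
  Finset.sum_nonneg fun _ _ => sq_nonneg _

theorem split0 (B : ℕ) (F : ℤ → ℝ) : ∑ x ∈ I B, F x = F 0 + ∑ x ∈ (I B).erase 0, F x :=
  (Finset.add_sum_erase _ _ (zero_mem_I B)).symm

theorem small_case (B : ℕ) (f g h : ℤ → ℝ) (hf : ∀ x, 0 ≤ f x) (hg : ∀ x, 0 ≤ g x)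
    (hh : ∀ x, 0 ≤ h x) (hf1 : ∑ x ∈ I B, f x ^ 2 = 1) (hg1 : ∑ x ∈ I (2 * B), g x ^ 2 ≤ 1)
    (hh1 : ∑ x ∈ I (2 * B), h x ^ 2 ≤ 1) (hw : 1 - f 0 ^ 2 ≤ 1 / 64) :
    S B f g h ≤ 1 - (1 - f 0 ^ 2) / 2 := by
  set w : ℝ := 1 - f 0 ^ 2 with hwdef
  set I' := (I B).erase 0 with hI'
  set J' := (I (2 * B)).erase 0 with hJ'
  set ug : ℝ := ∑ x ∈ J', g x ^ 2 with hug
  set uh : ℝ := ∑ x ∈ J', h x ^ 2 with huh
  have hfw : ∑ x ∈ I', f x ^ 2 = w := by
    have := split0 B (fun x => f x ^ 2)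
    simp only [hf1] at this
    rw [hwdef]
    linarith
  have hgs : g 0 ^ 2 + ug ≤ 1 := by
    have := split0 (2 * B) (fun x => g x ^ 2)
    linarith
  have hhs : h 0 ^ 2 + uh ≤ 1 := by
    have := split0 (2 * B) (fun x => h x ^ 2)
    linarith
  have hug0 : 0 ≤ ug := sum_sq_nonneg' _ _
  have huh0 : 0 ≤ uh := sum_sq_nonneg' _ _
  have hw0 : 0 ≤ w := by
    rw [← hfw]
    exact sum_sq_nonneg' _ _
  have hf0 : f 0 ≤ 1 := by nlinarith [hf 0]
  have hsub : I' ⊆ J' := by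
    intro x hx
    rw [hI', Finset.mem_erase, mem_I] at hx
    rw [hJ', Finset.mem_erase, mem_I]
    refine ⟨hx.1, ?_⟩
    push_cast
    omega
  have hfx : ∀ x ∈ I', f x ≤ 1 / 8 := by
    intro x hx
    have h1 : f x ^ 2 ≤ w := by
      rw [← hfw]
      exact Finset.single_le_sum (f := fun x => f x ^ 2) (fun _ _ => sq_nonneg _) hx
    nlinarith [hf x]
  -- decomposition
  have hdec : S B f g h = f 0 * f 0 * (g 0 * h 0) + ∑ y ∈ I', f 0 * f y * (g y * h (-y)) +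
      ∑ x ∈ I', f x * f 0 * (g x * h x) +
      ∑ x ∈ I', ∑ y ∈ I', f x * f y * (g (x + y) * h (x - y)) := by
    unfold S
    rw [split0]
    rw [split0 B (fun y => f 0 * f y * (g (0 + y) * h (0 - y)))]
    have h2 : ∀ x ∈ (I B).erase 0, ∑ y ∈ I B, f x * f y * (g (x + y) * h (x - y)) =
        f x * f 0 * (g x * h x) + ∑ y ∈ I', f x * f y * (g (x + y) * h (x - y)) := by
      intro x _
      rw [split0]
      simp only [add_zero, sub_zero, hI']
    rw [Finset.sum_congr rfl h2, Finset.sum_add_distrib]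
    simp only [zero_add, zero_sub, sub_zero, add_zero]
    ring
  have t1 : f 0 * f 0 * (g 0 * h 0) ≤ (1 - w) * (1 - (ug + uh) / 2) := by
    have e1 : f 0 * f 0 = 1 - w := by rw [hwdef]; ring
    rw [e1]
    refine mul_le_mul_of_nonneg_left ?_ (by linarith)
    nlinarith [sq_nonneg (g 0 - h 0)]
  have t2 : ∑ y ∈ I', f 0 * f y * (g y * h (-y)) ≤ (ug + uh) / 16 := by
    have h1 : ∀ y ∈ I', f 0 * f y * (g y * h (-y)) ≤ (g y ^ 2 + h (-y) ^ 2) / 16 := by
      intro y hy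
      have h2 : f 0 * f y ≤ 1 / 8 := by
        have := hfx y hy
        nlinarith [hf y, hf 0]
      have h3 : g y * h (-y) ≤ (g y ^ 2 + h (-y) ^ 2) / 2 := by
        nlinarith [sq_nonneg (g y - h (-y))]
      have h4 : 0 ≤ g y * h (-y) := mul_nonneg (hg _) (hh _)
      have h5 : 0 ≤ f 0 * f y := mul_nonneg (hf _) (hf _)
      nlinarith
    refine (Finset.sum_le_sum h1).trans ?_
    rw [← Finset.sum_div, Finset.sum_add_distrib]
    have h2 : ∑ y ∈ I', g y ^ 2 ≤ ug :=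
      Finset.sum_le_sum_of_subset_of_nonneg hsub fun _ _ _ => sq_nonneg _
    have h3 : ∑ y ∈ I', h (-y) ^ 2 ≤ uh := by
      have h4 : ∑ y ∈ I', h (-y) ^ 2 = ∑ y ∈ I', h y ^ 2 := by
        refine Finset.sum_nbij' (fun y => -y) (fun y => -y) ?_ ?_ ?_ ?_ ?_
        · intro y hy
          rw [hI', Finset.mem_erase, mem_I] at *
          omega
        · intro y hy
          rw [hI', Finset.mem_erase, mem_I] at *
          omega
        · intro y _; ring
        · intro y _; ring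
        · intro y _; rfl
      rw [h4]
      exact Finset.sum_le_sum_of_subset_of_nonneg hsub fun _ _ _ => sq_nonneg _
    linarith
  have t3 : ∑ x ∈ I', f x * f 0 * (g x * h x) ≤ (ug + uh) / 16 := by
    have h1 : ∀ y ∈ I', f y * f 0 * (g y * h y) ≤ (g y ^ 2 + h y ^ 2) / 16 := by
      intro y hy
      have h2 : f y * f 0 ≤ 1 / 8 := by
        have := hfx y hy
        nlinarith [hf y, hf 0]
      have h3 : g y * h y ≤ (g y ^ 2 + h y ^ 2) / 2 := by
        nlinarith [sq_nonneg (g y - h y)]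
      have h4 : 0 ≤ g y * h y := mul_nonneg (hg _) (hh _)
      have h5 : 0 ≤ f y * f 0 := mul_nonneg (hf _) (hf _)
      nlinarith
    refine (Finset.sum_le_sum h1).trans ?_
    rw [← Finset.sum_div, Finset.sum_add_distrib]
    have h2 : ∑ y ∈ I', g y ^ 2 ≤ ug :=
      Finset.sum_le_sum_of_subset_of_nonneg hsub fun _ _ _ => sq_nonneg _
    have h3 : ∑ y ∈ I', h y ^ 2 ≤ uh :=
      Finset.sum_le_sum_of_subset_of_nonneg hsub fun _ _ _ => sq_nonneg _
    linarith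
  have t4 : ∑ x ∈ I', ∑ y ∈ I', f x * f y * (g (x + y) * h (x - y)) ≤ w ^ 2 + (ug + uh) / 4 := by
    set T := ∑ x ∈ I', ∑ y ∈ I', f x * f y * (g (x + y) * h (x - y)) with hT
    have hT0 : 0 ≤ T := Finset.sum_nonneg fun x _ => Finset.sum_nonneg fun y _ =>
      mul_nonneg (mul_nonneg (hf _) (hf _)) (mul_nonneg (hg _) (hh _))
    have e1 : T = ∑ q ∈ I' ×ˢ I', (f q.1 * f q.2) * (g (q.1 + q.2) * h (q.1 - q.2)) := by
      rw [hT, Finset.sum_product]
    have e2 : T ^ 2 ≤ (∑ q ∈ I' ×ˢ I', (f q.1 * f q.2) ^ 2) *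
        ∑ q ∈ I' ×ˢ I', (g (q.1 + q.2) * h (q.1 - q.2)) ^ 2 := by
      rw [e1]
      exact Finset.sum_mul_sq_le_sq_mul_sq _ _ _
    have e3 : ∑ q ∈ I' ×ˢ I', (f q.1 * f q.2) ^ 2 = w ^ 2 := by
      rw [Finset.sum_product]
      simp only [mul_pow]
      simp only [← Finset.mul_sum, ← Finset.sum_mul]
      rw [hfw]
      ring
    have e4 : ∑ q ∈ I' ×ˢ I', (g (q.1 + q.2) * h (q.1 - q.2)) ^ 2 ≤ ug + uh := by
      have c1 := change (I' ×ˢ I') (fun P Q => (g P * h Q) ^ 2) (fun _ _ => sq_nonneg _)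
        ((I (2 * B) ×ˢ I (2 * B)).erase (0, 0)) (by
          rintro ⟨x, y⟩ hq
          rw [Finset.mem_product, hI', Finset.mem_erase, Finset.mem_erase] at hq
          simp only at hq
          rw [Finset.mem_erase, Finset.mem_product]
          refine ⟨?_, pm_mem hq.1.2 hq.2.2⟩
          simp only [ne_eq, Prod.mk.injEq, not_and]
          intro h1 h2
          omega)
      refine c1.trans ?_
      have c2 : ∑ q ∈ (I (2 * B) ×ˢ I (2 * B)).erase (0, 0), (g q.1 * h q.2) ^ 2 =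
          (∑ x ∈ I (2 * B), g x ^ 2) * (∑ x ∈ I (2 * B), h x ^ 2) - g 0 ^ 2 * h 0 ^ 2 := by
        have c3 := Finset.add_sum_erase (I (2 * B) ×ˢ I (2 * B)) (fun q : ℤ × ℤ => (g q.1 * h q.2) ^ 2)
          (a := (0, 0)) (Finset.mem_product.2 ⟨zero_mem_I _, zero_mem_I _⟩)
        have c4 : ∑ q ∈ I (2 * B) ×ˢ I (2 * B), (g q.1 * h q.2) ^ 2 =
            (∑ x ∈ I (2 * B), g x ^ 2) * (∑ x ∈ I (2 * B), h x ^ 2) := by
          rw [Finset.sum_product]
          simp only [mul_pow]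
          simp only [← Finset.mul_sum, ← Finset.sum_mul]
        rw [c4] at c3
        simp only [mul_pow] at c3 ⊢
        linarith
      rw [c2, split0 (2 * B) (fun x => g x ^ 2), split0 (2 * B) (fun x => h x ^ 2)]
      have a0 : h 0 ^ 2 ≤ 1 := by linarith
      have a1 := mul_le_mul_of_nonneg_left hgs huh0
      have a2 := mul_le_mul_of_nonneg_left a0 hug0
      linarith
    have e5 : T ^ 2 ≤ w ^ 2 * (ug + uh) := by
      rw [e3] at e2
      exact e2.trans (mul_le_mul_of_nonneg_left e4 (sq_nonneg _))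
    have e6 : T ^ 2 ≤ (w ^ 2 + (ug + uh) / 4) ^ 2 := by
      nlinarith [sq_nonneg (w ^ 2 - (ug + uh) / 4)]
    exact (pow_le_pow_iff_left₀ hT0 (by positivity) two_ne_zero).1 e6
  rw [hdec]
  nlinarith [mul_nonneg hug0 hw0, mul_nonneg huh0 hw0]

end Pool.Agent.W321.GB
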