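import Mathlib
import Pool.Agent.W321.GB.Gap1

/-! Empirical laws, signed permutations and the size of type classes. -/

set_option autoImplicit false

namespace Pool.Agent.W321.GB

open Finset

/-- the symmetrised law attached to a counting function `n` of absolute values -/
noncomputable def law (M : ℕ) (n : ℕ → ℕ) (x : ℤ) : ℝ :=
  (n x.natAbs : ℝ) / M / (if x = 0 then 1 else 2)

/-- the fourth root of the law -/
noncomputable def qq (M : ℕ) (n : ℕ → ℕ) (x : ℤ) : ℝ := (law M n x) ^ ((1 : ℝ) / 4)

theorem law_nonneg (M : ℕ) (n : ℕ → ℕ) (x : ℤ) : 0 ≤ law M n x := by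
  unfold law
  split_ifs <;> positivity

theorem qq_nonneg (M : ℕ) (n : ℕ → ℕ) (x : ℤ) : 0 ≤ qq M n x :=
  Real.rpow_nonneg (law_nonneg _ _ _) _

theorem qq_pow (M : ℕ) (n : ℕ → ℕ) (x : ℤ) : qq M n x ^ 4 = law M n x := by
  unfold qq
  rw [← Real.rpow_natCast, ← Real.rpow_mul (law_nonneg _ _ _)]
  norm_num

theorem qq_neg (M : ℕ) (n : ℕ → ℕ) (x : ℤ) : qq M n (-x) = qq M n x := by
  unfold qq law
  simp only [Int.natAbs_neg, neg_eq_zero]

theorem law_sum (M B : ℕ) (n : ℕ → ℕ) (hM : 0 < M) (hn : ∑ v ∈ range (B + 1), n v = M) :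
    ∑ x ∈ I B, law M n x = 1 := by
  have h1 : ∀ x ∈ I B, x.natAbs ∈ range (B + 1) := by
    intro x hx
    rw [mem_I] at hx
    rw [Finset.mem_range]
    omega
  rw [← Finset.sum_fiberwise_of_maps_to h1]
  have h2 : ∀ v ∈ range (B + 1), ∑ x ∈ I B with x.natAbs = v, law M n x = (n v : ℝ) / M := by
    intro v hv
    rw [Finset.mem_range] at hv
    rcases Nat.eq_zero_or_pos v with rfl | hv0
    · have : ({x ∈ I B | x.natAbs = 0} : Finset ℤ) = {0} := by
        ext x
        rw [Finset.mem_filter, Finset.mem_singleton, mem_I]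
        omega
      rw [this, Finset.sum_singleton]
      unfold law
      simp
    · have : ({x ∈ I B | x.natAbs = v} : Finset ℤ) = {(v : ℤ), -(v : ℤ)} := by
        ext x
        rw [Finset.mem_filter, Finset.mem_insert, Finset.mem_singleton, mem_I]
        omega
      rw [this, Finset.sum_pair (by omega)]
      unfold law
      simp only [Int.natAbs_natCast, Int.natAbs_neg]
      rw [if_neg (by omega), if_neg (by omega)]
      ring
  rw [Finset.sum_congr rfl h2, ← Finset.sum_div]
  have h3 : ∑ v ∈ range (B + 1), (n v : ℝ) = M := by exact_mod_cast hn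
  rw [h3]
  have : (M : ℝ) ≠ 0 := by exact_mod_cast hM.ne'
  exact div_self this

section

variable {ι : Type} [Fintype ι] [DecidableEq ι]

/-- vectors with entries in `[-B, B]` -/
noncomputable def box (ι : Type) [Fintype ι] [DecidableEq ι] (B : ℕ) : Finset (ι → ℤ) :=
  Fintype.piFinset fun _ => I B

theorem mem_box {B : ℕ} {w : ι → ℤ} : w ∈ box ι B ↔ ∀ i, w i ∈ I B := by
  unfold box
  rw [Fintype.mem_piFinset]

/-- the number of entries of absolute value `v` -/
def cnt (w : ι → ℤ) (v : ℕ) : ℕ := #{i | (w i).natAbs = v}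

/-- the likelihood of `w` under its own law, to the power `1/4` -/
noncomputable def Lam (w : ι → ℤ) : ℝ := ∏ i, qq (Fintype.card ι) (cnt w) (w i)

theorem cnt_sum {B : ℕ} {w : ι → ℤ} (hw : w ∈ box ι B) :
    ∑ v ∈ range (B + 1), cnt w v = Fintype.card ι := by
  rw [mem_box] at hw
  unfold cnt
  rw [← Finset.card_univ]
  refine (Finset.card_eq_sum_card_fiberwise fun i _ => ?_).symm
  have := hw i
  rw [mem_I] at this
  rw [Finset.mem_coe, Finset.mem_range]
  omega

theorem Lam_nonneg (w : ι → ℤ) : 0 ≤ Lam w := Finset.prod_nonneg fun _ _ => qq_nonneg _ _ _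

theorem prod_comp_cnt {B : ℕ} {w : ι → ℤ} (hw : w ∈ box ι B) (F : ℕ → ℝ) :
    ∏ i, F (w i).natAbs = ∏ v ∈ range (B + 1), F v ^ cnt w v := by
  rw [mem_box] at hw
  have h1 : ∀ i ∈ (Finset.univ : Finset ι), (w i).natAbs ∈ range (B + 1) := by
    intro i _
    have := hw i
    rw [mem_I] at this
    rw [Finset.mem_range]
    omega
  rw [← Finset.prod_fiberwise_of_maps_to h1]
  refine Finset.prod_congr rfl fun v _ => ?_
  unfold cnt
  rw [← Finset.prod_const]
  refine Finset.prod_congr rfl fun i hi => ?_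
  rw [(Finset.mem_filter.1 hi).2]

theorem Lam_eq_of_cnt {B : ℕ} {w w' : ι → ℤ} (hw : w ∈ box ι B) (hw' : w' ∈ box ι B)
    (h : cnt w = cnt w') : Lam w = Lam w' := by
  have e : ∀ (n : ℕ → ℕ) (x : ℤ), qq (Fintype.card ι) n x =
      qq (Fintype.card ι) n (x.natAbs : ℤ) := by
    intro n x
    rcases Int.natAbs_eq x with h | h
    · rw [← h]
    · nth_rw 1 [h]
      rw [qq_neg]
  unfold Lam
  have h1 : ∀ u : ι → ℤ, u ∈ box ι B → ∏ i, qq (Fintype.card ι) (cnt u) (u i) =
      ∏ v ∈ range (B + 1), (qq (Fintype.card ι) (cnt u) (v : ℤ)) ^ cnt u v := by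
    intro u hu
    rw [← prod_comp_cnt hu (fun v => qq (Fintype.card ι) (cnt u) (v : ℤ))]
    exact Finset.prod_congr rfl fun i _ => e _ _
  rw [h1 w hw, h1 w' hw', h]

theorem Lam_pow_four {B : ℕ} {w : ι → ℤ} (hw : w ∈ box ι B) :
    Lam w ^ 4 = (∏ v ∈ range (B + 1), ((cnt w v : ℝ) / Fintype.card ι) ^ cnt w v) /
      2 ^ (Fintype.card ι - cnt w 0) := by
  unfold Lam
  rw [← Finset.prod_pow]
  simp only [qq_pow]
  unfold law
  rw [Finset.prod_div_distrib]
  congr 1
  · exact prod_comp_cnt hw (fun v => ((cnt w v : ℝ) / Fintype.card ι))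
  · have h1 : ∏ i, (if w i = 0 then (1 : ℝ) else 2) = 2 ^ #{i | ¬ w i = 0} := by
      rw [Finset.prod_ite, Finset.prod_const_one, one_mul, Finset.prod_const]
    rw [h1]
    congr 1
    have h2 := Finset.card_filter_add_card_filter_not (s := (Finset.univ : Finset ι))
      (fun i => w i = 0)
    have h3 : cnt w 0 = #{i | w i = 0} := by
      unfold cnt
      congr 1
      ext i
      simp
    rw [Finset.card_univ] at h2
    omega

/-- signed permutations -/
abbrev Gam (ι : Type) := Equiv.Perm ι × (ι → ℤˣ)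

/-- the action of a signed permutation -/
def act (R : Gam ι) (w : ι → ℤ) : ι → ℤ := fun i => (R.2 i : ℤ) * w (R.1 i)

theorem natAbs_act (R : Gam ι) (w : ι → ℤ) (i : ι) :
    (act R w i).natAbs = (w (R.1 i)).natAbs := by
  unfold act
  rw [Int.natAbs_mul, Int.units_natAbs, one_mul]

theorem cnt_act (R : Gam ι) (w : ι → ℤ) : cnt (act R w) = cnt w := by
  funext v
  unfold cnt
  refine Finset.card_bij (fun i _ => R.1 i) ?_ ?_ ?_
  · intro i hi
    rw [Finset.mem_filter] at hi ⊢
    rw [natAbs_act] at hi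
    exact ⟨Finset.mem_univ _, hi.2⟩
  · intro i _ j _ h
    exact R.1.injective h
  · intro j hj
    rw [Finset.mem_filter] at hj
    refine ⟨R.1.symm j, ?_, by simp⟩
    rw [Finset.mem_filter, natAbs_act]
    simpa using hj.2

theorem act_mem_box {B : ℕ} (R : Gam ι) {w : ι → ℤ} (hw : w ∈ box ι B) : act R w ∈ box ι B := by
  rw [mem_box] at hw ⊢
  intro i
  have h1 := hw (R.1 i)
  have h2 := natAbs_act R w i
  rw [mem_I] at h1 ⊢
  omega

theorem card_Gam : Fintype.card (Gam ι) = (Fintype.card ι).factorial * 2 ^ Fintype.card ι := by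
  unfold Gam
  rw [Fintype.card_prod, Fintype.card_perm, Fintype.card_fun, Fintype.card_units_int]

open scoped Classical in
theorem card_stab {B : ℕ} {b : ι → ℤ} (hb : b ∈ box ι B) (w : ι → ℤ) :
    #{R : Gam ι | act R b = w} ≤ (∏ v ∈ range (B + 1), (cnt b v).factorial) * 2 ^ cnt b 0 := by
  by_cases hne : ∃ R0 : Gam ι, act R0 b = w
  · obtain ⟨R0, hR0⟩ := hne
    let f : ι → ℕ := fun i => (b i).natAbs
    have hw0 : cnt w 0 = cnt b 0 := by rw [← hR0, cnt_act]
    have hstab := DomMulAct.stabilizer_card' f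
    have hprod : ∏ v ∈ Finset.image f Finset.univ, (Fintype.card {a // f a = v}).factorial =
        ∏ v ∈ range (B + 1), (cnt b v).factorial := by
      have e1 : ∀ v, Fintype.card {a // f a = v} = cnt b v := by
        intro v
        rw [Fintype.card_subtype]
        rfl
      simp only [e1]
      refine Finset.prod_subset ?_ ?_
      · intro v hv
        rw [Finset.mem_image] at hv
        obtain ⟨i, -, rfl⟩ := hv
        rw [mem_box] at hb
        have := hb i
        rw [mem_I] at this
        rw [Finset.mem_range]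
        simp only [f]
        omega
      · intro v _ hv
        have : cnt b v = 0 := by
          unfold cnt
          rw [Finset.card_eq_zero, Finset.filter_eq_empty_iff]
          intro i _ hi
          exact hv (Finset.mem_image.2 ⟨i, Finset.mem_univ _, hi⟩)
        rw [this, Nat.factorial_zero]
    have hz : Fintype.card ({i // w i = 0} → ℤˣ) = 2 ^ cnt b 0 := by
      rw [Fintype.card_fun, Fintype.card_units_int, ← hw0]
      congr 1
      rw [Fintype.card_subtype]
      unfold cnt
      congr 1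
      ext i
      simp
    rw [← hprod, ← hstab, ← hz, ← Fintype.card_prod]
    have hval : ∀ R : Gam ι, act R b = w → ∀ i, f (R.1 i) = (w i).natAbs := by
      intro R hR i
      rw [← hR, natAbs_act]
    have key : Fintype.card {R : Gam ι // act R b = w} ≤
        Fintype.card ({g : Equiv.Perm ι // f ∘ ⇑g = f} × ({i // w i = 0} → ℤˣ)) := by
      refine Fintype.card_le_of_injective
        (fun R : {R : Gam ι // act R b = w} =>
          ((⟨R.1.1 * R0.1⁻¹, ?_⟩ : {g : Equiv.Perm ι // f ∘ ⇑g = f}), fun i => R.1.2 i.1)) ?_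
      · funext j
        simp only [Function.comp_apply, Equiv.Perm.coe_mul]
        rw [hval R.1 R.2, ← hval R0 hR0]
        simp
      · rintro ⟨⟨σ, s⟩, hR⟩ ⟨⟨σ', s'⟩, hR'⟩ h
        simp only [Prod.mk.injEq, Subtype.mk.injEq, mul_left_inj] at h
        obtain ⟨rfl, h2⟩ := h
        simp only [Subtype.mk.injEq, Prod.mk.injEq, true_and]
        funext i
        by_cases hi : w i = 0
        · have := congrFun h2 ⟨i, hi⟩
          exact this
        · have e1 : (s i : ℤ) * b (σ i) = w i := by rw [← hR]; rfl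
          have e2 : (s' i : ℤ) * b (σ i) = w i := by rw [← hR']; rfl
          have hb0 : b (σ i) ≠ 0 := by
            intro h0
            rw [h0, mul_zero] at e1
            exact hi e1.symm
          have e3 : (s i : ℤ) = s' i := mul_right_cancel₀ hb0 (e1.trans e2.symm)
          exact Units.ext e3
    rwa [Fintype.card_subtype] at key
  · push Not at hne
    have : ({R : Gam ι | act R b = w} : Finset (Gam ι)) = ∅ := by
      rw [Finset.filter_eq_empty_iff]
      intro R _
      exact hne R
    rw [this, Finset.card_empty]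
    exact Nat.zero_le _

end

end Pool.Agent.W321.GB
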