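import Mathlib
import Pool.Agent.W321.GB.Types

/-! The probability that a random signed permutation of `b` lands in a given set. -/

set_option autoImplicit false

namespace Pool.Agent.W321.GB

open Finset

theorem fact_aux (n : ℕ) : ((n + 1).factorial : ℝ) * Real.exp (n + 1) ≤
    Real.exp 1 * ((n : ℝ) + 1) ^ (n + 2) := by
  induction n with
  | zero =>
    simp
  | succ n ih =>
    have h1 : Real.exp 1 * ((n : ℝ) + 1) ^ (n + 2) ≤ ((n : ℝ) + 2) ^ (n + 2) := by
      have h2 : ((n : ℝ) + 1) / (n + 2) ≤ Real.exp (-(1 / ((n : ℝ) + 2))) := by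
        have := Real.add_one_le_exp (-(1 / ((n : ℝ) + 2)))
        refine le_trans (le_of_eq ?_) this
        field_simp
        ring
      have h3 : (((n : ℝ) + 1) / (n + 2)) ^ (n + 2) ≤ Real.exp (-1) := by
        refine (pow_le_pow_left₀ (by positivity) h2 _).trans (le_of_eq ?_)
        rw [← Real.exp_nat_mul]
        congr 1
        push_cast
        field_simp
      rw [div_pow, div_le_iff₀ (by positivity)] at h3
      calc Real.exp 1 * ((n : ℝ) + 1) ^ (n + 2) ≤ Real.exp 1 * (Real.exp (-1) * (n + 2) ^ (n + 2)) :=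
            mul_le_mul_of_nonneg_left h3 (Real.exp_pos _).le
        _ = _ := by
            rw [← mul_assoc, ← Real.exp_add]
            norm_num
    rw [Nat.factorial_succ (n + 1)]
    push_cast
    have e1 : Real.exp ((n : ℝ) + 1 + 1) = Real.exp (n + 1) * Real.exp 1 := by
      rw [← Real.exp_add]
    rw [e1]
    calc ((n : ℝ) + 1 + 1) * ((n + 1).factorial : ℝ) * (Real.exp (n + 1) * Real.exp 1)
        = ((n : ℝ) + 2) * Real.exp 1 * (((n + 1).factorial : ℝ) * Real.exp (n + 1)) := by ring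
      _ ≤ ((n : ℝ) + 2) * Real.exp 1 * (Real.exp 1 * ((n : ℝ) + 1) ^ (n + 2)) :=
          mul_le_mul_of_nonneg_left ih (by positivity)
      _ ≤ ((n : ℝ) + 2) * Real.exp 1 * ((n : ℝ) + 2) ^ (n + 2) :=
          mul_le_mul_of_nonneg_left h1 (by positivity)
      _ = _ := by ring

theorem fact_bound (n : ℕ) : (n.factorial : ℝ) ≤
    Real.exp 1 * (n + 1) * (n : ℝ) ^ n * Real.exp (-n) := by
  rcases Nat.eq_zero_or_pos n with rfl | hn
  · simp
  · obtain ⟨k, rfl⟩ := Nat.exists_eq_add_of_lt hn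
    have h := fact_aux k
    rw [zero_add]
    push_cast
    rw [Real.exp_neg, ← div_eq_mul_inv, le_div_iff₀ (Real.exp_pos _)]
    refine h.trans ?_
    have h1 : ((k : ℝ) + 1) ^ (k + 2) = (k + 1) * (k + 1) ^ (k + 1) := by ring
    rw [h1, ← mul_assoc]
    have : Real.exp 1 * ((k : ℝ) + 1) ≤ Real.exp 1 * (k + 1 + 1) :=
      mul_le_mul_of_nonneg_left (by linarith) (Real.exp_pos _).le
    exact mul_le_mul_of_nonneg_right this (by positivity)

theorem ratio_bound (B M : ℕ) (n : ℕ → ℕ) (hn : ∑ v ∈ range (B + 1), n v = M) :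
    (∏ v ∈ range (B + 1), ((n v).factorial : ℝ)) * (M : ℝ) ^ M ≤
      (Real.exp 1 * (M + 1)) ^ (B + 1) * (∏ v ∈ range (B + 1), (n v : ℝ) ^ n v) *
        (M.factorial : ℝ) := by
  have h1 : ∏ v ∈ range (B + 1), ((n v).factorial : ℝ) ≤
      ∏ v ∈ range (B + 1), (Real.exp 1 * (M + 1) * (n v : ℝ) ^ n v * Real.exp (-(n v : ℝ))) := by
    refine Finset.prod_le_prod (fun _ _ => by positivity) fun v hv => ?_
    refine (fact_bound (n v)).trans ?_
    have h2 : (n v : ℝ) ≤ M := by
      have : n v ≤ M := by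
        rw [← hn]
        exact Finset.single_le_sum (f := n) (fun _ _ => Nat.zero_le _) hv
      exact_mod_cast this
    gcongr
  have h2 : ∏ v ∈ range (B + 1), (Real.exp 1 * (M + 1) * (n v : ℝ) ^ n v *
      Real.exp (-(n v : ℝ))) = (Real.exp 1 * (M + 1)) ^ (B + 1) *
        (∏ v ∈ range (B + 1), (n v : ℝ) ^ n v) * Real.exp (-M) := by
    rw [Finset.prod_mul_distrib, Finset.prod_mul_distrib, Finset.prod_const, Finset.card_range,
      ← Real.exp_sum, Finset.sum_neg_distrib]
    congr 3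
    exact_mod_cast hn
  have h3 : (M : ℝ) ^ M ≤ Real.exp M * M.factorial := by
    have := Real.pow_div_factorial_le_exp (M : ℝ) (by positivity) M
    rwa [div_le_iff₀ (by positivity)] at this
  calc _ ≤ ((Real.exp 1 * (M + 1)) ^ (B + 1) *
        (∏ v ∈ range (B + 1), (n v : ℝ) ^ n v) * Real.exp (-M)) * (Real.exp M * M.factorial) := by
        refine mul_le_mul (h1.trans h2.le) h3 (by positivity) (by positivity)
    _ = (Real.exp 1 * (M + 1)) ^ (B + 1) *
        (∏ v ∈ range (B + 1), (n v : ℝ) ^ n v) * (Real.exp (-M) * Real.exp M) * M.factorial := by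
        ring
    _ = _ := by
        rw [← Real.exp_add]
        norm_num

section

variable {ι : Type} [Fintype ι] [DecidableEq ι]

/-- the polynomial factor -/
noncomputable def D (M B : ℕ) : ℝ := (Real.exp 1 * (M + 1)) ^ (B + 1)

theorem D_pos (M B : ℕ) : 0 < D M B := by
  unfold D
  positivity

open scoped Classical in
theorem stab_le {B : ℕ} {b : ι → ℤ} (hb : b ∈ box ι B) (w : ι → ℤ) :
    (#{R : Gam ι | act R b = w} : ℝ) ≤
      D (Fintype.card ι) B * Lam b ^ 4 * Fintype.card (Gam ι) := by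
  have h1 : (#{R : Gam ι | act R b = w} : ℝ) ≤
      (∏ v ∈ range (B + 1), ((cnt b v).factorial : ℝ)) * 2 ^ cnt b 0 := by
    have := card_stab hb w
    calc (#{R : Gam ι | act R b = w} : ℝ) ≤
        (((∏ v ∈ range (B + 1), (cnt b v).factorial) * 2 ^ cnt b 0 : ℕ) : ℝ) := by
          exact_mod_cast this
      _ = _ := by push_cast; ring
  refine h1.trans ?_
  have hM := cnt_sum hb
  set M := Fintype.card ι with hMdef
  have hr := ratio_bound B M (cnt b) hM
  rw [Lam_pow_four hb, card_Gam]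
  push_cast
  rw [← hMdef]
  have h0 : cnt b 0 ≤ M := by
    rw [← hM]
    exact Finset.single_le_sum (f := cnt b) (fun _ _ => Nat.zero_le _) (by simp)
  have h2 : ∏ v ∈ range (B + 1), ((cnt b v : ℝ) / M) ^ cnt b v =
      (∏ v ∈ range (B + 1), (cnt b v : ℝ) ^ cnt b v) / (M : ℝ) ^ M := by
    simp only [div_pow]
    rw [Finset.prod_div_distrib, Finset.prod_pow_eq_pow_sum, hM]
  have h3 : (2 : ℝ) ^ M = 2 ^ (M - cnt b 0) * 2 ^ cnt b 0 := by
    rw [← pow_add]
    congr 1
    omega
  have hMM : (0 : ℝ) < (M : ℝ) ^ M := by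
    rcases Nat.eq_zero_or_pos M with h | h
    · rw [h]; simp
    · have : (0 : ℝ) < M := by exact_mod_cast h
      positivity
  rw [h2]
  have e1 : D M B * ((∏ v ∈ range (B + 1), (cnt b v : ℝ) ^ cnt b v) / (M : ℝ) ^ M /
      2 ^ (M - cnt b 0)) * ((M.factorial : ℝ) * 2 ^ M) =
      (D M B * (∏ v ∈ range (B + 1), (cnt b v : ℝ) ^ cnt b v) * (M.factorial : ℝ)) / (M : ℝ) ^ M *
        2 ^ cnt b 0 := by
    rw [h3]
    field_simp
  rw [e1]
  refine mul_le_mul_of_nonneg_right ?_ (by positivity)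
  rw [le_div_iff₀ hMM]
  exact hr

open scoped Classical in
/-- The probability that a random signed permutation of `b` lies in `G`. -/
theorem prob_le {B : ℕ} (G : Finset (ι → ℤ)) (hG : G ⊆ box ι B) {b : ι → ℤ} (hb : b ∈ box ι B) :
    (#{R : Gam ι | act R b ∈ G} : ℝ) ≤
      D (Fintype.card ι) B * (∑ w ∈ G, Lam w) * Lam b ^ 3 * Fintype.card (Gam ι) := by
  have h1 : #{R : Gam ι | act R b ∈ G} =
      ∑ w ∈ G with cnt w = cnt b, #{R : Gam ι | act R b = w} := by
    rw [Finset.card_eq_sum_card_fiberwise (f := fun R : Gam ι => act R b)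
      (t := {w ∈ G | cnt w = cnt b})]
    · refine Finset.sum_congr rfl fun w hw => ?_
      congr 1
      ext R
      simp only [Finset.mem_filter, Finset.mem_univ, true_and]
      constructor
      · exact fun h => h.2
      · intro h
        rw [Finset.mem_filter] at hw
        exact ⟨h ▸ hw.1, h⟩
    · intro R hR
      simp only [Finset.coe_filter, Finset.mem_univ, true_and, Set.mem_setOf_eq] at hR ⊢
      exact ⟨hR, cnt_act R b⟩
  rw [h1]
  push_cast
  have h2 : ∀ w ∈ G.filter (fun w => cnt w = cnt b), (#{R : Gam ι | act R b = w} : ℝ) ≤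
      D (Fintype.card ι) B * Lam b ^ 3 * Fintype.card (Gam ι) * Lam w := by
    intro w hw
    rw [Finset.mem_filter] at hw
    have e : Lam w = Lam b := Lam_eq_of_cnt (hG hw.1) hb hw.2
    rw [e]
    refine (stab_le hb w).trans (le_of_eq ?_)
    ring
  refine (Finset.sum_le_sum h2).trans ?_
  rw [← Finset.mul_sum]
  have h3 : ∑ w ∈ G with cnt w = cnt b, Lam w ≤ ∑ w ∈ G, Lam w :=
    Finset.sum_le_sum_of_subset_of_nonneg (Finset.filter_subset _ _) fun _ _ _ => Lam_nonneg _
  have h4 : 0 ≤ D (Fintype.card ι) B * Lam b ^ 3 * Fintype.card (Gam ι) := by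
    have := D_pos (Fintype.card ι) B
    have := Lam_nonneg b
    positivity
  calc _ ≤ _ := mul_le_mul_of_nonneg_left h3 h4
    _ = _ := by ring

end

end Pool.Agent.W321.GB
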