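import Mathlib
import Pool.Agent.W321.GB.Stab

/-! Doubling of Hadamard matrices. -/

set_option autoImplicit false

namespace Pool.Agent.W321.GB

open Finset

section

variable {ι : Type} [Fintype ι] [DecidableEq ι]

/-- matrix times vector -/
def mv (A : ι → ι → ℤ) (w : ι → ℤ) (j : ι) : ℤ := ∑ i, A j i * w i

/-- the `ℓ¹` norm of the image -/
noncomputable def l1 (A : ι → ι → ℤ) (w : ι → ℤ) : ℝ := ∑ j, |(mv A w j : ℝ)|

/-- the euclidean norm -/
noncomputable def n2 (w : ι → ℤ) : ℝ := √(∑ i, (w i : ℝ) ^ 2)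

/-- Hadamard matrices -/
def IsHad (A : ι → ι → ℤ) : Prop :=
  (∀ j i, A j i = 1 ∨ A j i = -1) ∧
    ∀ w : ι → ℤ, ∑ j, (mv A w j) ^ 2 = Fintype.card ι * ∑ i, (w i) ^ 2

/-- near-extremal vectors -/
def Good (ε : ℝ) (A : ι → ι → ℤ) (w : ι → ℤ) : Prop :=
  (1 - ε) * Fintype.card ι * n2 w ≤ l1 A w

theorem n2_nonneg (w : ι → ℤ) : 0 ≤ n2 w := Real.sqrt_nonneg _

theorem n2_sq (w : ι → ℤ) : n2 w ^ 2 = ∑ i, (w i : ℝ) ^ 2 :=
  Real.sq_sqrt (Finset.sum_nonneg fun _ _ => sq_nonneg _)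

theorem l1_nonneg (A : ι → ι → ℤ) (w : ι → ℤ) : 0 ≤ l1 A w :=
  Finset.sum_nonneg fun _ _ => abs_nonneg _

theorem l1_le {A : ι → ι → ℤ} (hA : IsHad A) (w : ι → ℤ) : l1 A w ≤ Fintype.card ι * n2 w := by
  have h1 : l1 A w ^ 2 ≤ (Fintype.card ι * n2 w) ^ 2 := by
    unfold l1
    have h2 := Finset.sum_mul_sq_le_sq_mul_sq (Finset.univ : Finset ι) (fun _ => (1 : ℝ))
      (fun j => |(mv A w j : ℝ)|)
    simp only [one_mul, one_pow, Finset.sum_const, Finset.card_univ, nsmul_eq_mul, mul_one,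
      sq_abs] at h2
    refine h2.trans (le_of_eq ?_)
    have h3 : ∑ j, (mv A w j : ℝ) ^ 2 = Fintype.card ι * ∑ i, (w i : ℝ) ^ 2 := by
      exact_mod_cast hA.2 w
    rw [h3, mul_pow, n2_sq]
    ring
  exact (pow_le_pow_iff_left₀ (l1_nonneg _ _) (mul_nonneg (by positivity) (n2_nonneg _))
    two_ne_zero).1 h1

/-- the first and the second half -/
def fs (z : ι ⊕ ι → ℤ) : ι → ℤ := fun i => z (Sum.inl i)
/-- the second half -/
def sn (z : ι ⊕ ι → ℤ) : ι → ℤ := fun i => z (Sum.inr i)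

/-- the sum of the two halves -/
def pa (z : ι ⊕ ι → ℤ) : ι → ℤ := fun i => z (Sum.inl i) + z (Sum.inr i)
/-- the difference of the two halves -/
def pb (z : ι ⊕ ι → ℤ) : ι → ℤ := fun i => z (Sum.inl i) - z (Sum.inr i)

/-- the doubled matrix -/
def dbl (A : ι → ι → ℤ) (R : Gam ι) : ι ⊕ ι → ι ⊕ ι → ℤ :=
  Sum.elim (fun j => Sum.elim (fun i => A j i) (fun i => A j i))
    (fun j => Sum.elim (fun i => A j (R.1.symm i) * (R.2 (R.1.symm i) : ℤ))
      (fun i => -(A j (R.1.symm i) * (R.2 (R.1.symm i) : ℤ))))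

theorem mv_inl (A : ι → ι → ℤ) (R : Gam ι) (z : ι ⊕ ι → ℤ) (j : ι) :
    mv (dbl A R) z (Sum.inl j) = mv A (pa z) j := by
  unfold mv dbl pa
  rw [Fintype.sum_sum_type]
  simp only [Sum.elim_inl, Sum.elim_inr]
  rw [← Finset.sum_add_distrib]
  exact Finset.sum_congr rfl fun i _ => by ring

theorem mv_inr (A : ι → ι → ℤ) (R : Gam ι) (z : ι ⊕ ι → ℤ) (j : ι) :
    mv (dbl A R) z (Sum.inr j) = mv A (act R (pb z)) j := by
  unfold mv dbl pb act
  rw [Fintype.sum_sum_type]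
  simp only [Sum.elim_inl, Sum.elim_inr]
  rw [← Finset.sum_add_distrib]
  rw [← Equiv.sum_comp R.1 (fun i => A j (R.1.symm i) * (R.2 (R.1.symm i) : ℤ) * z (Sum.inl i) +
    -(A j (R.1.symm i) * (R.2 (R.1.symm i) : ℤ)) * z (Sum.inr i))]
  refine Finset.sum_congr rfl fun i _ => ?_
  simp only [Equiv.symm_apply_apply]
  ring

theorem sum_act_sq (R : Gam ι) (w : ι → ℤ) : ∑ i, (act R w i) ^ 2 = ∑ i, (w i) ^ 2 := by
  have h1 : ∀ i, (act R w i) ^ 2 = (w (R.1 i)) ^ 2 := by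
    intro i
    rw [← Int.natAbs_sq (act R w i), natAbs_act, Int.natAbs_sq]
  simp only [h1]
  exact Equiv.sum_comp R.1 (fun i => (w i) ^ 2)

theorem isHad_dbl {A : ι → ι → ℤ} (hA : IsHad A) (R : Gam ι) : IsHad (dbl A R) := by
  constructor
  · rintro (j | j) (i | i)
    · exact hA.1 j i
    · exact hA.1 j i
    · simp only [dbl, Sum.elim_inr, Sum.elim_inl]
      rcases hA.1 j (R.1.symm i) with h | h <;>
        rcases Int.units_eq_one_or (R.2 (R.1.symm i)) with h' | h' <;> rw [h, h'] <;> simp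
    · simp only [dbl, Sum.elim_inr]
      rcases hA.1 j (R.1.symm i) with h | h <;>
        rcases Int.units_eq_one_or (R.2 (R.1.symm i)) with h' | h' <;> rw [h, h'] <;> simp
  · intro z
    rw [Fintype.sum_sum_type]
    simp only [mv_inl, mv_inr]
    rw [hA.2, hA.2, sum_act_sq, Fintype.card_sum, Fintype.sum_sum_type]
    unfold pa pb
    push_cast
    have h1 : ∑ i, (z (Sum.inl i) + z (Sum.inr i)) ^ 2 + ∑ i, (z (Sum.inl i) - z (Sum.inr i)) ^ 2 =
        2 * (∑ i, z (Sum.inl i) ^ 2 + ∑ i, z (Sum.inr i) ^ 2) := by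
      rw [← Finset.sum_add_distrib, ← Finset.sum_add_distrib, Finset.mul_sum]
      exact Finset.sum_congr rfl fun i _ => by ring
    rw [← mul_add, h1]
    ring

theorem n2_act (R : Gam ι) (w : ι → ℤ) : n2 (act R w) = n2 w := by
  unfold n2
  congr 1
  exact_mod_cast sum_act_sq R w

theorem n2_pa_pb (z : ι ⊕ ι → ℤ) : n2 (pa z) ^ 2 + n2 (pb z) ^ 2 = 2 * n2 z ^ 2 := by
  rw [n2_sq, n2_sq, n2_sq, Fintype.sum_sum_type]
  unfold pa pb
  rw [← Finset.sum_add_distrib, ← Finset.sum_add_distrib, Finset.mul_sum]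
  push_cast
  exact Finset.sum_congr rfl fun i _ => by ring

theorem l1_dbl (A : ι → ι → ℤ) (R : Gam ι) (z : ι ⊕ ι → ℤ) :
    l1 (dbl A R) z = l1 A (pa z) + l1 A (act R (pb z)) := by
  unfold l1
  rw [Fintype.sum_sum_type]
  simp only [mv_inl, mv_inr]

theorem real_split {M α β N L1 L2 ε : ℝ} (hM : 0 ≤ M) (hα : 0 ≤ α) (hβ : 0 ≤ β) (hN : 0 < N)
    (h : α ^ 2 + β ^ 2 = 2 * N ^ 2) (hε : 0 < ε) (hε1 : ε ≤ 1 / 1000) (hL1 : 0 ≤ L1)
    (h2 : L2 ≤ M * β) (h3 : (1 - ε) * (2 * M) * N ≤ L1 + L2) :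
    (1 - 3 * ε) * M * α ≤ L1 := by
  rcases hM.eq_or_lt with rfl | hM
  · simpa using hL1
  by_contra hcon
  push Not at hcon
  have h4 : (1 - ε) * 2 * N < (1 - 3 * ε) * α + β := by
    have : M * ((1 - ε) * 2 * N) < M * ((1 - 3 * ε) * α + β) := by nlinarith
    exact lt_of_mul_lt_mul_left this hM.le
  have h5 : α + β ≤ 2 * N := by
    have : (α + β) ^ 2 ≤ (2 * N) ^ 2 := by nlinarith [sq_nonneg (α - β)]
    exact (pow_le_pow_iff_left₀ (by positivity) (by positivity) two_ne_zero).1 this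
  have h6 : 3 * α < 2 * N := by
    have : ε * (3 * α) < ε * (2 * N) := by nlinarith
    exact lt_of_mul_lt_mul_left this hε.le
  have h7 : 1998 / 1000 * N < α + β := by nlinarith [mul_nonneg hε.le hα]
  have h8 : 0 ≤ 1998 / 1000 * N - α := by linarith
  have h9 : (1998 / 1000 * N - α) ^ 2 < β ^ 2 := pow_lt_pow_left₀ (by linarith) h8 two_ne_zero
  nlinarith [sq_nonneg (2 * N - 3 * α), mul_pos hN (sub_pos.2 h6), mul_pos hN hN]

theorem good_split {A : ι → ι → ℤ} (hA : IsHad A) (R : Gam ι) {ε : ℝ} (hε : 0 < ε)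
    (hε1 : ε ≤ 1 / 1000) {z : ι ⊕ ι → ℤ} (hz : 0 < n2 z) (h : Good ε (dbl A R) z) :
    Good (3 * ε) A (pa z) ∧ Good (3 * ε) A (act R (pb z)) := by
  unfold Good at *
  rw [l1_dbl, Fintype.card_sum] at h
  push_cast at h
  have h0 := n2_pa_pb z
  have ha := l1_le hA (pa z)
  have hb := l1_le hA (act R (pb z))
  rw [n2_act] at hb ⊢
  have hM : (0 : ℝ) ≤ Fintype.card ι := by positivity
  constructor
  · refine real_split hM (n2_nonneg _) (n2_nonneg _) hz h0 hε hε1 (l1_nonneg _ _) hb ?_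
    linarith
  · refine real_split hM (n2_nonneg _) (n2_nonneg _) hz (by linarith) hε hε1 (l1_nonneg _ _) ha ?_
    linarith

end

end Pool.Agent.W321.GB
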