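import Mathlib
import Pool.Agent.W321.GB.Gap1

/-! Single-letter inequality, part 2: the characteristic function. -/

set_option autoImplicit false

namespace Pool.Agent.W321.GB

open Finset

/-- `exp (i a)` -/
noncomputable def E (a : ℝ) : ℂ := Complex.exp (a * Complex.I)

theorem E_add (a b : ℝ) : E (a + b) = E a * E b := by
  unfold E
  rw [← Complex.exp_add]
  push_cast
  ring_nf

theorem norm_E (a : ℝ) : ‖E a‖ = 1 := Complex.norm_exp_ofReal_mul_I a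

/-- the Fourier transform of a function on the interval -/
noncomputable def ft (B : ℕ) (p : ℤ → ℝ) (s : ℝ) : ℂ := ∑ x ∈ I B, (p x : ℂ) * E (s * x)

theorem norm_ft_le (B : ℕ) (p : ℤ → ℝ) (hp : ∀ x, 0 ≤ p x) (s : ℝ) :
    ‖ft B p s‖ ≤ ∑ x ∈ I B, p x := by
  unfold ft
  refine (norm_sum_le _ _).trans (Finset.sum_le_sum fun x _ => ?_)
  rw [norm_mul, norm_E, mul_one, Complex.norm_real, Real.norm_of_nonneg (hp x)]

theorem ft_zero (B : ℕ) (p : ℤ → ℝ) : ft B p 0 = ((∑ x ∈ I B, p x : ℝ) : ℂ) := by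
  unfold ft E
  push_cast
  refine Finset.sum_congr rfl fun x _ => ?_
  simp

theorem ft_real (B : ℕ) (p : ℤ → ℝ) (hs : ∀ x, p (-x) = p x) (s : ℝ) :
    ft B p s = ((∑ x ∈ I B, p x * Real.cos (s * x) : ℝ) : ℂ) := by
  have h1 : ft B p s = ∑ x ∈ I B, (p x : ℂ) * E (s * (-x : ℤ)) := by
    unfold ft
    refine Finset.sum_nbij' (fun y => -y) (fun y => -y) ?_ ?_ ?_ ?_ ?_
    · intro y hy; exact neg_mem_I hy
    · intro y hy; exact neg_mem_I hy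
    · intro y _; ring
    · intro y _; ring
    · intro y _
      rw [hs, neg_neg]
  have h2 : ft B p s = (ft B p s + ft B p s) / 2 := by ring
  rw [h2]
  nth_rw 2 [h1]
  unfold ft
  rw [← Finset.sum_add_distrib, Finset.sum_div]
  push_cast
  refine Finset.sum_congr rfl fun x _ => ?_
  unfold E
  rw [Complex.cos]
  push_cast
  have e1 : (s : ℂ) * -(x : ℂ) * Complex.I = -((s : ℂ) * (x : ℂ)) * Complex.I := by ring
  rw [e1]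
  ring

section

variable (B : ℕ) (f g h : ℤ → ℝ)

theorem sum_v (hg1 : ∑ x ∈ I (2 * B), g x ^ 2 ≤ 1)
    (hh1 : ∑ x ∈ I (2 * B), h x ^ 2 ≤ 1) :
    ∑ q ∈ I (2 * B) ×ˢ I (2 * B), (g q.1 ^ 2 * h q.2 ^ 2) ≤ 1 := by
  rw [Finset.sum_product]
  simp only [← Finset.mul_sum, ← Finset.sum_mul]
  have := sum_sq_nonneg' (I (2 * B)) g
  have := sum_sq_nonneg' (I (2 * B)) h
  nlinarith

theorem sum_u (hf1 : ∑ x ∈ I B, f x ^ 2 = 1) :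
    ∑ q ∈ I B ×ˢ I B, (f q.1 * f q.2) ^ 2 = 1 := by
  rw [Finset.sum_product]
  simp only [mul_pow, ← Finset.mul_sum, ← Finset.sum_mul]
  rw [hf1]
  ring

theorem S_eq : S B f g h = ∑ q ∈ I B ×ˢ I B, (f q.1 * f q.2) * (g (q.1 + q.2) * h (q.1 - q.2)) := by
  unfold S
  rw [Finset.sum_product]

theorem sum_v_ge (hf1 : ∑ x ∈ I B, f x ^ 2 = 1) (hS : 1 - 1 / 10 ^ 8 < S B f g h) :
    1 - 2 / 10 ^ 8 ≤ ∑ q ∈ I B ×ˢ I B, (g (q.1 + q.2) * h (q.1 - q.2)) ^ 2 := by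
  have h1 : S B f g h ^ 2 ≤ (∑ q ∈ I B ×ˢ I B, (f q.1 * f q.2) ^ 2) *
      ∑ q ∈ I B ×ˢ I B, (g (q.1 + q.2) * h (q.1 - q.2)) ^ 2 := by
    rw [S_eq]
    exact Finset.sum_mul_sq_le_sq_mul_sq _ _ _
  rw [sum_u B f hf1, one_mul] at h1
  refine le_trans ?_ h1
  have : (0 : ℝ) < 1 - 1 / 10 ^ 8 := by norm_num
  nlinarith

theorem sum_v_le (hg1 : ∑ x ∈ I (2 * B), g x ^ 2 ≤ 1)
    (hh1 : ∑ x ∈ I (2 * B), h x ^ 2 ≤ 1) :
    ∑ q ∈ I B ×ˢ I B, (g (q.1 + q.2) * h (q.1 - q.2)) ^ 2 ≤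
      ∑ q ∈ I (2 * B) ×ˢ I (2 * B), (g q.1 ^ 2 * h q.2 ^ 2) := by
  have c1 := change (I B ×ˢ I B) (fun P Q => (g P ^ 2 * h Q ^ 2)) (fun _ _ => by positivity)
    (I (2 * B) ×ˢ I (2 * B)) (by
      rintro ⟨x, y⟩ hq
      rw [Finset.mem_product] at hq ⊢
      exact pm_mem hq.1 hq.2)
  simp only [mul_pow]
  exact c1

theorem l1_bound (hf1 : ∑ x ∈ I B, f x ^ 2 = 1) (hg1 : ∑ x ∈ I (2 * B), g x ^ 2 ≤ 1)
    (hh1 : ∑ x ∈ I (2 * B), h x ^ 2 ≤ 1) (hS : 1 - 1 / 10 ^ 8 < S B f g h) :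
    ∑ q ∈ I B ×ˢ I B, |(f q.1 * f q.2) ^ 2 - (g (q.1 + q.2) * h (q.1 - q.2)) ^ 2| ≤
      3 / 10 ^ 4 := by
  have h1 : ∀ q ∈ I B ×ˢ I B, |(f q.1 * f q.2) ^ 2 - (g (q.1 + q.2) * h (q.1 - q.2)) ^ 2| ≤
      (10 ^ 4 / 2 + 1 / (2 * 10 ^ 4)) * ((f q.1 * f q.2) ^ 2 + (g (q.1 + q.2) * h (q.1 - q.2)) ^ 2)
        + (- 10 ^ 4 + 1 / 10 ^ 4) * ((f q.1 * f q.2) * (g (q.1 + q.2) * h (q.1 - q.2))) := by
    intro q _
    set u := f q.1 * f q.2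
    set v := g (q.1 + q.2) * h (q.1 - q.2)
    rw [abs_le]
    constructor
    · nlinarith [sq_nonneg (10 ^ 4 * (u - v) + (u + v))]
    · nlinarith [sq_nonneg (10 ^ 4 * (u - v) - (u + v))]
  refine (Finset.sum_le_sum h1).trans ?_
  rw [Finset.sum_add_distrib, ← Finset.mul_sum, ← Finset.mul_sum, Finset.sum_add_distrib,
    sum_u B f hf1, ← S_eq]
  have h2 := (sum_v_le B g h hg1 hh1).trans (sum_v B g h hg1 hh1)
  nlinarith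

theorem key (hf1 : ∑ x ∈ I B, f x ^ 2 = 1) (hg1 : ∑ x ∈ I (2 * B), g x ^ 2 ≤ 1)
    (hh1 : ∑ x ∈ I (2 * B), h x ^ 2 ≤ 1) (hS : 1 - 1 / 10 ^ 8 < S B f g h) (s t : ℝ) :
    ‖ft B (fun x => f x ^ 2) (s + t) * ft B (fun x => f x ^ 2) (s - t) -
      ft (2 * B) (fun x => g x ^ 2) s * ft (2 * B) (fun x => h x ^ 2) t‖ ≤
      3 / 10 ^ 4 + 2 / 10 ^ 8 := by
  let χ : ℤ → ℤ → ℂ := fun P Q => E (s * P) * E (t * Q)
  have hχ : ∀ P Q, ‖χ P Q‖ = 1 := fun P Q => by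
    simp only [χ]
    rw [norm_mul, norm_E, norm_E, one_mul]
  have e1 : ft B (fun x => f x ^ 2) (s + t) * ft B (fun x => f x ^ 2) (s - t) =
      ∑ q ∈ I B ×ˢ I B, (((f q.1 * f q.2) ^ 2 : ℝ) : ℂ) * χ (q.1 + q.2) (q.1 - q.2) := by
    unfold ft
    rw [Finset.sum_mul_sum, ← Finset.sum_product']
    refine Finset.sum_congr rfl fun q _ => ?_
    simp only [χ]
    have : E ((s + t) * (q.1 : ℤ)) * E ((s - t) * (q.2 : ℤ)) =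
        E (s * ((q.1 + q.2 : ℤ) : ℝ)) * E (t * ((q.1 - q.2 : ℤ) : ℝ)) := by
      rw [← E_add, ← E_add]
      congr 1
      push_cast
      ring
    rw [← this]
    push_cast
    ring
  have e2 : ft (2 * B) (fun x => g x ^ 2) s * ft (2 * B) (fun x => h x ^ 2) t =
      ∑ q ∈ I (2 * B) ×ˢ I (2 * B), ((g q.1 ^ 2 * h q.2 ^ 2 : ℝ) : ℂ) * χ q.1 q.2 := by
    unfold ft
    rw [Finset.sum_mul_sum, ← Finset.sum_product']
    refine Finset.sum_congr rfl fun q _ => ?_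
    simp only [χ]
    push_cast
    ring
  set T : Finset (ℤ × ℤ) := (I B ×ˢ I B).image (fun q : ℤ × ℤ => (q.1 + q.2, q.1 - q.2)) with hT
  have hinj : Set.InjOn (fun q : ℤ × ℤ => (q.1 + q.2, q.1 - q.2)) ↑(I B ×ˢ I B) := by
    rintro ⟨a, b⟩ - ⟨c, d⟩ - h
    simp only [Prod.mk.injEq] at h ⊢
    omega
  have hTsub : T ⊆ I (2 * B) ×ˢ I (2 * B) := by
    intro q hq
    rw [hT, Finset.mem_image] at hq
    obtain ⟨r, hr, rfl⟩ := hq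
    rw [Finset.mem_product] at hr ⊢
    exact pm_mem hr.1 hr.2
  have e3 : ∑ q ∈ I B ×ˢ I B, (((g (q.1 + q.2) * h (q.1 - q.2)) ^ 2 : ℝ) : ℂ) *
      χ (q.1 + q.2) (q.1 - q.2) = ∑ q ∈ T, ((g q.1 ^ 2 * h q.2 ^ 2 : ℝ) : ℂ) * χ q.1 q.2 := by
    rw [hT, Finset.sum_image hinj]
    refine Finset.sum_congr rfl fun q _ => ?_
    simp only [mul_pow]
  have e3' : ∑ q ∈ I B ×ˢ I B, ((g (q.1 + q.2) * h (q.1 - q.2)) ^ 2 : ℝ) =
      ∑ q ∈ T, (g q.1 ^ 2 * h q.2 ^ 2 : ℝ) := by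
    rw [hT, Finset.sum_image hinj]
    refine Finset.sum_congr rfl fun q _ => ?_
    simp only [mul_pow]
  have b1 : ‖∑ q ∈ I B ×ˢ I B, (((f q.1 * f q.2) ^ 2 : ℝ) : ℂ) * χ (q.1 + q.2) (q.1 - q.2) -
      ∑ q ∈ T, ((g q.1 ^ 2 * h q.2 ^ 2 : ℝ) : ℂ) * χ q.1 q.2‖ ≤ 3 / 10 ^ 4 := by
    rw [← e3, ← Finset.sum_sub_distrib]
    refine (norm_sum_le _ _).trans (le_trans (Finset.sum_le_sum fun q _ => ?_)
      (l1_bound B f g h hf1 hg1 hh1 hS))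
    rw [← sub_mul, norm_mul, hχ, mul_one, ← Complex.ofReal_sub, Complex.norm_real,
      Real.norm_eq_abs]
  have b2 : ‖∑ q ∈ T, ((g q.1 ^ 2 * h q.2 ^ 2 : ℝ) : ℂ) * χ q.1 q.2 -
      ∑ q ∈ I (2 * B) ×ˢ I (2 * B), ((g q.1 ^ 2 * h q.2 ^ 2 : ℝ) : ℂ) * χ q.1 q.2‖ ≤
        2 / 10 ^ 8 := by
    rw [← Finset.sum_sdiff hTsub]
    have : ∀ a b : ℂ, a - (b + a) = -b := fun a b => by ring
    rw [this, norm_neg]
    refine (norm_sum_le _ _).trans ?_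
    have c1 : ∀ q ∈ (I (2 * B) ×ˢ I (2 * B)) \ T,
        ‖((g q.1 ^ 2 * h q.2 ^ 2 : ℝ) : ℂ) * χ q.1 q.2‖ = g q.1 ^ 2 * h q.2 ^ 2 := by
      intro q _
      rw [norm_mul, hχ, mul_one, Complex.norm_real, Real.norm_of_nonneg (by positivity)]
    rw [Finset.sum_congr rfl c1]
    have c2 := Finset.sum_sdiff (f := fun q : ℤ × ℤ => g q.1 ^ 2 * h q.2 ^ 2) hTsub
    have c3 := sum_v B g h hg1 hh1
    have c4 := sum_v_ge B f g h hf1 hS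
    rw [e3'] at c4
    linarith
  rw [e1, e2]
  calc _ ≤ _ := norm_sub_le_norm_sub_add_norm_sub _
        (∑ q ∈ T, ((g q.1 ^ 2 * h q.2 ^ 2 : ℝ) : ℂ) * χ q.1 q.2) _
    _ ≤ _ := add_le_add b1 b2

/-- the real characteristic function -/
noncomputable def ph (B : ℕ) (f : ℤ → ℝ) (s : ℝ) : ℝ := ∑ x ∈ I B, f x ^ 2 * Real.cos (s * x)

theorem double_ph (hfs : ∀ x, f (-x) = f x) (hf1 : ∑ x ∈ I B, f x ^ 2 = 1)
    (hg1 : ∑ x ∈ I (2 * B), g x ^ 2 ≤ 1)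
    (hh1 : ∑ x ∈ I (2 * B), h x ^ 2 ≤ 1) (hS : 1 - 1 / 10 ^ 8 < S B f g h) (s : ℝ) :
    |ph B f (2 * s) - ph B f s ^ 4| ≤ 1 / 1000 := by
  have hps : ∀ x, (fun x => f x ^ 2) (-x) = (fun x => f x ^ 2) x := fun x => by
    simp only [hfs]
  have hph : ∀ s, ft B (fun x => f x ^ 2) s = ((ph B f s : ℝ) : ℂ) := fun s => by
    rw [ft_real B _ hps]
    rfl
  have k1 := key B f g h hf1 hg1 hh1 hS s s
  have k2 := key B f g h hf1 hg1 hh1 hS s 0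
  have k3 := key B f g h hf1 hg1 hh1 hS 0 s
  rw [sub_self, ft_zero, hf1] at k1
  rw [add_zero, sub_zero] at k2
  have hneg : ft B (fun x => f x ^ 2) (0 - s) = ft B (fun x => f x ^ 2) s := by
    rw [hph, hph]
    congr 1
    unfold ph
    refine Finset.sum_congr rfl fun x _ => ?_
    have : (0 - s) * (x : ℝ) = -(s * x) := by ring
    rw [this, Real.cos_neg]
  rw [zero_add, hneg] at k3
  set Φ : ℂ := ft B (fun x => f x ^ 2) s with hΦ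
  set Γ : ℂ := ft (2 * B) (fun x => g x ^ 2) s
  set K : ℂ := ft (2 * B) (fun x => h x ^ 2) s
  set G0 : ℂ := ft (2 * B) (fun x => g x ^ 2) 0
  set K0 : ℂ := ft (2 * B) (fun x => h x ^ 2) 0
  have nΓ : ‖Γ‖ ≤ 1 := (norm_ft_le _ _ (fun _ => sq_nonneg _) _).trans hg1
  have nK : ‖K‖ ≤ 1 := (norm_ft_le _ _ (fun _ => sq_nonneg _) _).trans hh1
  have nG0 : ‖G0‖ ≤ 1 := (norm_ft_le _ _ (fun _ => sq_nonneg _) _).trans hg1
  have nK0 : ‖K0‖ ≤ 1 := (norm_ft_le _ _ (fun _ => sq_nonneg _) _).trans hh1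
  have nΦ : ‖Φ‖ ≤ 1 := (norm_ft_le _ _ (fun _ => sq_nonneg _) _).trans hf1.le
  have n0 : ‖1 - G0 * K0‖ ≤ 2 / 10 ^ 8 := by
    have c3 := sum_v B g h hg1 hh1
    have c4 := (sum_v_ge B f g h hf1 hS).trans (sum_v_le B g h hg1 hh1)
    have c5 : G0 * K0 = ((∑ q ∈ I (2 * B) ×ˢ I (2 * B), (g q.1 ^ 2 * h q.2 ^ 2) : ℝ) : ℂ) := by
      simp only [G0, K0]
      rw [ft_zero, ft_zero, ← Complex.ofReal_mul, Finset.sum_mul_sum, ← Finset.sum_product']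
    rw [c5, ← Complex.ofReal_one, ← Complex.ofReal_sub, Complex.norm_real, Real.norm_eq_abs,
      abs_le]
    constructor <;> linarith
  have hΦr : Φ = ((ph B f s : ℝ) : ℂ) := hph s
  have h2s : ft B (fun x => f x ^ 2) (s + s) = ((ph B f (2 * s) : ℝ) : ℂ) := by
    rw [hph]
    congr 2
    ring
  rw [h2s] at k1
  have e1 : (((ph B f (2 * s) - ph B f s ^ 4 : ℝ)) : ℂ) =
      (((ph B f (2 * s) : ℝ) : ℂ) * ((1 : ℝ) : ℂ) - Γ * K) + Γ * K * (1 - G0 * K0) -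
        ((Φ * Φ - Γ * K0) * (G0 * K) + Φ * Φ * (Φ * Φ - G0 * K)) := by
    push_cast
    rw [← hΦr]
    ring
  rw [← Real.norm_eq_abs, ← Complex.norm_real, e1]
  have m1 : ‖Γ * K * (1 - G0 * K0)‖ ≤ 2 / 10 ^ 8 := by
    rw [norm_mul, norm_mul]
    have : ‖Γ‖ * ‖K‖ ≤ 1 := mul_le_one₀ nΓ (norm_nonneg _) nK
    calc _ ≤ 1 * ‖1 - G0 * K0‖ := mul_le_mul_of_nonneg_right this (norm_nonneg _)
      _ ≤ _ := by rw [one_mul]; exact n0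
  have m2 : ‖(Φ * Φ - Γ * K0) * (G0 * K)‖ ≤ 3 / 10 ^ 4 + 2 / 10 ^ 8 := by
    rw [norm_mul, norm_mul]
    have : ‖G0‖ * ‖K‖ ≤ 1 := mul_le_one₀ nG0 (norm_nonneg _) nK
    calc _ ≤ ‖Φ * Φ - Γ * K0‖ * 1 := mul_le_mul_of_nonneg_left this (norm_nonneg _)
      _ ≤ _ := by rw [mul_one]; exact k2
  have m3 : ‖Φ * Φ * (Φ * Φ - G0 * K)‖ ≤ 3 / 10 ^ 4 + 2 / 10 ^ 8 := by
    rw [norm_mul, norm_mul]
    have : ‖Φ‖ * ‖Φ‖ ≤ 1 := mul_le_one₀ nΦ (norm_nonneg _) nΦ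
    calc _ ≤ 1 * ‖Φ * Φ - G0 * K‖ := mul_le_mul_of_nonneg_right this (norm_nonneg _)
      _ ≤ _ := by rw [one_mul]; exact k3
  have tri : ∀ a b c d : ℂ, ‖a + b - (c + d)‖ ≤ ‖a‖ + ‖b‖ + (‖c‖ + ‖d‖) := fun a b c d =>
    (norm_sub_le _ _).trans (add_le_add (norm_add_le _ _) (norm_add_le _ _))
  refine (tri _ _ _ _).trans ?_
  have : (3 / 10 ^ 4 + 2 / 10 ^ 8 : ℝ) + 2 / 10 ^ 8 +
      ((3 / 10 ^ 4 + 2 / 10 ^ 8) + (3 / 10 ^ 4 + 2 / 10 ^ 8)) ≤ 1 / 1000 := by norm_num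
  linarith

end

end Pool.Agent.W321.GB
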