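import Mathlib
import Pool.Agent.W321.GB.Gap2

/-! Single-letter inequality, part 3: conclusion. -/

set_option autoImplicit false

namespace Pool.Agent.W321.GB

open Finset

/-- A real function with `|φ (2 s) - φ s ^ 4| ≤ 1/1000`, `1 - φ (s+t) ≤ 2 (1 - φ s) + 2 (1 - φ t)`,
`φ 0 = 1` and `φ (2π k) = 1` is larger than `1 - 1/64` at all points `π r / 2^J`. -/
theorem dyadic (φ : ℝ → ℝ) (h2 : ∀ s, |φ (2 * s) - φ s ^ 4| ≤ 1 / 1000)
    (hadd : ∀ s t, 1 - φ (s + t) ≤ 2 * (1 - φ s) + 2 * (1 - φ t))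
    (hper : ∀ k : ℕ, φ (2 * Real.pi * k) = 1) (J r : ℕ) :
    1 - 1 / 64 < φ (Real.pi * r / 2 ^ J) := by
  have hlow : ∀ s, -(1 / 1000) ≤ φ s := by
    intro s
    have h := h2 (s / 2)
    rw [show 2 * (s / 2) = s by ring, abs_le] at h
    have : 0 ≤ φ (s / 2) ^ 4 := by positivity
    linarith [h.1]
  have step : ∀ s κ, 0 ≤ κ → κ ≤ 1 / 4 → 1 - κ ≤ φ s ^ 4 → 1 - 3 / 10 * κ ≤ φ s := by
    intro s κ hκ0 hκ1 h
    by_contra hcon
    push Not at hcon
    have h3 := hlow s
    have h4 : |φ s| ≤ 1 - 3 / 10 * κ := by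
      rw [abs_le]
      constructor <;> linarith
    have h5 : φ s ^ 2 ≤ (1 - 3 / 10 * κ) ^ 2 := by
      rw [← sq_abs]
      exact pow_le_pow_left₀ (abs_nonneg _) h4 2
    have h6 : |φ s| < 1 - 3 / 10 * κ := by
      rw [abs_lt]
      constructor <;> linarith
    have h7 : φ s ^ 2 < (1 - 3 / 10 * κ) ^ 2 := by
      rw [← sq_abs]
      exact pow_lt_pow_left₀ h6 (abs_nonneg _) two_ne_zero
    have h8 : φ s ^ 4 < (1 - 3 / 10 * κ) ^ 4 := by
      have e1 : φ s ^ 4 = (φ s ^ 2) ^ 2 := by ring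
      have e2 : (1 - 3 / 10 * κ) ^ 4 = ((1 - 3 / 10 * κ) ^ 2) ^ 2 := by ring
      rw [e1, e2]
      exact pow_lt_pow_left₀ h7 (sq_nonneg _) two_ne_zero
    have h9 : (1 - 3 / 10 * κ) ^ 4 ≤ 1 - κ := by
      nlinarith [mul_nonneg hκ0 hκ0, mul_nonneg (mul_nonneg hκ0 hκ0) hκ0,
        mul_nonneg hκ0 (sub_nonneg.2 hκ1), mul_nonneg (mul_nonneg hκ0 hκ0) (sub_nonneg.2 hκ1),
        mul_nonneg (mul_nonneg (mul_nonneg hκ0 hκ0) hκ0) (sub_nonneg.2 hκ1)]
    linarith
  -- powers of two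
  have hpow : ∀ J i : ℕ, 1 - 2 / 1000 ≤ φ (Real.pi * 2 ^ i / 2 ^ J) := by
    intro J
    induction J with
    | zero =>
      intro i
      rcases Nat.eq_zero_or_pos i with rfl | hi
      · have h := h2 Real.pi
        have h1 := hper 1
        rw [Nat.cast_one, mul_one] at h1
        rw [h1, abs_le] at h
        have := step Real.pi (1 / 1000) (by norm_num) (by norm_num) (by linarith [h.2])
        simp only [pow_zero, mul_one, div_one]
        linarith
      · obtain ⟨k, rfl⟩ := Nat.exists_eq_add_of_lt hi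
        have h1 := hper (2 ^ k)
        have e1 : Real.pi * 2 ^ (0 + k + 1) / 2 ^ 0 = 2 * Real.pi * ((2 ^ k : ℕ) : ℝ) := by
          push_cast
          ring
        rw [e1, h1]
        norm_num
    | succ J ih =>
      intro i
      have h1 := ih i
      have h := h2 (Real.pi * 2 ^ i / 2 ^ (J + 1))
      have e1 : 2 * (Real.pi * 2 ^ i / 2 ^ (J + 1)) = Real.pi * 2 ^ i / 2 ^ J := by
        field_simp
        ring
      rw [e1, abs_le] at h
      have := step _ (3 / 1000) (by norm_num) (by norm_num)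
        (show 1 - 3 / 1000 ≤ φ (Real.pi * 2 ^ i / 2 ^ (J + 1)) ^ 4 by linarith [h.2])
      linarith
  induction r using Nat.strong_induction_on with
  | _ r ih =>
    rcases Nat.eq_zero_or_pos r with rfl | hr
    · have := hper 0
      simp only [Nat.cast_zero, mul_zero] at this
      simp only [Nat.cast_zero, mul_zero, zero_div]
      rw [this]
      norm_num
    · set d := 2 ^ Nat.log 2 r with hd
      have hd1 : d ≤ r := Nat.pow_log_le_self 2 hr.ne'
      have hd2 : r < 2 * d := by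
        have := Nat.lt_pow_succ_log_self (b := 2) (by norm_num) r
        rw [pow_succ] at this
        omega
      have h1 := ih (2 * (r - d)) (by omega)
      have h := h2 (Real.pi * ((r - d : ℕ) : ℝ) / 2 ^ J)
      have e1 : 2 * (Real.pi * ((r - d : ℕ) : ℝ) / 2 ^ J) =
          Real.pi * ((2 * (r - d) : ℕ) : ℝ) / 2 ^ J := by
        push_cast
        ring
      rw [e1, abs_le] at h
      have h3 := step _ (1 / 64 + 1 / 1000) (by norm_num) (by norm_num)
        (show 1 - (1 / 64 + 1 / 1000) ≤ φ (Real.pi * ((r - d : ℕ) : ℝ) / 2 ^ J) ^ 4 by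
          linarith [h.2])
      have h4 := hpow J (Nat.log 2 r)
      have h5 := hadd (Real.pi * ((r - d : ℕ) : ℝ) / 2 ^ J) (Real.pi * 2 ^ Nat.log 2 r / 2 ^ J)
      have e2 : Real.pi * ((r - d : ℕ) : ℝ) / 2 ^ J + Real.pi * 2 ^ Nat.log 2 r / 2 ^ J =
          Real.pi * r / 2 ^ J := by
        rw [Nat.cast_sub hd1, hd]
        push_cast
        ring
      rw [e2] at h5
      have : (1 : ℝ) - 1 / 64 < 1 - (2 * (3 / 10 * (1 / 64 + 1 / 1000)) + 2 * (2 / 1000)) := by
        norm_num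
      linarith

theorem ph_add (B : ℕ) (f : ℤ → ℝ) (hf1 : ∑ x ∈ I B, f x ^ 2 = 1) (s t : ℝ) :
    1 - ph B f (s + t) ≤ 2 * (1 - ph B f s) + 2 * (1 - ph B f t) := by
  have e : ∀ s, 1 - ph B f s = ∑ x ∈ I B, f x ^ 2 * (1 - Real.cos (s * x)) := by
    intro s
    unfold ph
    simp only [mul_sub, mul_one, Finset.sum_sub_distrib]
    rw [hf1]
  rw [e, e, e, Finset.mul_sum, Finset.mul_sum, ← Finset.sum_add_distrib]
  refine Finset.sum_le_sum fun x _ => ?_
  have key : ∀ a b : ℝ, 1 - Real.cos (a + b) ≤ 2 * (1 - Real.cos a) + 2 * (1 - Real.cos b) := by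
    intro a b
    rw [Real.cos_add]
    have ha := Real.sin_sq_add_cos_sq a
    have hb := Real.sin_sq_add_cos_sq b
    have h1 := Real.cos_le_one a
    have h2 := Real.cos_le_one b
    nlinarith [sq_nonneg (Real.sin a - Real.sin b), sq_nonneg (Real.cos a + Real.cos b - 2),
      sq_nonneg (Real.cos a - 1), sq_nonneg (Real.cos b - 1),
      mul_nonneg (sub_nonneg.2 h1) (sub_nonneg.2 h2)]
  have := key (s * x) (t * x)
  have e1 : (s + t) * (x : ℝ) = s * x + t * x := by ring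
  rw [e1]
  nlinarith [sq_nonneg (f x)]

theorem ph_per (B : ℕ) (f : ℤ → ℝ) (hf1 : ∑ x ∈ I B, f x ^ 2 = 1) (k : ℕ) :
    ph B f (2 * Real.pi * k) = 1 := by
  unfold ph
  rw [← hf1]
  refine Finset.sum_congr rfl fun x _ => ?_
  have : Real.cos (2 * Real.pi * k * x) = 1 := by
    have := Real.cos_int_mul_two_pi ((k : ℤ) * x)
    rw [← this]
    congr 1
    push_cast
    ring
  rw [this, mul_one]

theorem sum_cos (N : ℕ) (x : ℤ) (hx0 : x ≠ 0) (hx : |x| < N) :
    ∑ r ∈ Finset.range N, Real.cos (2 * Real.pi / N * r * x) = 0 := by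
  have hN : (N : ℝ) ≠ 0 := by
    have : (0 : ℤ) < N := lt_of_le_of_lt (abs_nonneg _) hx
    have : (0 : ℝ) < N := by exact_mod_cast this
    exact this.ne'
  set ζ : ℂ := E (2 * Real.pi / N * x) with hζ
  have h1 : ∀ r : ℕ, ζ ^ r = E (2 * Real.pi / N * r * x) := by
    intro r
    rw [hζ]
    unfold E
    rw [← Complex.exp_nat_mul]
    congr 1
    push_cast
    ring
  have hne : ζ ≠ 1 := by
    rw [hζ]
    unfold E
    intro h
    rw [Complex.exp_eq_one_iff] at h
    obtain ⟨n, hn⟩ := h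
    have hpi : (Real.pi : ℂ) ≠ 0 := by exact_mod_cast Real.pi_ne_zero
    have hNC : (N : ℂ) ≠ 0 := by exact_mod_cast hN
    have h2 : (x : ℂ) = n * N := by
      push_cast at hn
      field_simp at hn
      have : (x : ℂ) * (Complex.I * Real.pi * 2) = (n * N) * (Complex.I * Real.pi * 2) := by
        linear_combination (Complex.I * Real.pi * 2) * hn
      exact mul_right_cancel₀ (by simp [Real.pi_ne_zero]) this
    have h3 : x = n * N := by exact_mod_cast h2
    rcases eq_or_ne n 0 with rfl | hn0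
    · exact hx0 (by simpa using h3)
    · rw [h3, abs_mul] at hx
      have : 1 ≤ |n| := Int.one_le_abs hn0
      have h4 : |(N : ℤ)| = N := abs_of_nonneg (by positivity)
      rw [h4] at hx
      have : (0 : ℤ) < N := by
        have : (0 : ℝ) < N := lt_of_le_of_ne (by positivity) (Ne.symm hN)
        exact_mod_cast this
      nlinarith
  have hN1 : ζ ^ N = 1 := by
    rw [h1]
    unfold E
    rw [Complex.exp_eq_one_iff]
    refine ⟨x, ?_⟩
    have hNC : (N : ℂ) ≠ 0 := by exact_mod_cast hN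
    push_cast
    field_simp
  have h2 : ∑ r ∈ Finset.range N, ζ ^ r = 0 := by
    rw [geom_sum_eq hne, hN1, sub_self, zero_div]
  have h3 : (∑ r ∈ Finset.range N, ζ ^ r).re = ∑ r ∈ Finset.range N,
      Real.cos (2 * Real.pi / N * r * x) := by
    rw [Complex.re_sum]
    refine Finset.sum_congr rfl fun r _ => ?_
    rw [h1]
    unfold E
    rw [Complex.exp_ofReal_mul_I_re]
  rw [← h3, h2, Complex.zero_re]

theorem large_case (B : ℕ) (f g h : ℤ → ℝ) (hfs : ∀ x, f (-x) = f x)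
    (hf1 : ∑ x ∈ I B, f x ^ 2 = 1) (hg1 : ∑ x ∈ I (2 * B), g x ^ 2 ≤ 1)
    (hh1 : ∑ x ∈ I (2 * B), h x ^ 2 ≤ 1) (hS : 1 - 1 / 10 ^ 8 < S B f g h) :
    1 - f 0 ^ 2 < 1 / 64 := by
  have hd := dyadic (ph B f) (double_ph B f g h hfs hf1 hg1 hh1 hS) (ph_add B f hf1)
    (ph_per B f hf1) B
  set N : ℕ := 2 ^ (B + 1) with hN
  have hBN : B < N := by
    have : B < 2 ^ B := Nat.lt_two_pow_self
    rw [hN, pow_succ]
    omega
  have hNpos : (0 : ℝ) < N := by
    rw [hN]
    positivity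
  have e1 : ∀ r : ℕ, Real.pi * r / 2 ^ B = 2 * Real.pi / N * r := by
    intro r
    rw [hN]
    push_cast
    field_simp
    ring
  have h1 : ∑ r ∈ Finset.range N, ph B f (2 * Real.pi / N * r) = N * f 0 ^ 2 := by
    unfold ph
    rw [Finset.sum_comm]
    rw [split0]
    have h2 : ∑ x ∈ (I B).erase 0, ∑ r ∈ Finset.range N,
        f x ^ 2 * Real.cos (2 * Real.pi / N * r * x) = 0 := by
      refine Finset.sum_eq_zero fun x hx => ?_
      rw [← Finset.mul_sum]
      rw [Finset.mem_erase, mem_I] at hx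
      rw [sum_cos N x hx.1 ?_, mul_zero]
      have : |x| ≤ B := abs_le.2 hx.2
      have : (B : ℤ) < N := by exact_mod_cast hBN
      omega
    rw [h2, add_zero]
    simp
  have h2 : ∑ r ∈ Finset.range N, (1 - 1 / 64 : ℝ) < ∑ r ∈ Finset.range N,
      ph B f (2 * Real.pi / N * r) := by
    refine Finset.sum_lt_sum_of_nonempty ?_ fun r _ => ?_
    · rw [Finset.nonempty_range_iff]
      omega
    · rw [← e1]
      exact hd r
  rw [h1, Finset.sum_const, Finset.card_range, nsmul_eq_mul] at h2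
  have h3 := lt_of_mul_lt_mul_left h2 hNpos.le
  linarith

/-- the single-letter inequality -/
theorem gap (B : ℕ) (f g h : ℤ → ℝ) (hf : ∀ x, 0 ≤ f x) (hg : ∀ x, 0 ≤ g x)
    (hh : ∀ x, 0 ≤ h x) (hfs : ∀ x, f (-x) = f x)
    (hf1 : ∑ x ∈ I B, f x ^ 2 = 1) (hg1 : ∑ x ∈ I (2 * B), g x ^ 2 ≤ 1)
    (hh1 : ∑ x ∈ I (2 * B), h x ^ 2 ≤ 1) :
    S B f g h ≤ 1 - 1 / 10 ^ 8 * (1 - f 0 ^ 2) := by
  have hw0 : 0 ≤ f 0 ^ 2 := sq_nonneg _
  rcases le_or_gt (1 - f 0 ^ 2) (1 / 64) with hw | hw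
  · have hw1 : f 0 ^ 2 ≤ 1 := by
      rw [← hf1]
      exact Finset.single_le_sum (f := fun x => f x ^ 2) (fun _ _ => sq_nonneg _) (zero_mem_I B)
    have := small_case B f g h hf hg hh hf1 hg1 hh1 hw
    have h2 : 1 / 10 ^ 8 * (1 - f 0 ^ 2) ≤ (1 - f 0 ^ 2) / 2 := by
      rw [div_mul_eq_mul_div, one_mul]
      exact div_le_div_of_nonneg_left (by linarith) (by norm_num) (by norm_num)
    linarith
  · by_contra hcon
    push Not at hcon
    have h1 : 1 - 1 / 10 ^ 8 < S B f g h := by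
      have : 1 / 10 ^ 8 * (1 - f 0 ^ 2) ≤ 1 / 10 ^ 8 := by
        have : (0 : ℝ) < 1 / 10 ^ 8 := by norm_num
        nlinarith
      linarith
    have := large_case B f g h hfs hf1 hg1 hh1 h1
    linarith

end Pool.Agent.W321.GB
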