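import Mathlib
import Pool.Agent.W321.GB.Gap3

/-! The single-letter inequality with exponents `1/4` and `3/4`. -/

set_option autoImplicit false

namespace Pool.Agent.W321.GB

open Finset

/-- the quarter version of the bilinear sum -/
noncomputable def T (B : ℕ) (q a b : ℤ → ℝ) : ℝ :=
  ∑ x ∈ I B, ∑ y ∈ I B, q x * q y * (a (x + y) * b (x - y)) ^ 3

theorem T_nonneg (B : ℕ) (q a b : ℤ → ℝ) (hq : ∀ x, 0 ≤ q x) (ha : ∀ x, 0 ≤ a x)
    (hb : ∀ x, 0 ≤ b x) : 0 ≤ T B q a b :=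
  Finset.sum_nonneg fun x _ => Finset.sum_nonneg fun y _ =>
    mul_nonneg (mul_nonneg (hq _) (hq _)) (pow_nonneg (mul_nonneg (ha _) (hb _)) _)

theorem T_sq_le (B : ℕ) (q a b : ℤ → ℝ)
    (hqs : ∀ x, q (-x) = q x)
    (hq1 : ∑ x ∈ I B, q x ^ 4 = 1) (ha1 : ∑ x ∈ I (2 * B), a x ^ 4 ≤ 1)
    (hb1 : ∑ x ∈ I (2 * B), b x ^ 4 ≤ 1) :
    T B q a b ^ 2 ≤ 1 - 1 / 10 ^ 8 * (1 - q 0 ^ 4) := by
  have e1 : T B q a b = ∑ r ∈ I B ×ˢ I B,
      (q r.1 * q r.2 * (a (r.1 + r.2) * b (r.1 - r.2))) * (a (r.1 + r.2) * b (r.1 - r.2)) ^ 2 := by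
    unfold T
    rw [Finset.sum_product]
    refine Finset.sum_congr rfl fun x _ => Finset.sum_congr rfl fun y _ => by ring
  have e2 : T B q a b ^ 2 ≤ (∑ r ∈ I B ×ˢ I B,
      (q r.1 * q r.2 * (a (r.1 + r.2) * b (r.1 - r.2))) ^ 2) *
      ∑ r ∈ I B ×ˢ I B, ((a (r.1 + r.2) * b (r.1 - r.2)) ^ 2) ^ 2 := by
    rw [e1]
    exact Finset.sum_mul_sq_le_sq_mul_sq _ _ _
  have e3 : ∑ r ∈ I B ×ˢ I B, (q r.1 * q r.2 * (a (r.1 + r.2) * b (r.1 - r.2))) ^ 2 =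
      S B (fun x => q x ^ 2) (fun x => a x ^ 2) (fun x => b x ^ 2) := by
    unfold S
    rw [Finset.sum_product]
    refine Finset.sum_congr rfl fun x _ => Finset.sum_congr rfl fun y _ => by ring
  have p4 : ∀ (c : ℤ → ℝ) (s : Finset ℤ), ∑ x ∈ s, (c x ^ 2) ^ 2 = ∑ x ∈ s, c x ^ 4 := by
    intro c s
    refine Finset.sum_congr rfl fun x _ => by ring
  have e4 := gap B (fun x => q x ^ 2) (fun x => a x ^ 2) (fun x => b x ^ 2)
    (fun x => sq_nonneg _) (fun x => sq_nonneg _) (fun x => sq_nonneg _)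
    (fun x => by simp only [hqs]) (by rw [p4]; exact hq1) (by rw [p4]; exact ha1)
    (by rw [p4]; exact hb1)
  have e5 : ∑ r ∈ I B ×ˢ I B, ((a (r.1 + r.2) * b (r.1 - r.2)) ^ 2) ^ 2 ≤ 1 := by
    have c1 := change (I B ×ˢ I B) (fun P Q => (a P ^ 4 * b Q ^ 4)) (fun _ _ => by positivity)
      (I (2 * B) ×ˢ I (2 * B)) (by
        rintro ⟨x, y⟩ hq
        rw [Finset.mem_product] at hq ⊢
        exact pm_mem hq.1 hq.2)
    have c2 : ∑ r ∈ I (2 * B) ×ˢ I (2 * B), (a r.1 ^ 4 * b r.2 ^ 4) ≤ 1 := by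
      rw [Finset.sum_product]
      simp only [← Finset.mul_sum, ← Finset.sum_mul]
      have h1 : 0 ≤ ∑ x ∈ I (2 * B), a x ^ 4 := Finset.sum_nonneg fun _ _ => by positivity
      have h2 : 0 ≤ ∑ x ∈ I (2 * B), b x ^ 4 := Finset.sum_nonneg fun _ _ => by positivity
      nlinarith
    refine le_trans (le_of_eq ?_) (c1.trans c2)
    refine Finset.sum_congr rfl fun r _ => by ring
  have hS0 : 0 ≤ S B (fun x => q x ^ 2) (fun x => a x ^ 2) (fun x => b x ^ 2) := by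
    rw [← e3]
    exact Finset.sum_nonneg fun _ _ => sq_nonneg _
  rw [e3] at e2
  have e6 : (1 : ℝ) - (q 0 ^ 2) ^ 2 = 1 - q 0 ^ 4 := by ring
  rw [e6] at e4
  calc _ ≤ _ := e2
    _ ≤ S B (fun x => q x ^ 2) (fun x => a x ^ 2) (fun x => b x ^ 2) * 1 :=
      mul_le_mul_of_nonneg_left e5 hS0
    _ ≤ _ := by rw [mul_one]; exact e4

end Pool.Agent.W321.GB
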