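import Mathlib
import Pool.Agent.W321.GB.Dbl
import Pool.Agent.W321.GB.Quarter

/-! The averaging step. -/

set_option autoImplicit false

namespace Pool.Agent.W321.GB

open Finset
open scoped Classical

section

variable {ι : Type} [Fintype ι] [DecidableEq ι]

/-- the near-extremal vectors of the box -/
noncomputable def Gs (ε : ℝ) (A : ι → ι → ℤ) (B : ℕ) : Finset (ι → ℤ) :=
  {w ∈ box ι B | Good ε A w}

/-- the potential -/
noncomputable def Phi (ε : ℝ) (A : ι → ι → ℤ) (B : ℕ) : ℝ := ∑ w ∈ Gs ε A B, Lam w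

theorem Phi_nonneg (ε : ℝ) (A : ι → ι → ℤ) (B : ℕ) : 0 ≤ Phi ε A B :=
  Finset.sum_nonneg fun _ _ => Lam_nonneg _

theorem mem_Gs {ε : ℝ} {A : ι → ι → ℤ} {B : ℕ} {w : ι → ℤ} :
    w ∈ Gs ε A B ↔ w ∈ box ι B ∧ Good ε A w := by
  unfold Gs
  rw [Finset.mem_filter]

theorem Gs_sub (ε : ℝ) (A : ι → ι → ℤ) (B : ℕ) : Gs ε A B ⊆ box ι B := Finset.filter_subset _ _

/-- the number of nonzero entries -/
def nz {κ : Type} [Fintype κ] [DecidableEq κ] (z : κ → ℤ) : ℕ := #{i | z i ≠ 0}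

theorem nz_add_cnt {κ : Type} [Fintype κ] [DecidableEq κ] (z : κ → ℤ) :
    nz z + cnt z 0 = Fintype.card κ := by
  unfold nz cnt
  have h2 := Finset.card_filter_add_card_filter_not (s := (Finset.univ : Finset κ))
    (fun i => z i = 0)
  have h3 : ({i | (z i).natAbs = 0} : Finset κ) = ({i | z i = 0} : Finset κ) := by
    ext i
    simp
  rw [h3]
  rw [Finset.card_univ] at h2
  simp only [ne_eq]
  omega

/-- diagonal action on the doubled vectors -/
def actd (Q : Gam ι) (z : ι ⊕ ι → ℤ) : ι ⊕ ι → ℤ :=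
  Sum.elim (act Q (fun i => z (Sum.inl i))) (act Q (fun i => z (Sum.inr i)))

theorem pa_actd (Q : Gam ι) (z : ι ⊕ ι → ℤ) : pa (actd Q z) = act Q (pa z) := by
  funext i
  simp only [pa, actd, act, Sum.elim_inl, Sum.elim_inr]
  ring

theorem pb_actd (Q : Gam ι) (z : ι ⊕ ι → ℤ) : pb (actd Q z) = act Q (pb z) := by
  funext i
  simp only [pb, actd, act, Sum.elim_inl, Sum.elim_inr]
  ring

theorem cnt_sum_type (z : ι ⊕ ι → ℤ) (v : ℕ) :
    cnt z v = cnt (fun i => z (Sum.inl i)) v + cnt (fun i => z (Sum.inr i)) v := by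
  unfold cnt
  rw [Finset.card_filter, Finset.card_filter, Finset.card_filter, Fintype.sum_sum_type]

theorem cnt_actd (Q : Gam ι) (z : ι ⊕ ι → ℤ) : cnt (actd Q z) = cnt z := by
  funext v
  rw [cnt_sum_type, cnt_sum_type]
  simp only [actd, Sum.elim_inl, Sum.elim_inr]
  have e1 := congrFun (cnt_act Q (fun i => z (Sum.inl i))) v
  have e2 := congrFun (cnt_act Q (fun i => z (Sum.inr i))) v
  exact congrArg₂ (· + ·) e1 e2

theorem mem_box_sum {B : ℕ} {z : ι ⊕ ι → ℤ} : z ∈ box (ι ⊕ ι) B ↔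
    (fun i => z (Sum.inl i)) ∈ box ι B ∧ (fun i => z (Sum.inr i)) ∈ box ι B := by
  rw [mem_box, mem_box, mem_box]
  constructor
  · exact fun h => ⟨fun i => h _, fun i => h _⟩
  · rintro ⟨h1, h2⟩ (i | i)
    · exact h1 i
    · exact h2 i

theorem actd_mem_box {B : ℕ} (Q : Gam ι) {z : ι ⊕ ι → ℤ} (hz : z ∈ box (ι ⊕ ι) B) :
    actd Q z ∈ box (ι ⊕ ι) B := by
  rw [mem_box_sum] at hz ⊢
  exact ⟨act_mem_box Q hz.1, act_mem_box Q hz.2⟩

theorem Lam_act {B : ℕ} (Q : Gam ι) {w : ι → ℤ} (hw : w ∈ box ι B) : Lam (act Q w) = Lam w :=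
  Lam_eq_of_cnt (act_mem_box Q hw) hw (cnt_act Q w)

theorem Lam_actd {B : ℕ} (Q : Gam ι) {z : ι ⊕ ι → ℤ} (hz : z ∈ box (ι ⊕ ι) B) :
    Lam (actd Q z) = Lam z :=
  Lam_eq_of_cnt (actd_mem_box Q hz) hz (cnt_actd Q z)

/-- the inverse signed permutation -/
def inv' (Q : Gam ι) : Gam ι := (Q.1.symm, fun i => Q.2 (Q.1.symm i))

theorem act_inv (Q : Gam ι) (w : ι → ℤ) : act (inv' Q) (act Q w) = w := by
  funext i
  simp only [act, inv', Equiv.apply_symm_apply]
  rcases Int.units_eq_one_or (Q.2 (Q.1.symm i)) with h | h <;> rw [h] <;> simp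

theorem act_inv' (Q : Gam ι) (w : ι → ℤ) : act Q (act (inv' Q) w) = w := by
  funext i
  simp only [act, inv', Equiv.symm_apply_apply]
  rcases Int.units_eq_one_or (Q.2 i) with h | h <;> rw [h] <;> simp

theorem actd_inv (Q : Gam ι) (z : ι ⊕ ι → ℤ) : actd (inv' Q) (actd Q z) = z := by
  funext i
  rcases i with i | i
  · exact congrFun (act_inv Q (fun i => z (Sum.inl i))) i
  · exact congrFun (act_inv Q (fun i => z (Sum.inr i))) i

theorem actd_inv' (Q : Gam ι) (z : ι ⊕ ι → ℤ) : actd Q (actd (inv' Q) z) = z := by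
  funext i
  rcases i with i | i
  · exact congrFun (act_inv' Q (fun i => z (Sum.inl i))) i
  · exact congrFun (act_inv' Q (fun i => z (Sum.inr i))) i

theorem pa_mem {B : ℕ} {z : ι ⊕ ι → ℤ} (hz : z ∈ box (ι ⊕ ι) B) :
    pa z ∈ box ι (2 * B) ∧ pb z ∈ box ι (2 * B) := by
  rw [mem_box] at hz
  rw [mem_box, mem_box]
  exact ⟨fun i => (pm_mem (hz _) (hz _)).1, fun i => (pm_mem (hz _) (hz _)).2⟩

/-- the main sum after symmetrisation -/
theorem sym_sum (G : Finset (ι → ℤ)) {B : ℕ} (hG : G ⊆ box ι (2 * B)) (K : ℕ)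
    (W : ℝ) (hW : W = ∑ w ∈ G, Lam w) :
    ∑ z ∈ box (ι ⊕ ι) B with K ≤ nz z,
      (if pa z ∈ G then 1 else 0) * Lam (pb z) ^ 3 * Lam z ≤
    D (Fintype.card ι) (2 * B) * W *
      ∑ z ∈ box (ι ⊕ ι) B with K ≤ nz z, Lam (pa z) ^ 3 * Lam (pb z) ^ 3 * Lam z := by
  set X := ∑ z ∈ box (ι ⊕ ι) B with K ≤ nz z,
      (if pa z ∈ G then 1 else 0) * Lam (pb z) ^ 3 * Lam z with hX
  have hQ : ∀ Q : Gam ι, X = ∑ z ∈ box (ι ⊕ ι) B with K ≤ nz z,
      (if act Q (pa z) ∈ G then 1 else 0) * Lam (pb z) ^ 3 * Lam z := by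
    intro Q
    rw [hX]
    symm
    refine Finset.sum_nbij' (fun z => actd Q z) (fun z => actd (inv' Q) z) ?_ ?_ ?_ ?_ ?_
    · intro z hz
      rw [Finset.mem_filter] at hz ⊢
      refine ⟨actd_mem_box Q hz.1, ?_⟩
      have h1 := nz_add_cnt (actd Q z)
      have h2 := nz_add_cnt z
      rw [cnt_actd] at h1
      omega
    · intro z hz
      rw [Finset.mem_filter] at hz ⊢
      refine ⟨actd_mem_box _ hz.1, ?_⟩
      have h1 := nz_add_cnt (actd (inv' Q) z)
      have h2 := nz_add_cnt z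
      rw [cnt_actd] at h1
      omega
    · intro z _; exact actd_inv Q z
    · intro z _; exact actd_inv' Q z
    · intro z hz
      rw [Finset.mem_filter] at hz
      rw [pa_actd, pb_actd, Lam_act Q (pa_mem hz.1).2, Lam_actd Q hz.1]
  have hsum : (Fintype.card (Gam ι) : ℝ) * X = ∑ z ∈ box (ι ⊕ ι) B with K ≤ nz z,
      (#{Q : Gam ι | act Q (pa z) ∈ G} : ℝ) * Lam (pb z) ^ 3 * Lam z := by
    have h1 : (Fintype.card (Gam ι) : ℝ) * X = ∑ Q : Gam ι, X := by
      rw [Finset.sum_const, Finset.card_univ, nsmul_eq_mul]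
    rw [h1, Finset.sum_congr rfl (fun Q _ => hQ Q), Finset.sum_comm]
    refine Finset.sum_congr rfl fun z _ => ?_
    rw [← Finset.sum_mul, ← Finset.sum_mul, Finset.sum_boole]
  have hcard : (0 : ℝ) < Fintype.card (Gam ι) := by
    have : 0 < Fintype.card (Gam ι) := Fintype.card_pos
    exact_mod_cast this
  have hbound : (Fintype.card (Gam ι) : ℝ) * X ≤ (Fintype.card (Gam ι) : ℝ) *
      (D (Fintype.card ι) (2 * B) * W *
      ∑ z ∈ box (ι ⊕ ι) B with K ≤ nz z, Lam (pa z) ^ 3 * Lam (pb z) ^ 3 * Lam z) := by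
    rw [hsum, Finset.mul_sum, Finset.mul_sum]
    refine Finset.sum_le_sum fun z hz => ?_
    rw [Finset.mem_filter] at hz
    have h1 := prob_le G hG (pa_mem hz.1).1
    rw [← hW] at h1
    have h2 : 0 ≤ Lam (pb z) ^ 3 * Lam z := mul_nonneg (pow_nonneg (Lam_nonneg _) _) (Lam_nonneg _)
    calc (#{Q : Gam ι | act Q (pa z) ∈ G} : ℝ) * Lam (pb z) ^ 3 * Lam z
        = (#{Q : Gam ι | act Q (pa z) ∈ G} : ℝ) * (Lam (pb z) ^ 3 * Lam z) := by ring
      _ ≤ _ := mul_le_mul_of_nonneg_right h1 h2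
      _ = _ := by ring
  exact le_of_mul_le_mul_left hbound hcard

/-- The averaging step. -/
theorem avg_step {A : ι → ι → ℤ} (hA : IsHad A) {ε : ℝ} (hε : 0 < ε)
    (hε1 : ε ≤ 1 / 1000) (B K : ℕ) (hK : 0 < K) :
    ∃ R : Gam ι, Phi ε (dbl A R) B ≤
      #{z ∈ box (ι ⊕ ι) B | nz z < K} +
      (D (Fintype.card ι) (2 * B) * Phi (3 * ε) A (2 * B)) ^ 2 *
        ∑ z ∈ box (ι ⊕ ι) B with K ≤ nz z, Lam (pa z) ^ 3 * Lam (pb z) ^ 3 * Lam z := by
  set G := Gs (3 * ε) A (2 * B) with hGdef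
  have hG : G ⊆ box ι (2 * B) := Gs_sub _ _ _
  set W := Phi (3 * ε) A (2 * B) with hWdef
  have hW : W = ∑ w ∈ G, Lam w := rfl
  have hW0 : 0 ≤ W := Phi_nonneg _ _ _
  set Y0 := ∑ z ∈ box (ι ⊕ ι) B with K ≤ nz z, Lam (pa z) ^ 3 * Lam (pb z) ^ 3 * Lam z with hY0
  have hLam1 : ∀ z ∈ box (ι ⊕ ι) B, Lam z ≤ 1 := by
    intro z hz
    unfold Lam
    refine Finset.prod_le_one (fun _ _ => qq_nonneg _ _ _) fun i _ => ?_
    have h1 : qq (Fintype.card (ι ⊕ ι)) (cnt z) (z i) ^ 4 ≤ 1 := by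
      rw [qq_pow]
      unfold law
      have h2 : ((cnt z (z i).natAbs : ℕ) : ℝ) / Fintype.card (ι ⊕ ι) ≤ 1 := by
        have : cnt z (z i).natAbs ≤ Fintype.card (ι ⊕ ι) := by
          unfold cnt
          exact Finset.card_le_univ _
        have h3 : ((cnt z (z i).natAbs : ℕ) : ℝ) ≤ Fintype.card (ι ⊕ ι) := by exact_mod_cast this
        exact div_le_one_of_le₀ h3 (by positivity)
      have h3 : 0 ≤ ((cnt z (z i).natAbs : ℕ) : ℝ) / Fintype.card (ι ⊕ ι) := by positivity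
      split_ifs
      · rwa [div_one]
      · linarith
    exact (pow_le_one_iff_of_nonneg (qq_nonneg _ _ _) (by norm_num)).1 h1
  have hcard : (0 : ℝ) < Fintype.card (Gam ι) := by
    have : 0 < Fintype.card (Gam ι) := Fintype.card_pos
    exact_mod_cast this
  by_contra hcon
  push Not at hcon
  have hlt : ∑ R : Gam ι, ((#{z ∈ box (ι ⊕ ι) B | nz z < K} : ℝ) +
      (D (Fintype.card ι) (2 * B) * W) ^ 2 * Y0) < ∑ R : Gam ι, Phi ε (dbl A R) B := by
    refine Finset.sum_lt_sum_of_nonempty ?_ fun R _ => hcon R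
    exact Finset.univ_nonempty
  rw [Finset.sum_const, Finset.card_univ, nsmul_eq_mul] at hlt
  -- upper bound for the sum over `R`
  have hub : ∀ R : Gam ι, Phi ε (dbl A R) B ≤ (#{z ∈ box (ι ⊕ ι) B | nz z < K} : ℝ) +
      ∑ z ∈ box (ι ⊕ ι) B with K ≤ nz z, (if pa z ∈ G then 1 else 0) *
        (if act R (pb z) ∈ G then 1 else 0) * Lam z := by
    intro R
    unfold Phi Gs
    rw [Finset.sum_filter]
    rw [← Finset.sum_filter_add_sum_filter_not (box (ι ⊕ ι) B) (fun z => nz z < K)]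
    refine add_le_add ?_ ?_
    · rw [← nsmul_one, ← Finset.sum_const]
      refine Finset.sum_le_sum fun z hz => ?_
      rw [Finset.mem_filter] at hz
      split_ifs
      · exact hLam1 z hz.1
      · exact zero_le_one
    · have e1 : ({z ∈ box (ι ⊕ ι) B | ¬ nz z < K} : Finset (ι ⊕ ι → ℤ)) =
          {z ∈ box (ι ⊕ ι) B | K ≤ nz z} := by
        ext z
        simp only [Finset.mem_filter, not_lt]
      rw [e1]
      refine Finset.sum_le_sum fun z hz => ?_
      rw [Finset.mem_filter] at hz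
      by_cases hgood : Good ε (dbl A R) z
      · have hn2 : 0 < n2 z := by
          unfold n2
          refine Real.sqrt_pos.2 ?_
          have h1 : 0 < nz z := by omega
          unfold nz at h1
          rw [Finset.card_pos] at h1
          obtain ⟨i, hi⟩ := h1
          rw [Finset.mem_filter] at hi
          refine Finset.sum_pos' (fun _ _ => sq_nonneg _) ⟨i, Finset.mem_univ _, ?_⟩
          have : (z i : ℝ) ≠ 0 := by exact_mod_cast hi.2
          positivity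
        obtain ⟨h1, h2⟩ := good_split hA R hε hε1 hn2 hgood
        have h3 : pa z ∈ G := mem_Gs.2 ⟨(pa_mem hz.1).1, h1⟩
        have h4 : act R (pb z) ∈ G := mem_Gs.2 ⟨act_mem_box R (pa_mem hz.1).2, h2⟩
        rw [if_pos hgood, if_pos h3, if_pos h4]
        simp
      · rw [if_neg hgood]
        refine mul_nonneg (mul_nonneg ?_ ?_) (Lam_nonneg _) <;> split_ifs <;> norm_num
  have hsum : ∑ R : Gam ι, Phi ε (dbl A R) B ≤
      Fintype.card (Gam ι) * (#{z ∈ box (ι ⊕ ι) B | nz z < K} : ℝ) +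
      Fintype.card (Gam ι) * (D (Fintype.card ι) (2 * B) * W *
        ∑ z ∈ box (ι ⊕ ι) B with K ≤ nz z,
          (if pa z ∈ G then 1 else 0) * Lam (pb z) ^ 3 * Lam z) := by
    refine (Finset.sum_le_sum fun R _ => hub R).trans ?_
    rw [Finset.sum_add_distrib, Finset.sum_const, Finset.card_univ, nsmul_eq_mul]
    refine add_le_add le_rfl ?_
    rw [Finset.sum_comm, Finset.mul_sum, Finset.mul_sum]
    refine Finset.sum_le_sum fun z hz => ?_
    rw [Finset.mem_filter] at hz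
    rw [← Finset.sum_mul, ← Finset.mul_sum, Finset.sum_boole]
    have h1 := prob_le G hG (pa_mem hz.1).2
    rw [← hW] at h1
    have h2 : (0 : ℝ) ≤ (if pa z ∈ G then 1 else 0) := by split_ifs <;> norm_num
    calc (if pa z ∈ G then (1 : ℝ) else 0) * (#{R : Gam ι | act R (pb z) ∈ G} : ℝ) * Lam z
        ≤ (if pa z ∈ G then (1 : ℝ) else 0) * (D (Fintype.card ι) (2 * B) * W * Lam (pb z) ^ 3 *
          Fintype.card (Gam ι)) * Lam z := by
          refine mul_le_mul_of_nonneg_right (mul_le_mul_of_nonneg_left h1 h2) (Lam_nonneg _)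
      _ = _ := by ring
  have hsym := sym_sum G hG K W hW
  have hD := D_pos (Fintype.card ι) (2 * B)
  have hfin : Fintype.card (Gam ι) * (D (Fintype.card ι) (2 * B) * W *
        ∑ z ∈ box (ι ⊕ ι) B with K ≤ nz z,
          (if pa z ∈ G then 1 else 0) * Lam (pb z) ^ 3 * Lam z) ≤
      Fintype.card (Gam ι) * ((D (Fintype.card ι) (2 * B) * W) ^ 2 * Y0) := by
    refine mul_le_mul_of_nonneg_left ?_ hcard.le
    calc _ ≤ D (Fintype.card ι) (2 * B) * W * (D (Fintype.card ι) (2 * B) * W * Y0) :=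
          mul_le_mul_of_nonneg_left hsym (mul_nonneg hD.le hW0)
      _ = _ := by ring
  rw [mul_add] at hlt
  linarith

end

end Pool.Agent.W321.GB
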