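import Mathlib
import Pool.Agent.W321.GB.Avg

/-! Grouping by types, and reduction to the single-letter inequality. -/

set_option autoImplicit false

namespace Pool.Agent.W321.GB

open Finset
open scoped Classical

section

variable {ι : Type} [Fintype ι] [DecidableEq ι]

theorem sum_box_prod (B : ℕ) (G : ℤ → ℤ → ℝ) :
    ∑ z ∈ box (ι ⊕ ι) B, ∏ i : ι, G (z (Sum.inl i)) (z (Sum.inr i)) =
      (∑ x ∈ I B, ∑ y ∈ I B, G x y) ^ Fintype.card ι := by
  have h1 : ∑ z ∈ box (ι ⊕ ι) B, ∏ i : ι, G (z (Sum.inl i)) (z (Sum.inr i)) =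
      ∑ r ∈ box ι B ×ˢ box ι B, ∏ i : ι, G (r.1 i) (r.2 i) := by
    refine Finset.sum_nbij' (fun z => (fun i => z (Sum.inl i), fun i => z (Sum.inr i)))
      (fun r => Sum.elim r.1 r.2) ?_ ?_ ?_ ?_ ?_
    · intro z hz
      rw [mem_box_sum] at hz
      rw [Finset.mem_product]
      exact hz
    · intro r hr
      rw [Finset.mem_product] at hr
      rw [mem_box_sum]
      exact hr
    · intro z _
      funext i
      rcases i with i | i <;> rfl
    · intro r _
      rfl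
    · intro z _
      rfl
  rw [h1, Finset.sum_product]
  have h2 : ∀ a ∈ box ι B, ∑ b ∈ box ι B, ∏ i : ι, G (a i) (b i) =
      ∏ i : ι, ∑ y ∈ I B, G (a i) y := by
    intro a _
    rw [Finset.prod_univ_sum]
    rfl
  rw [Finset.sum_congr rfl h2]
  have h3 := Finset.prod_univ_sum (fun _ : ι => I B) (fun _ x => ∑ y ∈ I B, G x y)
  rw [Finset.prod_const, Finset.card_univ] at h3
  rw [h3]
  rfl

theorem card_image_cnt (κ : Type) [Fintype κ] [DecidableEq κ] (B : ℕ) :
    #((box κ B).image cnt) ≤ (Fintype.card κ + 1) ^ (B + 1) := by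
  have h1 : #((box κ B).image cnt) ≤
      #(Fintype.piFinset (fun _ : Fin (B + 1) => range (Fintype.card κ + 1))) := by
    refine Finset.card_le_card_of_injOn (fun n => fun v : Fin (B + 1) => n v) ?_ ?_
    · intro n hn
      rw [Finset.mem_coe, Finset.mem_image] at hn
      obtain ⟨w, -, rfl⟩ := hn
      rw [Finset.mem_coe, Fintype.mem_piFinset]
      intro v
      rw [Finset.mem_range]
      have : cnt w v ≤ Fintype.card κ := by
        unfold cnt
        exact Finset.card_le_univ _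
      exact Nat.lt_succ_of_le this
    · intro n hn n' hn' h
      rw [Finset.mem_coe, Finset.mem_image] at hn hn'
      obtain ⟨w, hw, rfl⟩ := hn
      obtain ⟨w', hw', rfl⟩ := hn'
      funext v
      by_cases hv : v < B + 1
      · exact congrFun h ⟨v, hv⟩
      · have e : ∀ u : κ → ℤ, u ∈ box κ B → cnt u v = 0 := by
          intro u hu
          unfold cnt
          rw [Finset.card_eq_zero, Finset.filter_eq_empty_iff]
          intro i _ hi
          rw [mem_box] at hu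
          have := hu i
          rw [mem_I] at this
          omega
        rw [e w hw, e w' hw']
  refine h1.trans (le_of_eq ?_)
  rw [Fintype.card_piFinset]
  simp

theorem grp (B K : ℕ) (hM : 0 < Fintype.card ι) :
    ∑ z ∈ box (ι ⊕ ι) B with K ≤ nz z, Lam (pa z) ^ 3 * Lam (pb z) ^ 3 * Lam z ≤
      ((Fintype.card ι + 1) ^ (2 * B + 1) * ((Fintype.card ι + 1) ^ (2 * B + 1) *
        (2 * Fintype.card ι + 1) ^ (B + 1)) : ℕ) *
        (√(1 - 1 / 10 ^ 8 * (K / (2 * Fintype.card ι)))) ^ Fintype.card ι := by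
  set M := Fintype.card ι with hMdef
  let F : (ℕ → ℕ) × ((ℕ → ℕ) × (ℕ → ℕ)) → (ι ⊕ ι → ℤ) → ℝ := fun τ z =>
    ∏ i : ι, (qq (2 * M) τ.2.2 (z (Sum.inl i)) * qq (2 * M) τ.2.2 (z (Sum.inr i)) *
      (qq M τ.1 (z (Sum.inl i) + z (Sum.inr i)) * qq M τ.2.1 (z (Sum.inl i) - z (Sum.inr i))) ^ 3)
  have hF0 : ∀ τ z, 0 ≤ F τ z := by
    intro τ z
    refine Finset.prod_nonneg fun i _ => ?_
    have := qq_nonneg (2 * M) τ.2.2 (z (Sum.inl i))
    have := qq_nonneg (2 * M) τ.2.2 (z (Sum.inr i))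
    have := qq_nonneg M τ.1 (z (Sum.inl i) + z (Sum.inr i))
    have := qq_nonneg M τ.2.1 (z (Sum.inl i) - z (Sum.inr i))
    positivity
  have hFeq : ∀ z, Lam (pa z) ^ 3 * Lam (pb z) ^ 3 * Lam z =
      F (cnt (pa z), (cnt (pb z), cnt z)) z := by
    intro z
    have hc : Fintype.card (ι ⊕ ι) = 2 * M := by
      rw [Fintype.card_sum]
      ring
    simp only [F]
    unfold Lam
    rw [Fintype.prod_sum_type, hc, ← hMdef, ← Finset.prod_pow, ← Finset.prod_pow,
      ← Finset.prod_mul_distrib, ← Finset.prod_mul_distrib, ← Finset.prod_mul_distrib]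
    refine Finset.prod_congr rfl fun i _ => ?_
    unfold pa pb
    ring
  set Z := (box (ι ⊕ ι) B).filter (fun z => K ≤ nz z) with hZ
  set 𝒯 : Finset ((ℕ → ℕ) × ((ℕ → ℕ) × (ℕ → ℕ))) :=
    Z.image (fun z => (cnt (pa z), (cnt (pb z), cnt z))) with hT
  have hcardT : #𝒯 ≤ (M + 1) ^ (2 * B + 1) * ((M + 1) ^ (2 * B + 1) * (2 * M + 1) ^ (B + 1)) := by
    have hsub : 𝒯 ⊆ (box ι (2 * B)).image cnt ×ˢ ((box ι (2 * B)).image cnt ×ˢ
        (box (ι ⊕ ι) B).image cnt) := by
      intro τ hτ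
      rw [hT, Finset.mem_image] at hτ
      obtain ⟨z, hz, rfl⟩ := hτ
      rw [hZ, Finset.mem_filter] at hz
      rw [Finset.mem_product, Finset.mem_product]
      exact ⟨Finset.mem_image_of_mem _ (pa_mem hz.1).1,
        Finset.mem_image_of_mem _ (pa_mem hz.1).2, Finset.mem_image_of_mem _ hz.1⟩
    refine (Finset.card_le_card hsub).trans ?_
    rw [Finset.card_product, Finset.card_product]
    have h1 := card_image_cnt ι (2 * B)
    have h2 := card_image_cnt (ι ⊕ ι) B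
    rw [Fintype.card_sum, ← hMdef] at h2
    rw [← hMdef] at h1
    have h3 : M + M + 1 = 2 * M + 1 := by ring
    rw [h3] at h2
    exact Nat.mul_le_mul h1 (Nat.mul_le_mul h1 h2)
  have hone : ∀ τ ∈ 𝒯, ∑ z ∈ box (ι ⊕ ι) B, F τ z ≤
      (√(1 - 1 / 10 ^ 8 * (K / (2 * M)))) ^ M := by
    intro τ hτ
    rw [hT, Finset.mem_image] at hτ
    obtain ⟨z0, hz0, rfl⟩ := hτ
    rw [hZ, Finset.mem_filter] at hz0
    have e1 : ∑ z ∈ box (ι ⊕ ι) B, F (cnt (pa z0), (cnt (pb z0), cnt z0)) z =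
        T B (qq (2 * M) (cnt z0)) (qq M (cnt (pa z0))) (qq M (cnt (pb z0))) ^ M := by
      simp only [F]
      rw [sum_box_prod B (fun x y => qq (2 * M) (cnt z0) x * qq (2 * M) (cnt z0) y *
        (qq M (cnt (pa z0)) (x + y) * qq M (cnt (pb z0)) (x - y)) ^ 3)]
      rfl
    rw [e1]
    have hT0 := T_nonneg B (qq (2 * M) (cnt z0)) (qq M (cnt (pa z0))) (qq M (cnt (pb z0)))
      (qq_nonneg _ _) (qq_nonneg _ _) (qq_nonneg _ _)
    refine pow_le_pow_left₀ hT0 ?_ _
    refine Real.le_sqrt_of_sq_le ?_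
    have hc : Fintype.card (ι ⊕ ι) = 2 * M := by
      rw [Fintype.card_sum]
      ring
    have hs3 : ∑ v ∈ range (B + 1), cnt z0 v = 2 * M := by
      rw [cnt_sum hz0.1, hc]
    have hs1 : ∑ v ∈ range (2 * B + 1), cnt (pa z0) v = M := cnt_sum (pa_mem hz0.1).1
    have hs2 : ∑ v ∈ range (2 * B + 1), cnt (pb z0) v = M := cnt_sum (pa_mem hz0.1).2
    have hTle := T_sq_le B (qq (2 * M) (cnt z0)) (qq M (cnt (pa z0))) (qq M (cnt (pb z0)))
      (qq_neg _ _) (by simp only [qq_pow]; exact law_sum _ _ _ (by omega) hs3)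
      (by simp only [qq_pow]; exact (law_sum _ _ _ hM hs1).le)
      (by simp only [qq_pow]; exact (law_sum _ _ _ hM hs2).le)
    refine hTle.trans ?_
    have h0 : qq (2 * M) (cnt z0) 0 ^ 4 = (cnt z0 0 : ℝ) / (2 * M) := by
      rw [qq_pow]
      unfold law
      simp
    rw [h0]
    have h1 := nz_add_cnt z0
    rw [hc] at h1
    have h2 : (K : ℝ) + cnt z0 0 ≤ 2 * M := by
      have : K + cnt z0 0 ≤ 2 * M := by omega
      exact_mod_cast this
    have hM' : (0 : ℝ) < 2 * M := by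
      have : (0 : ℝ) < M := by exact_mod_cast hM
      linarith
    have h3 : (K : ℝ) / (2 * M) ≤ 1 - (cnt z0 0 : ℝ) / (2 * M) := by
      rw [le_sub_iff_add_le, ← add_div, div_le_one hM']
      exact h2
    have : (0 : ℝ) < 1 / 10 ^ 8 := by norm_num
    nlinarith
  calc ∑ z ∈ Z, Lam (pa z) ^ 3 * Lam (pb z) ^ 3 * Lam z
      = ∑ z ∈ Z, F (cnt (pa z), (cnt (pb z), cnt z)) z := Finset.sum_congr rfl fun z _ => hFeq z
    _ ≤ ∑ z ∈ Z, ∑ τ ∈ 𝒯, F τ z := by
        refine Finset.sum_le_sum fun z hz => ?_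
        exact Finset.single_le_sum (f := fun τ => F τ z) (fun τ _ => hF0 τ z)
          (Finset.mem_image_of_mem _ hz)
    _ = ∑ τ ∈ 𝒯, ∑ z ∈ Z, F τ z := Finset.sum_comm
    _ ≤ ∑ τ ∈ 𝒯, ∑ z ∈ box (ι ⊕ ι) B, F τ z := by
        refine Finset.sum_le_sum fun τ _ => ?_
        exact Finset.sum_le_sum_of_subset_of_nonneg (Finset.filter_subset _ _) fun z _ _ => hF0 τ z
    _ ≤ ∑ τ ∈ 𝒯, (√(1 - 1 / 10 ^ 8 * (K / (2 * M)))) ^ M := Finset.sum_le_sum hone
    _ = #𝒯 * (√(1 - 1 / 10 ^ 8 * (K / (2 * M)))) ^ M := by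
        rw [Finset.sum_const, nsmul_eq_mul]
    _ ≤ _ := by
        refine mul_le_mul_of_nonneg_right ?_ (by positivity)
        exact_mod_cast hcardT

/-- Vectors with few nonzero entries: an exponential bound. -/
theorem few_nonzero (κ : Type) [Fintype κ] [DecidableEq κ] (B K : ℕ) (t : ℝ) (ht : 0 < t)
    (ht1 : t ≤ 1) :
    (#{z ∈ box κ B | nz z < K} : ℝ) ≤ (1 + 2 * B * t) ^ Fintype.card κ / t ^ K := by
  rw [le_div_iff₀ (by positivity)]
  have h1 : ∑ z ∈ box κ B, ∏ i : κ, (if z i = 0 then (1 : ℝ) else t) =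
      (1 + 2 * B * t) ^ Fintype.card κ := by
    have h3 := Finset.prod_univ_sum (fun _ : κ => I B) (fun _ x => if x = 0 then (1 : ℝ) else t)
    rw [Finset.prod_const, Finset.card_univ] at h3
    unfold box
    rw [← h3]
    congr 1
    rw [split0, if_pos rfl]
    have h4 : ∑ x ∈ (I B).erase 0, (if x = 0 then (1 : ℝ) else t) =
        ∑ x ∈ (I B).erase 0, t := by
      refine Finset.sum_congr rfl fun x hx => ?_
      rw [if_neg (Finset.ne_of_mem_erase hx)]
    rw [h4, Finset.sum_const, Finset.card_erase_of_mem (zero_mem_I B)]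
    unfold I
    rw [Int.card_Icc, nsmul_eq_mul]
    have : ((B : ℤ) + 1 - -(B : ℤ)).toNat - 1 = 2 * B := by omega
    rw [this]
    push_cast
    ring
  rw [← h1]
  rw [← nsmul_one, nsmul_eq_mul, mul_one, Finset.card_filter]
  push_cast
  rw [Finset.sum_mul]
  refine Finset.sum_le_sum fun z _ => ?_
  have h2 : ∏ i : κ, (if z i = 0 then (1 : ℝ) else t) = t ^ nz z := by
    rw [Finset.prod_ite, Finset.prod_const_one, one_mul, Finset.prod_const]
    rfl
  rw [h2]
  split_ifs with h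
  · rw [one_mul]
    exact pow_le_pow_of_le_one ht.le ht1 h.le
  · rw [zero_mul]
    positivity

end

end Pool.Agent.W321.GB
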