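import Mathlib
import Pool.Agent.W321.GB.Grp

/-! The decrease of the exponent. -/

set_option autoImplicit false

namespace Pool.Agent.W321.GB

open Finset
open scoped Classical

/-- For all large `r` there is a Hadamard matrix of order `2 ^ r` with potential at most
`exp (E 2 ^ r)`. -/
def PP (B : ℕ) (ε E : ℝ) : Prop :=
  ∃ r0 : ℕ, ∀ r, r0 ≤ r → ∃ (ι : Type) (_ : Fintype ι) (_ : DecidableEq ι) (A : ι → ι → ℤ),
    Fintype.card ι = 2 ^ r ∧ IsHad A ∧ Phi ε A B ≤ Real.exp (E * 2 ^ r)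

theorem poly_exp (P : ℕ) (a : ℝ) (ha : 0 < a) (c : ℝ) (hc : 0 < c) :
    ∃ M0 : ℕ, ∀ M : ℕ, M0 ≤ M → (6 * ((M : ℝ) + 1)) ^ P * Real.exp (-(a * M)) ≤ c := by
  have h1 : Filter.Tendsto (fun x : ℝ => x ^ P * Real.exp (-(a / 6 * x))) Filter.atTop (nhds 0) := by
    have h := isLittleO_pow_exp_pos_mul_atTop (k := P) (b := a / 6) (by positivity)
    have h2 := h.tendsto_div_nhds_zero
    refine h2.congr fun x => ?_
    rw [Real.exp_neg]
    rfl
  have h2 : Filter.Tendsto (fun M : ℕ => 6 * ((M : ℝ) + 1)) Filter.atTop Filter.atTop := by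
    refine Filter.Tendsto.const_mul_atTop (by norm_num) ?_
    exact Filter.tendsto_atTop_add_const_right _ _ tendsto_natCast_atTop_atTop
  have h3 := h1.comp h2
  have h4 : ∀ᶠ M : ℕ in Filter.atTop, (6 * ((M : ℝ) + 1)) ^ P *
      Real.exp (-(a / 6 * (6 * ((M : ℝ) + 1)))) < c / Real.exp a := by
    have := h3.eventually (gt_mem_nhds (show (0 : ℝ) < c / Real.exp a by positivity))
    exact this
  obtain ⟨M0, hM0⟩ := Filter.eventually_atTop.1 h4
  refine ⟨M0, fun M hM => ?_⟩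
  have h5 := hM0 M hM
  have e1 : Real.exp (-(a / 6 * (6 * ((M : ℝ) + 1)))) = Real.exp (-(a * M)) / Real.exp a := by
    rw [← Real.exp_sub]
    congr 1
    ring
  rw [e1, ← mul_div_assoc] at h5
  have h6 := (div_lt_div_iff_of_pos_right (Real.exp_pos a)).1 h5
  exact h6.le

theorem sqrt_pow_le (u : ℝ) (M : ℕ) (hu : 0 ≤ 1 - u) :
    (√(1 - u)) ^ M ≤ Real.exp (-(u / 2 * M)) := by
  have h1 : √(1 - u) ≤ Real.exp (-(u / 2)) := by
    rw [Real.sqrt_le_left (Real.exp_pos _).le, ← Real.exp_nat_mul]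
    have := Real.add_one_le_exp (-u)
    refine le_trans (by linarith) (this.trans (le_of_eq ?_))
    congr 1
    push_cast
    ring
  have _ := hu
  calc (√(1 - u)) ^ M ≤ (Real.exp (-(u / 2))) ^ M :=
        pow_le_pow_left₀ (Real.sqrt_nonneg _) h1 M
    _ = _ := by
        rw [← Real.exp_nat_mul]
        congr 1
        ring

/-- the threshold -/
noncomputable def ws (d : ℕ) : ℝ := 1 / (600 * ((d : ℝ) + 1))

/-- the gain -/
noncomputable def dl (d : ℕ) : ℝ := 1 / 10 ^ 8 * ws d / 8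

theorem ws_pos (d : ℕ) : 0 < ws d := by
  unfold ws
  positivity

theorem log_bound (d : ℕ) : Real.log (200 * 2 ^ d) ≤ 6 * ((d : ℝ) + 1) := by
  rw [Real.log_mul (by norm_num) (by positivity), Real.log_pow]
  have h1 : Real.log 200 ≤ 6 := by
    rw [Real.log_le_iff_le_exp (by norm_num)]
    have h2 : (2.7 : ℝ) ≤ Real.exp 1 := by
      have := Real.exp_one_gt_d9
      linarith
    have h3 : Real.exp 6 = Real.exp 1 ^ 6 := by
      rw [← Real.exp_nat_mul]
      norm_num
    rw [h3]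
    calc (200 : ℝ) ≤ 2.7 ^ 6 := by norm_num
      _ ≤ _ := pow_le_pow_left₀ (by norm_num) h2 6
  have h2 : Real.log 2 ≤ 1 := by
    have := Real.log_two_lt_d9
    linarith
  have h3 : (0 : ℝ) ≤ d := by positivity
  nlinarith

theorem low_part {κ : Type} [Fintype κ] [DecidableEq κ] (d M K : ℕ) (hκ : Fintype.card κ = 2 * M)
    (hK : (K : ℝ) ≤ 2 * M * ws d + 1) :
    (#{z ∈ box κ (2 ^ d) | nz z < K} : ℝ) ≤ Real.exp (4 / 100 * M) * (200 * 2 ^ d) := by
  have h1 := few_nonzero κ (2 ^ d) K (1 / (200 * 2 ^ d)) (by positivity) (by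
    rw [div_le_one (by positivity)]
    have : (1 : ℝ) ≤ 2 ^ d := one_le_pow₀ (by norm_num)
    linarith)
  refine h1.trans ?_
  rw [hκ]
  have e1 : (1 : ℝ) + 2 * ((2 ^ d : ℕ) : ℝ) * (1 / (200 * 2 ^ d)) = 1 + 1 / 100 := by
    push_cast
    field_simp
    norm_num
  rw [e1, one_div (200 * 2 ^ d : ℝ), inv_pow, div_inv_eq_mul]
  have h2 : (1 + 1 / 100 : ℝ) ^ (2 * M) ≤ Real.exp (2 / 100 * M) := by
    have h3 : (1 + 1 / 100 : ℝ) ≤ Real.exp (1 / 100) := by
      have := Real.add_one_le_exp (1 / 100 : ℝ)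
      linarith
    calc (1 + 1 / 100 : ℝ) ^ (2 * M) ≤ Real.exp (1 / 100) ^ (2 * M) :=
          pow_le_pow_left₀ (by norm_num) h3 _
      _ = _ := by
          rw [← Real.exp_nat_mul]
          congr 1
          push_cast
          ring
  have h3 : (200 * 2 ^ d : ℝ) ^ K ≤ Real.exp (2 / 100 * M) * (200 * 2 ^ d) := by
    set L := Real.log (200 * 2 ^ d) with hL
    have hpos : (0 : ℝ) < 200 * 2 ^ d := by positivity
    have e2 : (200 * 2 ^ d : ℝ) = Real.exp L := (Real.exp_log hpos).symm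
    have hL0 : 0 ≤ L := by
      refine Real.log_nonneg ?_
      have : (1 : ℝ) ≤ 2 ^ d := one_le_pow₀ (by norm_num)
      linarith
    have hLb := log_bound d
    rw [e2, ← Real.exp_nat_mul, ← Real.exp_add]
    refine Real.exp_le_exp.2 ?_
    have h4 : ws d * L ≤ 1 / 100 := by
      unfold ws
      rw [div_mul_eq_mul_div, one_mul, div_le_iff₀ (by positivity)]
      linarith
    have hM0 : (0 : ℝ) ≤ M := by positivity
    calc (K : ℝ) * L ≤ (2 * M * ws d + 1) * L := mul_le_mul_of_nonneg_right hK hL0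
      _ = 2 * M * (ws d * L) + L := by ring
      _ ≤ 2 * M * (1 / 100) + L := by
          have := mul_le_mul_of_nonneg_left h4 (by positivity : (0 : ℝ) ≤ 2 * M)
          linarith
      _ = _ := by ring
  calc _ ≤ Real.exp (2 / 100 * M) * (Real.exp (2 / 100 * M) * (200 * 2 ^ d)) :=
        mul_le_mul h2 h3 (by positivity) (Real.exp_pos _).le
    _ = _ := by
        rw [← mul_assoc, ← Real.exp_add]
        congr 2
        ring

theorem step (d : ℕ) (ε E : ℝ) (hε : 0 < ε) (hε1 : ε ≤ 1 / 1000)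
    (h : PP (2 ^ (d + 1)) (3 * ε) E) : PP (2 ^ d) ε (max (E - dl d) (3 / 100)) := by
  obtain ⟨r0, hr0⟩ := h
  set B := 2 ^ d with hB
  set P : ℕ := 9 * B + 5 with hP
  have hws := ws_pos d
  obtain ⟨M1, hM1⟩ := poly_exp P (1 / 10 ^ 8 * ws d / 4) (by positivity) (1 / 2) (by norm_num)
  obtain ⟨M2, hM2⟩ := poly_exp 0 (2 / 100) (by norm_num) (1 / (2 * (200 * 2 ^ d)))
    (by positivity)
  refine ⟨r0 + M1 + M2 + 1, fun r hr => ?_⟩
  obtain ⟨s, rfl⟩ : ∃ s, r = s + 1 := ⟨r - 1, by omega⟩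
  obtain ⟨ι, i1, i2, A, hcard, hA, hPhi⟩ := hr0 s (by omega)
  set M := Fintype.card ι with hM
  have hsM : s < M := by
    rw [hcard]
    exact Nat.lt_two_pow_self
  have hMpos : 0 < M := by omega
  have hMr : (0 : ℝ) < M := by exact_mod_cast hMpos
  set K : ℕ := ⌈2 * (M : ℝ) * ws d⌉₊ with hK
  have hK1 : 2 * (M : ℝ) * ws d ≤ K := Nat.le_ceil _
  have hK2 : (K : ℝ) < 2 * M * ws d + 1 := Nat.ceil_lt_add_one (by positivity)
  have hK0 : 0 < K := Nat.ceil_pos.2 (by positivity)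
  obtain ⟨R, hR⟩ := avg_step hA hε hε1 B K hK0
  refine ⟨ι ⊕ ι, inferInstance, inferInstance, dbl A R, ?_, isHad_dbl hA R, ?_⟩
  · rw [Fintype.card_sum, ← hM, hcard, pow_succ]
    ring
  have hMs : (2 : ℝ) ^ (s + 1) = 2 * M := by
    have : (M : ℝ) = 2 ^ s := by exact_mod_cast hcard
    rw [this, pow_succ]
    ring
  rw [hMs]
  -- the two parts
  set E' := max (E - dl d) (3 / 100) with hE'
  have hlow := low_part (κ := ι ⊕ ι) d M K (by rw [Fintype.card_sum]; ring) hK2.le
  have hB2 : 2 * B = 2 ^ (d + 1) := by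
    rw [hB, pow_succ]
    ring
  have hgrp := grp (ι := ι) B K hMpos
  rw [← hM] at hgrp hR
  have hW : Phi (3 * ε) A (2 * B) ≤ Real.exp (E * M) := by
    rw [hB2]
    have : (M : ℝ) = 2 ^ s := by exact_mod_cast hcard
    rw [this]
    exact hPhi
  have hW0 := Phi_nonneg (3 * ε) A (2 * B)
  have part1 : (#{z ∈ box (ι ⊕ ι) B | nz z < K} : ℝ) ≤ Real.exp (E' * (2 * M)) / 2 := by
    refine hlow.trans ?_
    have h1 := hM2 M (by omega)
    rw [pow_zero, one_mul, le_div_iff₀ (by positivity)] at h1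
    have h2 : Real.exp (4 / 100 * M) = Real.exp (6 / 100 * M) * Real.exp (-(2 / 100 * M)) := by
      rw [← Real.exp_add]
      congr 1
      ring
    have h3 : Real.exp (6 / 100 * M) ≤ Real.exp (E' * (2 * M)) := by
      refine Real.exp_le_exp.2 ?_
      have : 3 / 100 ≤ E' := le_max_right _ _
      nlinarith
    have h4 := Real.exp_pos (6 / 100 * (M : ℝ))
    rw [h2]
    nlinarith
  have part2 : (D M (2 * B) * Phi (3 * ε) A (2 * B)) ^ 2 *
        ∑ z ∈ box (ι ⊕ ι) B with K ≤ nz z, Lam (pa z) ^ 3 * Lam (pb z) ^ 3 * Lam z ≤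
      Real.exp (E' * (2 * M)) / 2 := by
    have hKM : (K : ℝ) / (2 * M) ≤ 1 := by
      rw [div_le_one (by positivity)]
      have h1 : ws d ≤ 1 / 600 := by
        unfold ws
        refine one_div_le_one_div_of_le (by norm_num) ?_
        have : (0 : ℝ) ≤ d := by positivity
        linarith
      have h2 : (1 : ℝ) ≤ M := by exact_mod_cast hMpos
      nlinarith
    have hs := sqrt_pow_le (1 / 10 ^ 8 * (K / (2 * M))) M (by
      have : (0 : ℝ) < 1 / 10 ^ 8 := by norm_num
      nlinarith)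
    have hs2 : Real.exp (-(1 / 10 ^ 8 * ((K : ℝ) / (2 * M)) / 2 * M)) ≤
        Real.exp (-(1 / 10 ^ 8 * ws d / 2 * M)) := by
      refine Real.exp_le_exp.2 (neg_le_neg ?_)
      have h1 : ws d ≤ (K : ℝ) / (2 * M) := by
        rw [le_div_iff₀ (by positivity)]
        linarith
      have : (0 : ℝ) < 1 / 10 ^ 8 := by norm_num
      refine mul_le_mul_of_nonneg_right ?_ hMr.le
      refine div_le_div_of_nonneg_right ?_ (by norm_num)
      exact mul_le_mul_of_nonneg_left h1 this.le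
    have hpoly : D M (2 * B) ^ 2 * (((M + 1) ^ (2 * B + 1) * ((M + 1) ^ (2 * B + 1) *
        (2 * M + 1) ^ (B + 1)) : ℕ) : ℝ) ≤ (6 * ((M : ℝ) + 1)) ^ P := by
      unfold D
      push_cast
      have he : Real.exp 1 ≤ 6 := by
        have := Real.exp_one_lt_d9
        linarith
      have hx : (0 : ℝ) ≤ M + 1 := by positivity
      have h1 : Real.exp 1 * ((M : ℝ) + 1) ≤ 6 * (M + 1) := mul_le_mul_of_nonneg_right he hx
      have h2 : (M : ℝ) + 1 ≤ 6 * (M + 1) := by linarith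
      have h3 : 2 * (M : ℝ) + 1 ≤ 6 * (M + 1) := by linarith
      have e1 : (6 * ((M : ℝ) + 1)) ^ P = ((6 * ((M : ℝ) + 1)) ^ (2 * B + 1)) ^ 2 *
          ((6 * ((M : ℝ) + 1)) ^ (2 * B + 1) * ((6 * ((M : ℝ) + 1)) ^ (2 * B + 1) *
            (6 * ((M : ℝ) + 1)) ^ (B + 1))) := by
        rw [← pow_mul, ← pow_add, ← pow_add, ← pow_add, hP]
        congr 1
        ring
      rw [e1]
      gcongr
    calc _ ≤ (D M (2 * B) * Real.exp (E * M)) ^ 2 *
          ((((M + 1) ^ (2 * B + 1) * ((M + 1) ^ (2 * B + 1) * (2 * M + 1) ^ (B + 1)) : ℕ) : ℝ) *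
            Real.exp (-(1 / 10 ^ 8 * ws d / 2 * M))) := by
          have hD := D_pos M (2 * B)
          refine mul_le_mul ?_ (hgrp.trans ?_) ?_ (by positivity)
          · exact pow_le_pow_left₀ (mul_nonneg hD.le hW0) (mul_le_mul_of_nonneg_left hW hD.le) 2
          · exact mul_le_mul_of_nonneg_left (hs.trans hs2) (by positivity)
          · refine Finset.sum_nonneg fun z _ => ?_
            have := Lam_nonneg (pa z)
            have := Lam_nonneg (pb z)
            have := Lam_nonneg z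
            positivity
      _ = (D M (2 * B) ^ 2 * (((M + 1) ^ (2 * B + 1) * ((M + 1) ^ (2 * B + 1) *
            (2 * M + 1) ^ (B + 1)) : ℕ) : ℝ)) * Real.exp (-(1 / 10 ^ 8 * ws d / 4 * M)) *
            (Real.exp (E * M) ^ 2 * Real.exp (-(1 / 10 ^ 8 * ws d / 4 * M))) := by
          have : Real.exp (-(1 / 10 ^ 8 * ws d / 2 * M)) =
              Real.exp (-(1 / 10 ^ 8 * ws d / 4 * M)) * Real.exp (-(1 / 10 ^ 8 * ws d / 4 * M)) := by
            rw [← Real.exp_add]
            congr 1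
            ring
          rw [this]
          ring
      _ ≤ (6 * ((M : ℝ) + 1)) ^ P * Real.exp (-(1 / 10 ^ 8 * ws d / 4 * M)) *
            (Real.exp (E * M) ^ 2 * Real.exp (-(1 / 10 ^ 8 * ws d / 4 * M))) := by
          refine mul_le_mul_of_nonneg_right (mul_le_mul_of_nonneg_right hpoly
            (Real.exp_pos _).le) (by positivity)
      _ ≤ 1 / 2 * (Real.exp (E * M) ^ 2 * Real.exp (-(1 / 10 ^ 8 * ws d / 4 * M))) :=
          mul_le_mul_of_nonneg_right (hM1 M (by omega)) (by positivity)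
      _ = 1 / 2 * Real.exp ((E - dl d) * (2 * M)) := by
          rw [← Real.exp_nat_mul, ← Real.exp_add]
          congr 2
          unfold dl
          push_cast
          ring
      _ ≤ _ := by
          rw [one_div, inv_mul_eq_div]
          refine div_le_div_of_nonneg_right (Real.exp_le_exp.2 ?_) (by norm_num)
          exact mul_le_mul_of_nonneg_right (le_max_left _ _) (by positivity)
  linarith

theorem iterate (D0 : ℕ) (ε : ℝ) (hε : 0 < ε) (hε1 : ε ≤ 1 / 1000) (E : ℝ)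
    (h : PP (2 ^ D0) ε E) : ∀ j, j ≤ D0 →
      PP (2 ^ (D0 - j)) (ε / 3 ^ j) (max (E - ∑ i ∈ range j, dl (D0 - 1 - i)) (3 / 100)) := by
  intro j
  induction j with
  | zero =>
    intro _
    simp only [Nat.sub_zero, pow_zero, div_one, Finset.range_zero, Finset.sum_empty, sub_zero]
    obtain ⟨r0, hr0⟩ := h
    refine ⟨r0, fun r hr => ?_⟩
    obtain ⟨ι, i1, i2, A, h1, h2, h3⟩ := hr0 r hr
    refine ⟨ι, i1, i2, A, h1, h2, h3.trans (Real.exp_le_exp.2 ?_)⟩
    exact mul_le_mul_of_nonneg_right (le_max_left _ _) (by positivity)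
  | succ j ih =>
    intro hj
    have h1 := ih (by omega)
    have e1 : D0 - j = (D0 - (j + 1)) + 1 := by omega
    rw [e1] at h1
    have e2 : ε / 3 ^ j = 3 * (ε / 3 ^ (j + 1)) := by
      rw [pow_succ]
      field_simp
    rw [e2] at h1
    have h3 : (1 : ℝ) ≤ 3 ^ (j + 1) := one_le_pow₀ (by norm_num)
    have h2 := step (D0 - (j + 1)) (ε / 3 ^ (j + 1)) _ (by positivity)
      ((div_le_self hε.le h3).trans hε1) h1
    obtain ⟨r0, hr0⟩ := h2
    refine ⟨r0, fun r hr => ?_⟩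
    obtain ⟨ι, i1, i2, A, h1, h2, h3⟩ := hr0 r hr
    refine ⟨ι, i1, i2, A, h1, h2, h3.trans (Real.exp_le_exp.2 ?_)⟩
    refine mul_le_mul_of_nonneg_right ?_ (by positivity)
    have hdl : 0 < dl (D0 - (j + 1)) := by
      unfold dl
      have := ws_pos (D0 - (j + 1))
      positivity
    rw [Finset.sum_range_succ]
    have e3 : D0 - 1 - j = D0 - (j + 1) := by omega
    rw [e3]
    rcases le_total (E - ∑ i ∈ range j, dl (D0 - 1 - i)) (3 / 100) with hc | hc
    · rw [max_eq_right hc]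
      refine max_le ?_ (le_max_right _ _)
      refine le_trans ?_ (le_max_right _ _)
      linarith
    · rw [max_eq_left hc]
      refine max_le_max ?_ le_rfl
      linarith

end Pool.Agent.W321.GB
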