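import Mathlib
import Pool.Agent.W321.GB.Step

/-! The starting bound. -/

set_option autoImplicit false

namespace Pool.Agent.W321.GB

open Finset
open scoped Classical

theorem Lam_le_one {κ : Type} [Fintype κ] [DecidableEq κ] (z : κ → ℤ) : Lam z ≤ 1 := by
  unfold Lam
  refine Finset.prod_le_one (fun _ _ => qq_nonneg _ _ _) fun i _ => ?_
  have h1 : qq (Fintype.card κ) (cnt z) (z i) ^ 4 ≤ 1 := by
    rw [qq_pow]
    unfold law
    have h2 : ((cnt z (z i).natAbs : ℕ) : ℝ) / Fintype.card κ ≤ 1 := by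
      have : cnt z (z i).natAbs ≤ Fintype.card κ := by
        unfold cnt
        exact Finset.card_le_univ _
      have h3 : ((cnt z (z i).natAbs : ℕ) : ℝ) ≤ Fintype.card κ := by exact_mod_cast this
      exact div_le_one_of_le₀ h3 (by positivity)
    have h3 : 0 ≤ ((cnt z (z i).natAbs : ℕ) : ℝ) / Fintype.card κ := by positivity
    split_ifs
    · rwa [div_one]
    · linarith
  exact (pow_le_one_iff_of_nonneg (qq_nonneg _ _ _) (by norm_num)).1 h1

theorem exists_had (r : ℕ) : ∃ (ι : Type) (_ : Fintype ι) (_ : DecidableEq ι) (A : ι → ι → ℤ),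
    Fintype.card ι = 2 ^ r ∧ IsHad A := by
  induction r with
  | zero =>
    refine ⟨Unit, inferInstance, inferInstance, fun _ _ => 1, by simp, fun _ _ => Or.inl rfl, ?_⟩
    intro w
    simp [mv]
  | succ r ih =>
    obtain ⟨ι, i1, i2, A, h1, h2⟩ := ih
    refine ⟨ι ⊕ ι, inferInstance, inferInstance, dbl A (1, 1), ?_, isHad_dbl h2 _⟩
    rw [Fintype.card_sum, h1, pow_succ]
    ring

section

variable {ι : Type} [Fintype ι] [DecidableEq ι]

theorem close_of {A : ι → ι → ℤ} (hA : IsHad A) (hM : 0 < Fintype.card ι) {ε : ℝ} {w w' : ι → ℤ}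
    (h : Good ε A w) (h' : Good ε A w')
    (hs : ∀ j, decide (0 ≤ mv A w j) = decide (0 ≤ mv A w' j))
    (hn : ∑ i, (w i) ^ 2 = ∑ i, (w' i) ^ 2) :
    ∑ i, ((w i : ℝ) - w' i) ^ 2 ≤ 8 * ε * ∑ i, (w i : ℝ) ^ 2 := by
  have hMr : (0 : ℝ) < Fintype.card ι := by exact_mod_cast hM
  have hν : n2 w = n2 w' := by
    unfold n2
    congr 1
    exact_mod_cast hn
  set ν := n2 w with hνdef
  let X : ι → ℝ := fun j => if 0 ≤ mv A w j then 1 else -1
  have hX2 : ∀ j, X j ^ 2 = 1 := by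
    intro j
    simp only [X]
    split_ifs <;> norm_num
  have habs : ∀ j, |(mv A w j : ℝ)| = X j * mv A w j := by
    intro j
    simp only [X]
    split_ifs with hc
    · have : (0 : ℝ) ≤ mv A w j := by exact_mod_cast hc
      rw [abs_of_nonneg this, one_mul]
    · push Not at hc
      have : (mv A w j : ℝ) < 0 := by exact_mod_cast hc
      rw [abs_of_neg this]
      ring
  have habs' : ∀ j, |(mv A w' j : ℝ)| = X j * mv A w' j := by
    intro j
    simp only [X]
    have hj : (0 ≤ mv A w j) ↔ (0 ≤ mv A w' j) := by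
      have := hs j
      simpa using this
    split_ifs with hc
    · have : (0 : ℝ) ≤ mv A w' j := by exact_mod_cast hj.1 hc
      rw [abs_of_nonneg this, one_mul]
    · have hc' : ¬ 0 ≤ mv A w' j := fun h => hc (hj.2 h)
      push Not at hc'
      have : (mv A w' j : ℝ) < 0 := by exact_mod_cast hc'
      rw [abs_of_neg this]
      ring
  have key : ∀ u : ι → ℤ, n2 u = ν → Good ε A u → (∀ j, |(mv A u j : ℝ)| = X j * mv A u j) →
      ∑ j, ((mv A u j : ℝ) - ν * X j) ^ 2 ≤ 2 * ε * Fintype.card ι * ν ^ 2 := by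
    intro u hu hg ha
    have e1 : ∑ j, ((mv A u j : ℝ) - ν * X j) ^ 2 =
        ∑ j, (mv A u j : ℝ) ^ 2 - 2 * ν * l1 A u + ν ^ 2 * Fintype.card ι := by
      unfold l1
      have : ∀ j, ((mv A u j : ℝ) - ν * X j) ^ 2 =
          (mv A u j : ℝ) ^ 2 - 2 * ν * |(mv A u j : ℝ)| + ν ^ 2 := by
        intro j
        rw [ha j]
        have := hX2 j
        calc ((mv A u j : ℝ) - ν * X j) ^ 2 = (mv A u j : ℝ) ^ 2 - 2 * ν * (X j * mv A u j) +
              ν ^ 2 * X j ^ 2 := by ring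
          _ = _ := by rw [this]; ring
      simp only [this]
      rw [Finset.sum_add_distrib, Finset.sum_sub_distrib, ← Finset.mul_sum, Finset.sum_const,
        Finset.card_univ, nsmul_eq_mul]
      ring
    have e2 : ∑ j, (mv A u j : ℝ) ^ 2 = Fintype.card ι * ν ^ 2 := by
      rw [← hu, n2_sq]
      exact_mod_cast hA.2 u
    rw [e1, e2]
    unfold Good at hg
    rw [hu] at hg
    have hν0 : 0 ≤ ν := n2_nonneg _
    nlinarith [mul_le_mul_of_nonneg_left hg hν0]
  have k1 := key w rfl h habs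
  have k2 := key w' hν.symm h' habs'
  have e3 : (Fintype.card ι : ℝ) * ∑ i, ((w i : ℝ) - w' i) ^ 2 =
      ∑ j, ((mv A w j : ℝ) - mv A w' j) ^ 2 := by
    have := hA.2 (fun i => w i - w' i)
    have e4 : ∀ j, mv A (fun i => w i - w' i) j = mv A w j - mv A w' j := by
      intro j
      unfold mv
      rw [← Finset.sum_sub_distrib]
      exact Finset.sum_congr rfl fun i _ => by ring
    simp only [e4] at this
    exact_mod_cast this.symm
  have e5 : ∑ j, ((mv A w j : ℝ) - mv A w' j) ^ 2 ≤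
      2 * ∑ j, ((mv A w j : ℝ) - ν * X j) ^ 2 + 2 * ∑ j, ((mv A w' j : ℝ) - ν * X j) ^ 2 := by
    rw [Finset.mul_sum, Finset.mul_sum, ← Finset.sum_add_distrib]
    refine Finset.sum_le_sum fun j _ => ?_
    nlinarith [sq_nonneg (((mv A w j : ℝ) - ν * X j) + ((mv A w' j : ℝ) - ν * X j))]
  have hν2 : ν ^ 2 = ∑ i, (w i : ℝ) ^ 2 := n2_sq w
  rw [← hν2]
  refine le_of_mul_le_mul_left ?_ hMr
  rw [e3]
  refine e5.trans ?_
  linarith

theorem nz_le_of (u : ι → ℤ) (c : ℝ) (h : ∑ i, (u i : ℝ) ^ 2 ≤ c) : (nz u : ℝ) ≤ c := by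
  refine le_trans ?_ h
  unfold nz
  rw [Finset.card_filter]
  push_cast
  refine Finset.sum_le_sum fun i _ => ?_
  split_ifs with hc
  · have h1 : (1 : ℤ) ≤ (u i) ^ 2 := by
      have : 0 < (u i) ^ 2 := by positivity
      omega
    exact_mod_cast h1
  · positivity

theorem card_Gs_le {A : ι → ι → ℤ} (hA : IsHad A) (hM : 0 < Fintype.card ι) {ε : ℝ} (hε : 0 < ε)
    (B K : ℕ) (hK : 8 * ε * (B ^ 2 * Fintype.card ι) < K) :
    #(Gs ε A B) ≤ #{z ∈ box ι (2 * B) | nz z < K} *
      (2 ^ Fintype.card ι * (B ^ 2 * Fintype.card ι + 1)) := by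
  let f : (ι → ℤ) → (ι → Bool) × ℕ := fun w =>
    (fun j => decide (0 ≤ mv A w j), (∑ i, (w i) ^ 2).toNat)
  have hnonneg : ∀ w : ι → ℤ, 0 ≤ ∑ i, (w i) ^ 2 := fun w => Finset.sum_nonneg fun _ _ => sq_nonneg _
  have hbd : ∀ w ∈ box ι B, ∑ i, (w i) ^ 2 ≤ (B : ℤ) ^ 2 * Fintype.card ι := by
    intro w hw
    rw [mem_box] at hw
    calc ∑ i, (w i) ^ 2 ≤ ∑ i : ι, (B : ℤ) ^ 2 := by
          refine Finset.sum_le_sum fun i _ => ?_
          have h1 := hw i
          rw [mem_I] at h1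
          nlinarith
      _ = _ := by
          rw [Finset.sum_const, Finset.card_univ, nsmul_eq_mul]
          ring
  have h1 : ∀ a ∈ (Gs ε A B).image f, #{w ∈ Gs ε A B | f w = a} ≤
      #{z ∈ box ι (2 * B) | nz z < K} := by
    intro a ha
    rw [Finset.mem_image] at ha
    obtain ⟨w0, hw0, rfl⟩ := ha
    rw [mem_Gs] at hw0
    refine Finset.card_le_card_of_injOn (fun w => fun i => w0 i - w i) ?_ ?_
    · intro w hw
      rw [Finset.mem_coe, Finset.mem_filter, mem_Gs] at hw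
      obtain ⟨⟨hw1, hw2⟩, hw3⟩ := hw
      simp only [f, Prod.mk.injEq] at hw3
      rw [Finset.mem_coe, Finset.mem_filter]
      constructor
      · rw [mem_box]
        intro i
        have h1 := mem_box.1 hw0.1 i
        have h2 := mem_box.1 hw1 i
        exact (pm_mem h1 h2).2
      · have hs : ∀ j, decide (0 ≤ mv A w0 j) = decide (0 ≤ mv A w j) := by
          intro j
          exact (congrFun hw3.1 j).symm
        have hn : ∑ i, (w0 i) ^ 2 = ∑ i, (w i) ^ 2 := by
          have a1 := hnonneg w0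
          have a2 := hnonneg w
          have a3 := hw3.2
          omega
        have h3 := close_of hA hM hw0.2 hw2 hs hn
        have h4 : (nz (fun i => w0 i - w i) : ℝ) ≤ 8 * ε * ∑ i, (w0 i : ℝ) ^ 2 := by
          refine nz_le_of _ _ ?_
          push_cast
          exact h3
        have h5 : ∑ i, (w0 i : ℝ) ^ 2 ≤ (B : ℝ) ^ 2 * Fintype.card ι := by
          exact_mod_cast hbd w0 hw0.1
        have h6 : (nz (fun i => w0 i - w i) : ℝ) < K := by
          refine lt_of_le_of_lt (h4.trans ?_) hK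
          exact mul_le_mul_of_nonneg_left h5 (by positivity)
        exact_mod_cast h6
    · intro w _ w' _ h
      funext i
      have := congrFun h i
      simp only at this
      omega
  have h2 := Finset.card_le_mul_card_image (Gs ε A B) _ h1
  refine h2.trans (Nat.mul_le_mul_left _ ?_)
  have h3 : (Gs ε A B).image f ⊆ (Finset.univ : Finset (ι → Bool)) ×ˢ
      range (B ^ 2 * Fintype.card ι + 1) := by
    intro a ha
    rw [Finset.mem_image] at ha
    obtain ⟨w0, hw0, rfl⟩ := ha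
    rw [mem_Gs] at hw0
    rw [Finset.mem_product]
    refine ⟨Finset.mem_univ _, ?_⟩
    rw [Finset.mem_range]
    have a1 := hnonneg w0
    have a2 := hbd w0 hw0.1
    simp only [f]
    have : (∑ i, (w0 i) ^ 2).toNat ≤ B ^ 2 * Fintype.card ι := by
      rw [Int.toNat_le]
      push_cast
      exact a2
    omega
  refine (Finset.card_le_card h3).trans (le_of_eq ?_)
  rw [Finset.card_product, Finset.card_univ, Finset.card_range, Fintype.card_fun, Fintype.card_bool]

end

theorem base (B : ℕ) (hB : 0 < B) (ε : ℝ) (hε : 0 < ε) (hε1 : ε ≤ 1 / (3200 * (B : ℝ) ^ 3)) :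
    PP B ε 2 := by
  have hBr : (1 : ℝ) ≤ B := by exact_mod_cast hB
  obtain ⟨M1, hM1⟩ := poly_exp 1 1 (by norm_num) (1 / (40 * (B : ℝ) ^ 3)) (by positivity)
  refine ⟨M1, fun r hr => ?_⟩
  obtain ⟨ι, i1, i2, A, hcard, hA⟩ := exists_had r
  refine ⟨ι, i1, i2, A, hcard, hA, ?_⟩
  set M := Fintype.card ι with hM
  have hrM : r < M := by
    rw [hcard]
    exact Nat.lt_two_pow_self
  have hMpos : 0 < M := by omega
  have hMr : (0 : ℝ) < M := by exact_mod_cast hMpos
  have hM2 : (2 : ℝ) ^ r = M := by exact_mod_cast hcard.symm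
  rw [hM2]
  set K : ℕ := ⌊8 * ε * ((B : ℝ) ^ 2 * M)⌋₊ + 1 with hK
  have hK1 : 8 * ε * ((B : ℝ) ^ 2 * M) < K := by
    rw [hK]
    push_cast
    exact Nat.lt_floor_add_one _
  have hK2 : (K : ℝ) ≤ 8 * ε * ((B : ℝ) ^ 2 * M) + 1 := by
    rw [hK]
    push_cast
    have := Nat.floor_le (show 0 ≤ 8 * ε * ((B : ℝ) ^ 2 * M) by positivity)
    linarith
  have h1 : Phi ε A B ≤ #(Gs ε A B) := by
    unfold Phi
    calc ∑ w ∈ Gs ε A B, Lam w ≤ ∑ w ∈ Gs ε A B, (1 : ℝ) :=
          Finset.sum_le_sum fun w _ => Lam_le_one w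
      _ = _ := by simp
  have h2 := card_Gs_le hA hMpos hε B K hK1
  have h3 := few_nonzero ι (2 * B) K (1 / (40 * B)) (by positivity) (by
    rw [div_le_one (by positivity)]
    linarith)
  have e1 : (1 : ℝ) + 2 * ((2 * B : ℕ) : ℝ) * (1 / (40 * B)) = 1 + 1 / 10 := by
    push_cast
    field_simp
    norm_num
  rw [e1, one_div (40 * B : ℝ), inv_pow, div_inv_eq_mul, ← hM] at h3
  have h4 : (1 + 1 / 10 : ℝ) ^ M ≤ Real.exp (1 / 10 * M) := by
    have h3 : (1 + 1 / 10 : ℝ) ≤ Real.exp (1 / 10) := by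
      have := Real.add_one_le_exp (1 / 10 : ℝ)
      linarith
    calc (1 + 1 / 10 : ℝ) ^ M ≤ Real.exp (1 / 10) ^ M :=
          pow_le_pow_left₀ (by norm_num) h3 _
      _ = _ := by
          rw [← Real.exp_nat_mul]
          congr 1
          ring
  have h5 : (40 * B : ℝ) ^ K ≤ Real.exp (1 / 10 * M) * (40 * B) := by
    set L := Real.log (40 * B) with hL
    have hpos : (0 : ℝ) < 40 * B := by positivity
    have e2 : (40 * B : ℝ) = Real.exp L := (Real.exp_log hpos).symm
    have hL0 : 0 ≤ L := Real.log_nonneg (by linarith)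
    have hLb : L ≤ 40 * B := by
      have := Real.log_le_sub_one_of_pos hpos
      linarith
    rw [e2, ← Real.exp_nat_mul, ← Real.exp_add]
    refine Real.exp_le_exp.2 ?_
    have h4 : 8 * ε * ((B : ℝ) ^ 2) * L ≤ 1 / 10 := by
      calc 8 * ε * ((B : ℝ) ^ 2) * L ≤ 8 * (1 / (3200 * (B : ℝ) ^ 3)) * ((B : ℝ) ^ 2) * (40 * B) := by
            gcongr
        _ = _ := by
            field_simp
            norm_num
    calc (K : ℝ) * L ≤ (8 * ε * ((B : ℝ) ^ 2 * M) + 1) * L := mul_le_mul_of_nonneg_right hK2 hL0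
      _ = M * (8 * ε * ((B : ℝ) ^ 2) * L) + L := by ring
      _ ≤ M * (1 / 10) + L := by
          have := mul_le_mul_of_nonneg_left h4 hMr.le
          linarith
      _ = _ := by ring
  have h6 : (2 : ℝ) ^ M ≤ Real.exp (7 / 10 * M) := by
    have h3 : (2 : ℝ) ≤ Real.exp (7 / 10) := by
      have := Real.log_two_lt_d9
      rw [← Real.log_le_iff_le_exp (by norm_num)]
      linarith
    calc (2 : ℝ) ^ M ≤ Real.exp (7 / 10) ^ M :=
          pow_le_pow_left₀ (by norm_num) h3 _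
      _ = _ := by
          rw [← Real.exp_nat_mul]
          congr 1
          ring
  have h7 := hM1 M (by omega)
  rw [pow_one, le_div_iff₀ (by positivity)] at h7
  have h8 : ((B : ℝ) ^ 2 * M + 1) * (40 * B) ≤ Real.exp M := by
    have h9 : ((B : ℝ) ^ 2 * M + 1) * (40 * B) ≤ 6 * ((M : ℝ) + 1) * (40 * (B : ℝ) ^ 3) := by
      have hB2 : (1 : ℝ) ≤ (B : ℝ) ^ 2 := one_le_pow₀ hBr
      calc ((B : ℝ) ^ 2 * M + 1) * (40 * B) ≤ ((B : ℝ) ^ 2 * M + (B : ℝ) ^ 2) * (40 * B) := by
            gcongr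
        _ = ((M : ℝ) + 1) * (40 * (B : ℝ) ^ 3) := by ring
        _ ≤ _ := by
            have : 0 ≤ ((M : ℝ) + 1) * (40 * (B : ℝ) ^ 3) := by positivity
            linarith
    refine h9.trans ?_
    have e4 : Real.exp (-(1 * (M : ℝ))) = (Real.exp M)⁻¹ := by
      rw [one_mul, Real.exp_neg]
    rw [e4] at h7
    have hE := Real.exp_pos (M : ℝ)
    have e5 : 6 * ((M : ℝ) + 1) * (Real.exp M)⁻¹ * (40 * (B : ℝ) ^ 3) =
        (6 * ((M : ℝ) + 1) * (40 * (B : ℝ) ^ 3)) / Real.exp M := by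
      field_simp
    rw [e5, div_le_one hE] at h7
    exact h7
  calc Phi ε A B ≤ #(Gs ε A B) := h1
    _ ≤ (#{z ∈ box ι (2 * B) | nz z < K} : ℝ) * (2 ^ M * (B ^ 2 * M + 1)) := by
        exact_mod_cast h2
    _ ≤ ((1 + 1 / 10 : ℝ) ^ M * (40 * B : ℝ) ^ K) * (2 ^ M * (B ^ 2 * M + 1)) :=
        mul_le_mul_of_nonneg_right h3 (by positivity)
    _ ≤ (Real.exp (1 / 10 * M) * (Real.exp (1 / 10 * M) * (40 * B))) *
        (Real.exp (7 / 10 * M) * (B ^ 2 * M + 1)) := by
        gcongr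
    _ = (Real.exp (1 / 10 * M) * Real.exp (1 / 10 * M) * Real.exp (7 / 10 * M)) *
        (((B : ℝ) ^ 2 * M + 1) * (40 * B)) := by ring
    _ ≤ Real.exp (9 / 10 * M) * Real.exp M := by
        have e6 : Real.exp (1 / 10 * M) * Real.exp (1 / 10 * M) * Real.exp (7 / 10 * M) =
            Real.exp (9 / 10 * M) := by
          rw [← Real.exp_add, ← Real.exp_add]
          congr 1
          ring
        rw [e6]
        exact mul_le_mul_of_nonneg_left h8 (Real.exp_pos _).le
    _ ≤ Real.exp (2 * M) := by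
        rw [← Real.exp_add]
        refine Real.exp_le_exp.2 ?_
        linarith

end Pool.Agent.W321.GB
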