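import Mathlib
import Pool.Agent.W321.GB.Base

/-! From the potential bound to a matrix without near-extremal sign vectors. -/

set_option autoImplicit false

namespace Pool.Agent.W321.GB

open Finset
open scoped Classical

section

variable {ι : Type} [Fintype ι] [DecidableEq ι]

theorem sym_gen (G : Finset (ι → ℤ)) {B : ℕ} (hG : G ⊆ box ι (2 * B))
    (Z : Finset (ι ⊕ ι → ℤ)) (hZ : Z ⊆ box (ι ⊕ ι) B)
    (hinv : ∀ (Q : Gam ι) (z : ι ⊕ ι → ℤ), z ∈ Z → actd Q z ∈ Z)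
    (W : ℝ) (hW : W = ∑ w ∈ G, Lam w) :
    ∑ R : Gam ι, ∑ z ∈ Z, ((if pa z ∈ G then 1 else 0) * (if act R (pb z) ∈ G then 1 else 0) : ℝ) ≤
    Fintype.card (Gam ι) * ((D (Fintype.card ι) (2 * B) * W) ^ 2 *
      ∑ z ∈ Z, Lam (pa z) ^ 3 * Lam (pb z) ^ 3) := by
  have hcard : (0 : ℝ) < Fintype.card (Gam ι) := by
    have : 0 < Fintype.card (Gam ι) := Fintype.card_pos
    exact_mod_cast this
  have hW0 : 0 ≤ W := by
    rw [hW]
    exact Finset.sum_nonneg fun _ _ => Lam_nonneg _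
  have hD := D_pos (Fintype.card ι) (2 * B)
  set X := ∑ z ∈ Z, (if pa z ∈ G then 1 else 0) * Lam (pb z) ^ 3 with hX
  have hfirst : ∑ R : Gam ι, ∑ z ∈ Z, ((if pa z ∈ G then 1 else 0) *
      (if act R (pb z) ∈ G then 1 else 0) : ℝ) ≤
      Fintype.card (Gam ι) * (D (Fintype.card ι) (2 * B) * W * X) := by
    rw [Finset.sum_comm, hX, Finset.mul_sum, Finset.mul_sum]
    refine Finset.sum_le_sum fun z hz => ?_
    rw [← Finset.mul_sum, Finset.sum_boole]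
    have h1 := prob_le G hG (pa_mem (hZ hz)).2
    rw [← hW] at h1
    have h2 : (0 : ℝ) ≤ (if pa z ∈ G then 1 else 0) := by split_ifs <;> norm_num
    calc (if pa z ∈ G then (1 : ℝ) else 0) * (#{R : Gam ι | act R (pb z) ∈ G} : ℝ)
        ≤ (if pa z ∈ G then (1 : ℝ) else 0) * (D (Fintype.card ι) (2 * B) * W * Lam (pb z) ^ 3 *
          Fintype.card (Gam ι)) := mul_le_mul_of_nonneg_left h1 h2
      _ = _ := by ring
  have hQ : ∀ Q : Gam ι, X = ∑ z ∈ Z, (if act Q (pa z) ∈ G then 1 else 0) * Lam (pb z) ^ 3 := by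
    intro Q
    rw [hX]
    symm
    refine Finset.sum_nbij' (fun z => actd Q z) (fun z => actd (inv' Q) z) ?_ ?_ ?_ ?_ ?_
    · exact fun z hz => hinv Q z hz
    · exact fun z hz => hinv _ z hz
    · intro z _; exact actd_inv Q z
    · intro z _; exact actd_inv' Q z
    · intro z hz
      rw [pa_actd, pb_actd, Lam_act Q (pa_mem (hZ hz)).2]
  have hsum : (Fintype.card (Gam ι) : ℝ) * X = ∑ z ∈ Z,
      (#{Q : Gam ι | act Q (pa z) ∈ G} : ℝ) * Lam (pb z) ^ 3 := by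
    have h1 : (Fintype.card (Gam ι) : ℝ) * X = ∑ Q : Gam ι, X := by
      rw [Finset.sum_const, Finset.card_univ, nsmul_eq_mul]
    rw [h1, Finset.sum_congr rfl (fun Q _ => hQ Q), Finset.sum_comm]
    refine Finset.sum_congr rfl fun z _ => ?_
    rw [← Finset.sum_mul, Finset.sum_boole]
  have hbound : (Fintype.card (Gam ι) : ℝ) * X ≤ (Fintype.card (Gam ι) : ℝ) *
      (D (Fintype.card ι) (2 * B) * W * ∑ z ∈ Z, Lam (pa z) ^ 3 * Lam (pb z) ^ 3) := by
    rw [hsum, Finset.mul_sum, Finset.mul_sum]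
    refine Finset.sum_le_sum fun z hz => ?_
    have h1 := prob_le G hG (pa_mem (hZ hz)).1
    rw [← hW] at h1
    have h2 : 0 ≤ Lam (pb z) ^ 3 := pow_nonneg (Lam_nonneg _) _
    calc (#{Q : Gam ι | act Q (pa z) ∈ G} : ℝ) * Lam (pb z) ^ 3 ≤ _ :=
          mul_le_mul_of_nonneg_right h1 h2
      _ = _ := by ring
  have hXle := le_of_mul_le_mul_left hbound hcard
  refine hfirst.trans (mul_le_mul_of_nonneg_left ?_ hcard.le)
  calc _ ≤ D (Fintype.card ι) (2 * B) * W * (D (Fintype.card ι) (2 * B) * W *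
        ∑ z ∈ Z, Lam (pa z) ^ 3 * Lam (pb z) ^ 3) :=
        mul_le_mul_of_nonneg_left hXle (mul_nonneg hD.le hW0)
    _ = _ := by ring

theorem nz_act (Q : Gam ι) (w : ι → ℤ) : nz (act Q w) = nz w := by
  have h1 := nz_add_cnt (act Q w)
  have h2 := nz_add_cnt w
  rw [cnt_act] at h1
  omega

/-- balanced sign vectors -/
noncomputable def Zb (ι : Type) [Fintype ι] [DecidableEq ι] : Finset (ι ⊕ ι → ℤ) :=
  {z ∈ box (ι ⊕ ι) 1 | (∀ i, z i = 1 ∨ z i = -1) ∧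
    49 / 100 * (Fintype.card ι : ℝ) ≤ nz (pa z) ∧ (nz (pa z) : ℝ) ≤ 51 / 100 * Fintype.card ι}

theorem Zb_inv (Q : Gam ι) (z : ι ⊕ ι → ℤ) (hz : z ∈ Zb ι) : actd Q z ∈ Zb ι := by
  unfold Zb at hz ⊢
  rw [Finset.mem_filter] at hz ⊢
  refine ⟨actd_mem_box Q hz.1, ?_, ?_⟩
  · have hu : ∀ (u : ℤˣ) (x : ℤ), x = 1 ∨ x = -1 → (u : ℤ) * x = 1 ∨ (u : ℤ) * x = -1 := by
      intro u x hx
      rcases Int.units_eq_one_or u with h | h <;> rcases hx with h' | h' <;> rw [h, h'] <;> simp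
    rintro (i | i)
    · exact hu _ _ (hz.2.1 _)
    · exact hu _ _ (hz.2.1 _)
  · rw [pa_actd, nz_act]
    exact hz.2.2

theorem card_Zb : #(Zb ι) ≤ 4 ^ Fintype.card ι := by
  have h1 : Zb ι ⊆ Fintype.piFinset (fun _ : ι ⊕ ι => ({1, -1} : Finset ℤ)) := by
    intro z hz
    unfold Zb at hz
    rw [Finset.mem_filter] at hz
    rw [Fintype.mem_piFinset]
    intro i
    rw [Finset.mem_insert, Finset.mem_singleton]
    exact hz.2.1 i
  refine (Finset.card_le_card h1).trans (le_of_eq ?_)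
  rw [Fintype.card_piFinset, Finset.prod_const, Finset.card_univ, Fintype.card_sum,
    Finset.card_pair (by norm_num), ← two_mul, pow_mul]
  norm_num

theorem Lam_pab {z : ι ⊕ ι → ℤ} (hz : z ∈ Zb ι) (hM : 0 < Fintype.card ι) :
    (Lam (pa z) * Lam (pb z)) ^ 4 ≤ (13005 / 100000) ^ Fintype.card ι := by
  unfold Zb at hz
  rw [Finset.mem_filter] at hz
  obtain ⟨h1, h2, h3, h4⟩ := hz
  have hMr : (0 : ℝ) < Fintype.card ι := by exact_mod_cast hM
  have ha := Lam_pow_four (pa_mem h1).1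
  have hb := Lam_pow_four (pa_mem h1).2
  rw [mul_pow, ha, hb]
  set M := Fintype.card ι with hMdef
  have c0 := nz_add_cnt (pa z)
  rw [← hMdef] at c0
  set t := nz (pa z) with ht
  have a1 : cnt (pa z) 1 = 0 := by
    unfold cnt
    rw [Finset.card_eq_zero, Finset.filter_eq_empty_iff]
    intro i _ hi
    unfold pa at hi
    rcases h2 (Sum.inl i) with h | h <;> rcases h2 (Sum.inr i) with h' | h' <;>
      rw [h, h'] at hi <;> simp at hi
  have b1 : cnt (pb z) 1 = 0 := by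
    unfold cnt
    rw [Finset.card_eq_zero, Finset.filter_eq_empty_iff]
    intro i _ hi
    unfold pb at hi
    rcases h2 (Sum.inl i) with h | h <;> rcases h2 (Sum.inr i) with h' | h' <;>
      rw [h, h'] at hi <;> simp at hi
  have a0 : cnt (pa z) 0 = M - t := by omega
  have a2 : cnt (pa z) 2 = t := by
    have := cnt_sum (pa_mem h1).1
    norm_num [Finset.sum_range_succ] at this
    omega
  have b0 : cnt (pb z) 0 = t := by
    rw [ht]
    unfold cnt nz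
    congr 1
    ext i
    rw [Finset.mem_filter, Finset.mem_filter]
    unfold pa pb
    rcases h2 (Sum.inl i) with h | h <;> rcases h2 (Sum.inr i) with h' | h' <;>
      rw [h, h'] <;> simp
  have b2 : cnt (pb z) 2 = M - t := by
    have := cnt_sum (pa_mem h1).2
    norm_num [Finset.sum_range_succ] at this
    omega
  have htM : t ≤ M := by omega
  have e1 : ∏ v ∈ range (2 * 1 + 1), ((cnt (pa z) v : ℝ) / M) ^ cnt (pa z) v =
      (((M - t : ℕ) : ℝ) / M) ^ (M - t) * ((t : ℝ) / M) ^ t := by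
    norm_num [Finset.prod_range_succ]
    rw [a0, a1, a2]
    simp
  have e2 : ∏ v ∈ range (2 * 1 + 1), ((cnt (pb z) v : ℝ) / M) ^ cnt (pb z) v =
      ((t : ℝ) / M) ^ t * (((M - t : ℕ) : ℝ) / M) ^ (M - t) := by
    norm_num [Finset.prod_range_succ]
    rw [b0, b1, b2]
    simp
  rw [e1, e2, a0, b0]
  have e3 : M - (M - t) = t := by omega
  rw [e3]
  have p1 : (t : ℝ) / M ≤ 51 / 100 := by
    rw [div_le_iff₀ hMr]
    exact h4
  have p2 : ((M - t : ℕ) : ℝ) / M ≤ 51 / 100 := by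
    rw [div_le_iff₀ hMr, Nat.cast_sub htM]
    linarith
  have p1' : (0 : ℝ) ≤ (t : ℝ) / M := by positivity
  have p2' : (0 : ℝ) ≤ ((M - t : ℕ) : ℝ) / M := by positivity
  have q1 : (((M - t : ℕ) : ℝ) / M) ^ (M - t) * ((t : ℝ) / M) ^ t ≤ (51 / 100) ^ M := by
    calc _ ≤ (51 / 100 : ℝ) ^ (M - t) * (51 / 100) ^ t := by gcongr
      _ = _ := by
          rw [← pow_add]
          congr 1
          omega
  have q0 : (0 : ℝ) ≤ (((M - t : ℕ) : ℝ) / M) ^ (M - t) * ((t : ℝ) / M) ^ t := by positivity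
  have e4 : (((M - t : ℕ) : ℝ) / M) ^ (M - t) * ((t : ℝ) / M) ^ t / 2 ^ t *
      (((t : ℝ) / M) ^ t * (((M - t : ℕ) : ℝ) / M) ^ (M - t) / 2 ^ (M - t)) =
      ((((M - t : ℕ) : ℝ) / M) ^ (M - t) * ((t : ℝ) / M) ^ t) ^ 2 / 2 ^ M := by
    have : (2 : ℝ) ^ M = 2 ^ t * 2 ^ (M - t) := by
      rw [← pow_add]
      congr 1
      omega
    rw [this]
    field_simp
  rw [e4]
  calc _ ≤ ((51 / 100 : ℝ) ^ M) ^ 2 / 2 ^ M := by gcongr
    _ = _ := by
        rw [← pow_mul, mul_comm M 2, pow_mul, ← div_pow]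
        congr 1
        norm_num

theorem sum_Zb_le (hM : 0 < Fintype.card ι) :
    ∑ z ∈ Zb ι, Lam (pa z) ^ 3 * Lam (pb z) ^ 3 ≤ Real.exp (-(12 / 100 * Fintype.card ι)) := by
  set M := Fintype.card ι with hMdef
  set c : ℝ := (13005 / 100000 : ℝ) ^ ((1 : ℝ) / 4) with hc
  have hc0 : 0 ≤ c := Real.rpow_nonneg (by norm_num) _
  have hc4 : c ^ 4 = 13005 / 100000 := by
    rw [hc, ← Real.rpow_natCast, ← Real.rpow_mul (by norm_num)]
    norm_num
  have h1 : ∀ z ∈ Zb ι, Lam (pa z) ^ 3 * Lam (pb z) ^ 3 ≤ (c ^ 3) ^ M := by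
    intro z hz
    have h2 := Lam_pab hz hM
    rw [← hMdef, ← hc4, ← pow_mul, mul_comm 4 M, pow_mul] at h2
    have h3 : Lam (pa z) * Lam (pb z) ≤ c ^ M :=
      (pow_le_pow_iff_left₀ (mul_nonneg (Lam_nonneg _) (Lam_nonneg _)) (pow_nonneg hc0 _)
        (by norm_num)).1 h2
    rw [← mul_pow]
    calc (Lam (pa z) * Lam (pb z)) ^ 3 ≤ (c ^ M) ^ 3 :=
          pow_le_pow_left₀ (mul_nonneg (Lam_nonneg _) (Lam_nonneg _)) h3 3
      _ = _ := by rw [← pow_mul, ← pow_mul, mul_comm]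
  have h2 : ∑ z ∈ Zb ι, Lam (pa z) ^ 3 * Lam (pb z) ^ 3 ≤ (4 * c ^ 3) ^ M := by
    calc _ ≤ ∑ z ∈ Zb ι, (c ^ 3) ^ M := Finset.sum_le_sum h1
      _ = #(Zb ι) * (c ^ 3) ^ M := by rw [Finset.sum_const, nsmul_eq_mul]
      _ ≤ (4 : ℝ) ^ M * (c ^ 3) ^ M := by
          refine mul_le_mul_of_nonneg_right ?_ (by positivity)
          exact_mod_cast card_Zb (ι := ι)
      _ = _ := by rw [mul_pow]
  refine h2.trans ?_
  have h3 : 4 * c ^ 3 ≤ Real.exp (-(12 / 100)) := by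
    have h4 : (4 * c ^ 3) ^ 4 ≤ Real.exp (-(12 / 100)) ^ 4 := by
      have e1 : (4 * c ^ 3) ^ 4 = 256 * (c ^ 4) ^ 3 := by ring
      rw [e1, hc4]
      have e2 : Real.exp (-(12 / 100)) ^ 4 = Real.exp (-(6 / 100)) ^ 8 := by
        rw [← Real.exp_nat_mul, ← Real.exp_nat_mul]
        congr 1
        norm_num
      rw [e2]
      have h5 : (94 / 100 : ℝ) ≤ Real.exp (-(6 / 100)) := by
        have := Real.add_one_le_exp (-(6 / 100) : ℝ)
        linarith
      calc (256 * (13005 / 100000) ^ 3 : ℝ) ≤ (94 / 100) ^ 8 := by norm_num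
        _ ≤ _ := pow_le_pow_left₀ (by norm_num) h5 8
    exact (pow_le_pow_iff_left₀ (by positivity) (Real.exp_pos _).le (by norm_num)).1 h4
  calc (4 * c ^ 3) ^ M ≤ Real.exp (-(12 / 100)) ^ M := pow_le_pow_left₀ (by positivity) h3 M
    _ = _ := by
        rw [← Real.exp_nat_mul]
        congr 1
        ring

theorem good_mem_Zb {A : ι → ι → ℤ} (hA : IsHad A) (R : Gam ι) {ε : ℝ} (hε : 0 < ε)
    (hε1 : ε ≤ 1 / 20000) (hM : 0 < Fintype.card ι) {z : ι ⊕ ι → ℤ} (hz : ∀ i, z i = 1 ∨ z i = -1)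
    (h : Good ε (dbl A R) z) : z ∈ Zb ι := by
  have hMr : (0 : ℝ) < Fintype.card ι := by exact_mod_cast hM
  unfold Good at h
  rw [l1_dbl, Fintype.card_sum] at h
  push_cast at h
  have h0 := n2_pa_pb z
  have ha := l1_le hA (pa z)
  have hb := l1_le hA (act R (pb z))
  rw [n2_act] at hb
  have hα := n2_nonneg (pa z)
  have hβ := n2_nonneg (pb z)
  have hN := n2_nonneg z
  have hNsq : n2 z ^ 2 = 2 * Fintype.card ι := by
    rw [n2_sq]
    have : ∀ i, (z i : ℝ) ^ 2 = 1 := by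
      intro i
      rcases hz i with h | h <;> rw [h] <;> norm_num
    simp only [this, Finset.sum_const, Finset.card_univ, nsmul_eq_mul, mul_one, Fintype.card_sum]
    push_cast
    ring
  have hαsq : n2 (pa z) ^ 2 = 4 * nz (pa z) := by
    rw [n2_sq]
    unfold nz
    rw [Finset.card_filter]
    push_cast
    rw [Finset.mul_sum]
    refine Finset.sum_congr rfl fun i _ => ?_
    unfold pa
    rcases hz (Sum.inl i) with h | h <;> rcases hz (Sum.inr i) with h' | h' <;>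
      rw [h, h'] <;> norm_num
  set α := n2 (pa z)
  set β := n2 (pb z)
  set N := n2 z
  set M : ℝ := ((Fintype.card ι : ℕ) : ℝ) with hMdef
  set t : ℝ := (nz (pa z) : ℝ) with htdef
  have h1 : (1 - ε) * 2 * N ≤ α + β := by
    have : M * ((1 - ε) * 2 * N) ≤ M * (α + β) := by nlinarith
    exact le_of_mul_le_mul_left this hMr
  have h2 : ((1 - ε) * 2 * N) ^ 2 ≤ (α + β) ^ 2 :=
    pow_le_pow_left₀ (mul_nonneg (mul_nonneg (by linarith) (by norm_num)) hN) h1 2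
  have h3 : (α - β) ^ 2 ≤ 16 * ε * M := by
    have e1 : (α - β) ^ 2 = 2 * (α ^ 2 + β ^ 2) - (α + β) ^ 2 := by ring
    rw [e1, h0]
    have e2 : ((1 - ε) * 2 * N) ^ 2 = 4 * N ^ 2 - 8 * ε * N ^ 2 + 4 * ε ^ 2 * N ^ 2 := by ring
    rw [e2] at h2
    have : 0 ≤ 4 * ε ^ 2 * N ^ 2 := by positivity
    rw [hNsq] at *
    nlinarith
  have h4 : (α + β) ^ 2 ≤ 8 * M := by
    have e1 : (α + β) ^ 2 = 2 * (α ^ 2 + β ^ 2) - (α - β) ^ 2 := by ring
    rw [e1, h0, hNsq]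
    nlinarith [sq_nonneg (α - β)]
  have h5 : (α ^ 2 - β ^ 2) ^ 2 ≤ 128 * ε * M ^ 2 := by
    have e1 : (α ^ 2 - β ^ 2) ^ 2 = (α - β) ^ 2 * (α + β) ^ 2 := by ring
    rw [e1]
    calc (α - β) ^ 2 * (α + β) ^ 2 ≤ (16 * ε * M) * (8 * M) := by
          refine mul_le_mul h3 h4 (sq_nonneg _) (by positivity)
      _ = _ := by ring
  have h6 : α ^ 2 - β ^ 2 = 8 * (t - M / 2) := by
    have : β ^ 2 = 4 * M - 4 * t := by
      rw [hαsq, hNsq] at h0
      linarith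
    rw [hαsq, this]
    ring
  have h7 : (t - M / 2) ^ 2 ≤ (M / 100) ^ 2 := by
    rw [h6] at h5
    have : 128 * ε * M ^ 2 ≤ 128 * (1 / 20000) * M ^ 2 := by gcongr
    nlinarith
  have h8 := abs_le_of_sq_le_sq' h7 (by positivity)
  unfold Zb
  rw [Finset.mem_filter]
  refine ⟨?_, hz, ?_, ?_⟩
  · rw [mem_box]
    intro i
    rw [mem_I]
    rcases hz i with h | h <;> rw [h] <;> simp
  · rw [← hMdef, ← htdef]
    linarith [h8.1]
  · rw [← hMdef, ← htdef]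
    linarith [h8.2]

theorem root_one {A : ι → ι → ℤ} (hA : IsHad A) {ε : ℝ} (hε : 0 < ε)
    (hε1 : ε ≤ 1 / 20000) (hM : 0 < Fintype.card ι)
    (hPhi : Phi (3 * ε) A 2 ≤ Real.exp (3 / 100 * Fintype.card ι))
    (hbig : (6 * ((Fintype.card ι : ℝ) + 1)) ^ 6 * Real.exp (-(6 / 100 * Fintype.card ι)) < 1) :
    ∃ R : Gam ι, ∀ z : ι ⊕ ι → ℤ, (∀ i, z i = 1 ∨ z i = -1) → ¬ Good ε (dbl A R) z := by
  by_contra hcon
  push Not at hcon
  set G := Gs (3 * ε) A (2 * 1) with hG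
  have hcard : (0 : ℝ) < Fintype.card (Gam ι) := by
    have : 0 < Fintype.card (Gam ι) := Fintype.card_pos
    exact_mod_cast this
  have h1 := sym_gen G (Gs_sub _ _ _) (Zb ι) (by
    intro z hz
    unfold Zb at hz
    exact (Finset.mem_filter.1 hz).1) Zb_inv (Phi (3 * ε) A (2 * 1)) rfl
  have h2 : (Fintype.card (Gam ι) : ℝ) ≤ ∑ R : Gam ι, ∑ z ∈ Zb ι,
      ((if pa z ∈ G then 1 else 0) * (if act R (pb z) ∈ G then 1 else 0) : ℝ) := by
    have : (Fintype.card (Gam ι) : ℝ) = ∑ R : Gam ι, (1 : ℝ) := by simp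
    rw [this]
    refine Finset.sum_le_sum fun R _ => ?_
    obtain ⟨z, hz, hgood⟩ := hcon R
    have hmem := good_mem_Zb hA R hε hε1 hM hz hgood
    have hn2 : 0 < n2 z := by
      have hne : Nonempty ι := Fintype.card_pos_iff.1 hM
      obtain ⟨i⟩ := hne
      unfold n2
      refine Real.sqrt_pos.2 ?_
      refine Finset.sum_pos' (fun _ _ => sq_nonneg _) ⟨Sum.inl i, Finset.mem_univ _, ?_⟩
      rcases hz (Sum.inl i) with h | h <;> rw [h] <;> norm_num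
    have hbox : z ∈ box (ι ⊕ ι) 1 := by
      unfold Zb at hmem
      exact (Finset.mem_filter.1 hmem).1
    obtain ⟨g1, g2⟩ := good_split hA R hε (by linarith) hn2 hgood
    have m1 : pa z ∈ G := mem_Gs.2 ⟨(pa_mem hbox).1, g1⟩
    have m2 : act R (pb z) ∈ G := mem_Gs.2 ⟨act_mem_box R (pa_mem hbox).2, g2⟩
    have h3 : (1 : ℝ) = (if pa z ∈ G then 1 else 0) * (if act R (pb z) ∈ G then 1 else 0) := by
      rw [if_pos m1, if_pos m2, one_mul]
    refine h3.le.trans ?_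
    refine Finset.single_le_sum (f := fun z => ((if pa z ∈ G then 1 else 0) *
      (if act R (pb z) ∈ G then 1 else 0) : ℝ)) (fun y _ => ?_) hmem
    split_ifs <;> norm_num
  have h3 := h2.trans h1
  have h4 : (1 : ℝ) ≤ (D (Fintype.card ι) (2 * 1) * Phi (3 * ε) A (2 * 1)) ^ 2 *
      ∑ z ∈ Zb ι, Lam (pa z) ^ 3 * Lam (pb z) ^ 3 := by
    by_contra hc
    push Not at hc
    have := mul_lt_mul_of_pos_left hc hcard
    linarith
  set M : ℝ := ((Fintype.card ι : ℕ) : ℝ) with hMdef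
  have hMr : (0 : ℝ) < M := by
    rw [hMdef]
    exact_mod_cast hM
  have hPhi0 : 0 ≤ Phi (3 * ε) A (2 * 1) := Phi_nonneg _ _ _
  have hDle : D (Fintype.card ι) (2 * 1) ≤ (6 * (M + 1)) ^ 3 := by
    unfold D
    have he : Real.exp 1 ≤ 6 := by
      have := Real.exp_one_lt_d9
      linarith
    rw [← hMdef]
    gcongr
  have hD := D_pos (Fintype.card ι) (2 * 1)
  have h5 : (D (Fintype.card ι) (2 * 1) * Phi (3 * ε) A (2 * 1)) ^ 2 *
      ∑ z ∈ Zb ι, Lam (pa z) ^ 3 * Lam (pb z) ^ 3 ≤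
      ((6 * (M + 1)) ^ 3 * Real.exp (3 / 100 * M)) ^ 2 * Real.exp (-(12 / 100 * M)) := by
    refine mul_le_mul ?_ (sum_Zb_le hM) (Finset.sum_nonneg fun z _ => ?_) (by positivity)
    · refine pow_le_pow_left₀ (mul_nonneg hD.le hPhi0) ?_ 2
      exact mul_le_mul hDle hPhi hPhi0 (by positivity)
    · exact mul_nonneg (pow_nonneg (Lam_nonneg _) _) (pow_nonneg (Lam_nonneg _) _)
  have h6 : ((6 * (M + 1)) ^ 3 * Real.exp (3 / 100 * M)) ^ 2 * Real.exp (-(12 / 100 * M)) =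
      (6 * (M + 1)) ^ 6 * Real.exp (-(6 / 100 * M)) := by
    rw [mul_pow, ← Real.exp_nat_mul, mul_assoc, ← Real.exp_add, ← pow_mul]
    congr 2
    push_cast
    ring
  linarith

end

theorem root (ε : ℝ) (hε : 0 < ε) (hε1 : ε ≤ 1 / 20000) (h : PP 2 (3 * ε) (3 / 100)) :
    ∃ r0 : ℕ, ∀ r, r0 ≤ r → ∃ (κ : Type) (_ : Fintype κ) (_ : DecidableEq κ) (A : κ → κ → ℤ),
      Fintype.card κ = 2 ^ r ∧ (∀ j i, A j i = 1 ∨ A j i = -1) ∧
        ∀ z : κ → ℤ, (∀ i, z i = 1 ∨ z i = -1) → ¬ Good ε A z := by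
  obtain ⟨r0, hr0⟩ := h
  obtain ⟨M0, hM0⟩ := poly_exp 6 (6 / 100) (by norm_num) (1 / 2) (by norm_num)
  refine ⟨r0 + M0 + 1, fun r hr => ?_⟩
  obtain ⟨s, rfl⟩ : ∃ s, r = s + 1 := ⟨r - 1, by omega⟩
  obtain ⟨ι, i1, i2, A, hcard, hA, hPhi⟩ := hr0 s (by omega)
  have hsM : s < Fintype.card ι := by
    rw [hcard]
    exact Nat.lt_two_pow_self
  have hcr : (2 : ℝ) ^ s = Fintype.card ι := by exact_mod_cast hcard.symm
  rw [hcr] at hPhi
  have h1 := hM0 (Fintype.card ι) (by omega)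
  obtain ⟨R, hR⟩ := root_one hA hε hε1 (by omega) hPhi (lt_of_le_of_lt h1 (by norm_num))
  refine ⟨ι ⊕ ι, inferInstance, inferInstance, dbl A R, ?_, (isHad_dbl hA R).1, hR⟩
  rw [Fintype.card_sum, hcard, pow_succ]
  ring

end Pool.Agent.W321.GB
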