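import Mathlib
import Pool.Agent.W321.GB.Root

/-! The Gale–Berlekamp game: infinitely many matrices with value below `(1 - ε) n ^ (3 / 2)`. -/

set_option autoImplicit false

namespace Pool.Agent.W321.GB

open Finset
open scoped Classical

theorem exists_depth : ∃ D1 : ℕ, 2 ≤ ∑ d ∈ range D1, dl (d + 1) := by
  have h1 : Filter.Tendsto (fun n : ℕ => ∑ i ∈ range n, (1 / ((i : ℝ) + 1))) Filter.atTop
      Filter.atTop := Real.tendsto_sum_range_one_div_nat_succ_atTop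
  obtain ⟨D0, h2, h3⟩ := ((h1.eventually_ge_atTop (3 * (10 ^ 8 * 600 * 8))).and
    (Filter.eventually_gt_atTop 0)).exists
  obtain ⟨D1, rfl⟩ : ∃ D1, D0 = D1 + 1 := ⟨D0 - 1, by omega⟩
  refine ⟨D1, ?_⟩
  have h4 : ∑ d ∈ range (D1 + 1), dl d =
      (1 / (10 ^ 8 * 600 * 8)) * ∑ i ∈ range (D1 + 1), (1 / ((i : ℝ) + 1)) := by
    rw [Finset.mul_sum]
    refine Finset.sum_congr rfl fun d _ => ?_
    unfold dl ws
    have : ((d : ℝ) + 1) ≠ 0 := by positivity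
    field_simp
  have h5 : 3 ≤ ∑ d ∈ range (D1 + 1), dl d := by
    rw [h4, one_div (10 ^ 8 * 600 * 8 : ℝ), inv_mul_eq_div, le_div_iff₀ (by norm_num)]
    exact h2
  rw [Finset.sum_range_succ'] at h5
  have h6 : dl 0 ≤ 1 := by
    unfold dl ws
    norm_num
  linarith

theorem exists_PP : ∃ ε : ℝ, 0 < ε ∧ ε ≤ 1 / 20000 ∧ PP 2 (3 * ε) (3 / 100) := by
  obtain ⟨D1, hD1⟩ := exists_depth
  have hB : 0 < 2 ^ (D1 + 1) := by positivity
  set ε0 : ℝ := min (1 / (3200 * ((2 ^ (D1 + 1) : ℕ) : ℝ) ^ 3)) (1 / 20000) with hε0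
  have hε0pos : 0 < ε0 := lt_min (by positivity) (by norm_num)
  have hb := base (2 ^ (D1 + 1)) hB ε0 hε0pos (min_le_left _ _)
  have hε0le : ε0 ≤ 1 / 20000 := min_le_right _ _
  have hit := iterate (D1 + 1) ε0 hε0pos (by linarith) 2 hb D1 (by omega)
  have e1 : D1 + 1 - D1 = 1 := by omega
  rw [e1, pow_one] at hit
  refine ⟨ε0 / 3 ^ D1 / 3, by positivity, ?_, ?_⟩
  · have h3 : (1 : ℝ) ≤ 3 ^ D1 := one_le_pow₀ (by norm_num)
    have h4 : ε0 / 3 ^ D1 ≤ ε0 := div_le_self hε0pos.le h3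
    have h5 : 0 < ε0 / 3 ^ D1 := by positivity
    linarith
  · have e2 : 3 * (ε0 / 3 ^ D1 / 3) = ε0 / 3 ^ D1 := by ring
    rw [e2]
    have e4 : ∑ i ∈ range D1, dl (D1 + 1 - 1 - i) = ∑ d ∈ range D1, dl (d + 1) := by
      rw [← Finset.sum_range_reflect]
      refine Finset.sum_congr rfl fun i hi => ?_
      rw [Finset.mem_range] at hi
      congr 1
      omega
    rw [e4, max_eq_right (by linarith)] at hit
    exact hit

theorem final : ∃ ε : ℝ, 0 < ε ∧ ∃ r0 : ℕ, ∀ r : ℕ, r0 ≤ r →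
    ∃ A : Fin (2 ^ r) → Fin (2 ^ r) → ℤ, (∀ i j, A i j = 1 ∨ A i j = -1) ∧
      ∀ x y : Fin (2 ^ r) → ℤ, (∀ i, x i = 1 ∨ x i = -1) → (∀ j, y j = 1 ∨ y j = -1) →
        ((∑ i, ∑ j, A i j * x i * y j : ℤ) : ℝ) <
          (1 - ε) * (((2 ^ r : ℕ) : ℝ) ^ ((3 : ℝ) / 2)) := by
  obtain ⟨ε, hε, hε1, hPP⟩ := exists_PP
  obtain ⟨r0, hr0⟩ := root ε hε hε1 hPP
  refine ⟨ε, hε, r0, fun r hr => ?_⟩
  obtain ⟨κ, i1, i2, A, hcard, hA, hbad⟩ := hr0 r hr
  let e : Fin (2 ^ r) ≃ κ := (Fintype.equivFinOfCardEq hcard).symm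
  refine ⟨fun i j => A (e i) (e j), fun i j => hA _ _, fun x y hx hy => ?_⟩
  set z : κ → ℤ := fun k => y (e.symm k) with hz
  have hzs : ∀ k, z k = 1 ∨ z k = -1 := fun k => hy _
  have h1 := hbad z hzs
  unfold Good at h1
  push Not at h1
  have hn : n2 z ^ 2 = (2 ^ r : ℕ) := by
    rw [n2_sq]
    have : ∀ i, (z i : ℝ) ^ 2 = 1 := by
      intro i
      rcases hzs i with h | h <;> rw [h] <;> norm_num
    simp only [this, Finset.sum_const, Finset.card_univ, nsmul_eq_mul, mul_one, hcard]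
  have hpos : (0 : ℝ) < ((2 ^ r : ℕ) : ℝ) := by positivity
  have hn2 : n2 z = ((2 ^ r : ℕ) : ℝ) ^ ((1 : ℝ) / 2) := by
    rw [← Real.sqrt_eq_rpow, ← hn, Real.sqrt_sq (n2_nonneg z)]
  have h2 : (((2 ^ r : ℕ) : ℝ) ^ ((3 : ℝ) / 2)) = ((2 ^ r : ℕ) : ℝ) * n2 z := by
    rw [hn2]
    have : (3 : ℝ) / 2 = 1 + 1 / 2 := by norm_num
    rw [this, Real.rpow_add hpos, Real.rpow_one]
  rw [h2, ← mul_assoc]
  rw [hcard] at h1
  refine lt_of_le_of_lt ?_ h1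
  have h3 : ∀ i, ∑ j, A (e i) (e j) * x i * y j = x i * mv A z (e i) := by
    intro i
    unfold mv
    rw [Finset.mul_sum, ← Equiv.sum_comp e (fun k => x i * (A (e i) k * z k))]
    refine Finset.sum_congr rfl fun j _ => ?_
    simp only [hz, Equiv.symm_apply_apply]
    ring
  unfold l1
  rw [← Equiv.sum_comp e (fun j => |(mv A z j : ℝ)|)]
  simp only [h3]
  push_cast
  refine Finset.sum_le_sum fun i _ => ?_
  have h4 : |((x i : ℝ)) * (mv A z (e i) : ℝ)| = |(mv A z (e i) : ℝ)| := by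
    rw [abs_mul]
    rcases hx i with h | h <;> rw [h] <;> simp
  rw [← h4]
  exact le_abs_self _

end Pool.Agent.W321.GB
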